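import Mathlib

/-!
Dispersion estimate and angular integral.
-/

set_option autoImplicit false

open MeasureTheory Complex Set
open scoped ENNReal ComplexConjugate

namespace BoltzDisp

lemma lint_rpow {α δ : ℝ} (hα : α < 1) (hδ : 0 ≤ δ) :
    ∫⁻ u in Ioo (0 : ℝ) δ, ENNReal.ofReal (u ^ (-α)) = ENNReal.ofReal (δ ^ (1 - α) / (1 - α)) := by
  have hint : IntegrableOn (fun u : ℝ => u ^ (-α)) (Ioo 0 δ) := by
    have := intervalIntegral.intervalIntegrable_rpow' (a := 0) (b := δ) (r := -α) (by linarith)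
    rw [intervalIntegrable_iff_integrableOn_Ioo_of_le hδ] at this
    exact this
  rw [← ofReal_integral_eq_lintegral_ofReal hint]
  · congr 1
    rw [← integral_Ioc_eq_integral_Ioo, ← intervalIntegral.integral_of_le hδ,
      integral_rpow (Or.inl (by linarith))]
    have h1 : -α + 1 = 1 - α := by ring
    rw [h1, Real.zero_rpow (by linarith), sub_zero]
  · refine (ae_restrict_iff' measurableSet_Ioo).mpr (ae_of_all _ fun u hu => ?_)
    exact Real.rpow_nonneg hu.1.le _

lemma lint_gauss {r : ℝ} (hr : 0 < r) (s0 : ℝ) :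
    ∫⁻ s : ℝ, ENNReal.ofReal (Real.exp (-(r * (s - s0)) ^ 2 / 2)) =
      ENNReal.ofReal (Real.sqrt (2 * Real.pi) / r) := by
  have h1 : ∫⁻ s : ℝ, ENNReal.ofReal (Real.exp (-(r * (s - s0)) ^ 2 / 2)) =
      ∫⁻ s : ℝ, ENNReal.ofReal (Real.exp (-(r * s) ^ 2 / 2)) :=
    lintegral_sub_right_eq_self (fun s => ENNReal.ofReal (Real.exp (-(r * s) ^ 2 / 2))) s0
  rw [h1]
  have e : (fun s : ℝ => Real.exp (-(r * s) ^ 2 / 2)) = fun s => Real.exp (-(r ^ 2 / 2) * s ^ 2) := by
    ext s; congr 1; ring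
  have hint : Integrable (fun s : ℝ => Real.exp (-(r * s) ^ 2 / 2)) := by
    rw [e]; exact integrable_exp_neg_mul_sq (by positivity)
  rw [← ofReal_integral_eq_lintegral_ofReal hint (ae_of_all _ fun s => (Real.exp_pos _).le), e,
    integral_gaussian]
  congr 1
  rw [show Real.pi / (r ^ 2 / 2) = 2 * Real.pi / r ^ 2 by field_simp,
    Real.sqrt_div (by positivity), Real.sqrt_sq hr.le]

/-- **Dispersion estimate.** -/
lemma dispersion {α : ℝ} (hα0 : 0 < α) (hα1 : α < 1) (y w : ℂ) (hw : w ≠ 0) (t : ℝ) (S : Set ℝ)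
    (hS : S ⊆ Iio t) (hSm : MeasurableSet S) :
    ∫⁻ s in S, ENNReal.ofReal ((t - s) ^ (-α) * Real.exp (-‖y + s * w‖ ^ 2 / 2)) ≤
      ENNReal.ofReal ((1 / (1 - α) + 3) * ‖w‖ ^ (α - 1)) := by
  have hr : 0 < ‖w‖ := norm_pos_iff.mpr hw
  set r := ‖w‖ with hrdef
  set c : ℝ := ((y + t * w) * conj w).re / r with hc
  have hkey : ∀ s : ℝ, |c - (t - s) * r| ≤ ‖y + s * w‖ := by
    intro s
    have h1 : ((y + s * w) * conj w).re = r * (c - (t - s) * r) := by
      have h2 : y + s * w = (y + t * w) - ((t - s : ℝ) : ℂ) * w := by push_cast; ring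
      have h3 : (y + s * w) * conj w = (y + t * w) * conj w - ((t - s : ℝ) : ℂ) * (w * conj w) := by
        rw [h2]; ring
      rw [h3, Complex.mul_conj, Complex.normSq_eq_norm_sq, ← hrdef]
      rw [← Complex.ofReal_mul, Complex.sub_re, Complex.ofReal_re, hc]
      field_simp
    have h4 : |((y + s * w) * conj w).re| ≤ ‖y + s * w‖ * r := by
      refine (Complex.abs_re_le_norm _).trans ?_
      rw [norm_mul, Complex.norm_conj]
    rw [h1, abs_mul, abs_of_pos hr] at h4
    have h5 : r * |c - (t - s) * r| ≤ r * ‖y + s * w‖ := by linarith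
    exact le_of_mul_le_mul_left h5 hr
  have hexp : ∀ s : ℝ, Real.exp (-‖y + s * w‖ ^ 2 / 2) ≤
      Real.exp (-(r * (s - (t - c / r))) ^ 2 / 2) := by
    intro s
    apply Real.exp_le_exp.mpr
    have h1 : r * (s - (t - c / r)) = c - (t - s) * r := by field_simp; ring
    rw [h1]
    have h2 : (c - (t - s) * r) ^ 2 ≤ ‖y + s * w‖ ^ 2 := by
      rw [← sq_abs]
      exact pow_le_pow_left₀ (abs_nonneg _) (hkey s) 2
    linarith
  have hpt : ∀ s ∈ S, ENNReal.ofReal ((t - s) ^ (-α) * Real.exp (-‖y + s * w‖ ^ 2 / 2)) ≤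
      (Ioo 0 (1 / r)).indicator (fun u : ℝ => ENNReal.ofReal (u ^ (-α))) (t - s) +
      ENNReal.ofReal (r ^ α) * ENNReal.ofReal (Real.exp (-(r * (s - (t - c / r))) ^ 2 / 2)) := by
    intro s hs
    have hts : 0 < t - s := sub_pos.mpr (hS hs)
    have hp : 0 ≤ (t - s) ^ (-α) := Real.rpow_nonneg hts.le _
    by_cases h : t - s < 1 / r
    · rw [indicator_of_mem (show t - s ∈ Ioo 0 (1 / r) from ⟨hts, h⟩)]
      refine le_add_right (ENNReal.ofReal_le_ofReal ?_)
      have : Real.exp (-‖y + s * w‖ ^ 2 / 2) ≤ 1 := by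
        apply Real.exp_le_one_iff.mpr
        have := sq_nonneg ‖y + s * w‖
        linarith
      nlinarith
    · refine le_add_left ?_
      rw [← ENNReal.ofReal_mul (by positivity)]
      apply ENNReal.ofReal_le_ofReal
      have h1 : (t - s) ^ (-α) ≤ r ^ α := by
        rw [Real.rpow_neg hts.le, inv_le_comm₀ (by positivity) (by positivity),
          ← Real.inv_rpow hr.le]
        apply Real.rpow_le_rpow (by positivity) _ hα0.le
        rw [← one_div]; exact not_lt.mp h
      exact mul_le_mul h1 (hexp s) (Real.exp_pos _).le (by positivity)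
  calc ∫⁻ s in S, ENNReal.ofReal ((t - s) ^ (-α) * Real.exp (-‖y + s * w‖ ^ 2 / 2))
      ≤ ∫⁻ s in S, ((Ioo 0 (1 / r)).indicator (fun u : ℝ => ENNReal.ofReal (u ^ (-α))) (t - s) +
        ENNReal.ofReal (r ^ α) * ENNReal.ofReal (Real.exp (-(r * (s - (t - c / r))) ^ 2 / 2))) :=
        setLIntegral_mono' hSm hpt
    _ ≤ ∫⁻ s, ((Ioo 0 (1 / r)).indicator (fun u : ℝ => ENNReal.ofReal (u ^ (-α))) (t - s) +
        ENNReal.ofReal (r ^ α) * ENNReal.ofReal (Real.exp (-(r * (s - (t - c / r))) ^ 2 / 2))) :=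
        setLIntegral_le_lintegral _ _
    _ = ENNReal.ofReal ((1 / r) ^ (1 - α) / (1 - α)) +
        ENNReal.ofReal (r ^ α) * ENNReal.ofReal (Real.sqrt (2 * Real.pi) / r) := by
        have hm : Measurable ((Ioo 0 (1 / r)).indicator
            (fun u : ℝ => ENNReal.ofReal (u ^ (-α)))) := by
          apply Measurable.indicator _ measurableSet_Ioo
          fun_prop
        have hm2 : Measurable fun s : ℝ => (Ioo 0 (1 / r)).indicator
            (fun u : ℝ => ENNReal.ofReal (u ^ (-α))) (t - s) := hm.comp (by fun_prop)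
        rw [lintegral_add_left hm2,
          lintegral_const_mul _ (by fun_prop), lint_gauss hr,
          lintegral_sub_left_eq_self ((Ioo 0 (1 / r)).indicator
            (fun u : ℝ => ENNReal.ofReal (u ^ (-α)))) t,
          lintegral_indicator measurableSet_Ioo, lint_rpow hα1 (by positivity)]
    _ ≤ ENNReal.ofReal ((1 / (1 - α) + 3) * r ^ (α - 1)) := by
        have h1α : 0 < 1 - α := by linarith
        rw [← ENNReal.ofReal_mul (by positivity), ← ENNReal.ofReal_add (by positivity)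
          (by positivity)]
        apply ENNReal.ofReal_le_ofReal
        have e1 : (1 / r) ^ (1 - α) = r ^ (α - 1) := by
          rw [one_div, Real.inv_rpow hr.le, ← Real.rpow_neg hr.le]; congr 1; ring
        have e2 : r ^ α * (Real.sqrt (2 * Real.pi) / r) = Real.sqrt (2 * Real.pi) * r ^ (α - 1) := by
          rw [Real.rpow_sub_one hr.ne']; ring
        rw [e1, e2]
        have h3 : Real.sqrt (2 * Real.pi) ≤ 3 := by
          rw [Real.sqrt_le_left (by norm_num)]
          have := Real.pi_lt_d2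
          linarith
        have hp : 0 ≤ r ^ (α - 1) := by positivity
        have : r ^ (α - 1) / (1 - α) = 1 / (1 - α) * r ^ (α - 1) := by ring
        rw [this]
        nlinarith

/-- angular integral -/
lemma lint_angle {p : ℝ} (hp : -1 < p) :
    ∫⁻ φ in Icc (-(Real.pi / 4)) (Real.pi / 4), ENNReal.ofReal (|φ| ^ p) < ∞ := by
  have hpi : 0 ≤ Real.pi / 4 := by positivity
  have h1 : IntervalIntegrable (fun φ : ℝ => |φ| ^ p) volume 0 (Real.pi / 4) := by
    have := intervalIntegral.intervalIntegrable_rpow' (a := 0) (b := Real.pi / 4) (r := p) hp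
    refine this.congr ?_
    intro x hx
    rw [uIoc_of_le hpi] at hx
    simp only
    rw [abs_of_pos hx.1]
  have h2 : IntervalIntegrable (fun φ : ℝ => |φ| ^ p) volume (-(Real.pi / 4)) 0 := by
    rw [IntervalIntegrable.iff_comp_neg]
    simp only [abs_neg, neg_zero, neg_neg]
    exact h1.symm
  have h3 := h2.trans h1
  rw [intervalIntegrable_iff_integrableOn_Icc_of_le (by linarith)] at h3
  have h4 := h3.2
  rw [hasFiniteIntegral_iff_norm] at h4
  refine lt_of_le_of_lt (le_of_eq ?_) h4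
  refine lintegral_congr fun φ => ?_
  rw [Real.norm_of_nonneg (by positivity)]

end BoltzDisp
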