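import Mathlib

/-!
Collision geometry in the plane `ℂ` and the scalar weight inequality.
-/

set_option autoImplicit false

open MeasureTheory Complex

namespace BoltzDisp

/-- `a φ = cos φ * exp (i φ)`; the post-collisional velocities are `v - a w`, `v - (1 - a) w`
with `w = v - v_*` and half deviation angle `φ`. -/
noncomputable def aa (φ : ℝ) : ℂ := (Real.cos φ : ℂ) * Complex.exp (φ * I)

lemma aa_eq (φ : ℝ) : aa φ = ((Real.cos φ ^ 2 : ℝ) : ℂ) + ((Real.cos φ * Real.sin φ : ℝ) : ℂ) * I := by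
  unfold aa
  rw [Complex.exp_mul_I, ← Complex.ofReal_cos, ← Complex.ofReal_sin]
  push_cast
  ring

lemma aa_re (φ : ℝ) : (aa φ).re = Real.cos φ ^ 2 := by
  rw [aa_eq]; simp [-Complex.ofReal_pow, -Complex.ofReal_mul, -Complex.ofReal_cos, -Complex.ofReal_sin]

lemma aa_im (φ : ℝ) : (aa φ).im = Real.cos φ * Real.sin φ := by
  rw [aa_eq]; simp [-Complex.ofReal_pow, -Complex.ofReal_mul, -Complex.ofReal_cos, -Complex.ofReal_sin]

lemma norm_aa (φ : ℝ) : ‖aa φ‖ = |Real.cos φ| := by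
  unfold aa
  rw [norm_mul, Complex.norm_exp_ofReal_mul_I, mul_one, Complex.norm_real, Real.norm_eq_abs]

lemma norm_one_sub_aa (φ : ℝ) : ‖1 - aa φ‖ = |Real.sin φ| := by
  have h : ‖1 - aa φ‖ ^ 2 = |Real.sin φ| ^ 2 := by
    rw [← Complex.normSq_eq_norm_sq, Complex.normSq_apply]
    simp only [sub_re, one_re, sub_im, one_im, aa_re, aa_im, sq_abs]
    have := Real.sin_sq_add_cos_sq φ
    have h2 : Real.sin φ ^ 2 = 1 - Real.cos φ ^ 2 := by linarith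
    nlinarith [this]
  exact (pow_left_inj₀ (norm_nonneg _) (abs_nonneg _) two_ne_zero).mp h

/-- energy identity, for any two points -/
lemma energy (φ : ℝ) (v w : ℂ) :
    ‖v - aa φ * w‖ ^ 2 + ‖v - (1 - aa φ) * w‖ ^ 2 = ‖v‖ ^ 2 + ‖v - w‖ ^ 2 := by
  simp only [← Complex.normSq_eq_norm_sq, Complex.normSq_apply]
  simp only [sub_re, sub_im, mul_re, mul_im, one_re, one_im, aa_re, aa_im]
  have h2 : Real.sin φ ^ 2 = 1 - Real.cos φ ^ 2 := by
    have := Real.sin_sq_add_cos_sq φ; linarith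
  generalize Real.cos φ = c at *
  generalize Real.sin φ = s at *
  have h3 : (c * s) ^ 2 = c ^ 2 * (1 - c ^ 2) := by rw [mul_pow, h2]
  linear_combination (2 * (w.re ^ 2 + w.im ^ 2)) * h3

/-- the relative velocity is preserved -/
lemma norm_rel (φ : ℝ) (v w : ℂ) :
    ‖(v - (1 - aa φ) * w) - (v - aa φ * w)‖ = ‖w‖ := by
  have h : (v - (1 - aa φ) * w) - (v - aa φ * w) = (2 * aa φ - 1) * w := by ring
  rw [h, norm_mul]
  have h1 : ‖2 * aa φ - 1‖ = 1 := by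
    have h2 : ‖2 * aa φ - 1‖ ^ 2 = 1 ^ 2 := by
      rw [← Complex.normSq_eq_norm_sq, Complex.normSq_apply]
      simp only [sub_re, sub_im, mul_re, mul_im, one_re, one_im, aa_re, aa_im, re_ofNat, im_ofNat]
      have h3 : Real.sin φ ^ 2 = 1 - Real.cos φ ^ 2 := by
        have := Real.sin_sq_add_cos_sq φ; linarith
      linear_combination (4 * Real.cos φ ^ 2) * h3
    exact (pow_left_inj₀ (norm_nonneg _) zero_le_one two_ne_zero).mp h2
  rw [h1, one_mul]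

/-- the polynomial weight -/
noncomputable def P (v : ℂ) : ℝ := (1 + ‖v‖ ^ 2) ^ 3

lemma P_pos (v : ℂ) : 0 < P v := by unfold P; positivity

lemma one_le_P (v : ℂ) : 1 ≤ P v := by
  unfold P
  have : (1 : ℝ) ≤ 1 + ‖v‖ ^ 2 := by nlinarith [sq_nonneg ‖v‖]
  exact one_le_pow₀ this

lemma continuous_P : Continuous P := by unfold P; fun_prop

lemma cos_sq_ge {φ : ℝ} (hφ : |φ| ≤ Real.pi / 4) : 1 / 2 ≤ Real.cos φ ^ 2 := by
  have h1 : Real.cos (2 * φ) = 2 * Real.cos φ ^ 2 - 1 := Real.cos_two_mul φ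
  have h2 : 0 ≤ Real.cos (2 * φ) := by
    rw [abs_le] at hφ
    apply Real.cos_nonneg_of_mem_Icc
    constructor <;> linarith [hφ.1, hφ.2]
  linarith

/-- **Scalar weight inequality.** -/
lemma weight_ratio {φ : ℝ} (v w : ℂ) :
    P v / (P (v - aa φ * w) * P (v - (1 - aa φ) * w)) ≤
      5000 * (1 / P (v - aa φ * w) + Real.sin φ ^ 6 / P (v - (1 - aa φ) * w) + 1 / P w) := by
  set v1 := v - (1 - aa φ) * w with hv1
  set v2 := v - aa φ * w with hv2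
  have hP1 := P_pos v1
  have hP2 := P_pos v2
  have hPw := P_pos w
  have hs6 : 0 ≤ Real.sin φ ^ 6 := by positivity
  rw [div_le_iff₀ (mul_pos hP2 hP1)]
  have e1 : 5000 * (1 / P v2 + Real.sin φ ^ 6 / P v1 + 1 / P w) * (P v2 * P v1) =
      5000 * P v1 + 5000 * Real.sin φ ^ 6 * P v2 + 5000 * (P v2 * P v1) / P w := by
    field_simp
  rw [e1]
  have hnn : 0 ≤ 5000 * (P v2 * P v1) / P w := by positivity
  rcases le_or_gt ‖v‖ (2 * ‖v1‖) with h | h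
  · -- case I
    have h1 : P v ≤ 64 * P v1 := by
      unfold P
      calc (1 + ‖v‖ ^ 2) ^ 3 ≤ (1 + (2 * ‖v1‖) ^ 2) ^ 3 := by gcongr
        _ ≤ (4 * (1 + ‖v1‖ ^ 2)) ^ 3 := by
            gcongr
            nlinarith [sq_nonneg ‖v1‖]
        _ = 64 * (1 + ‖v1‖ ^ 2) ^ 3 := by ring
    have h2 : 0 ≤ 5000 * Real.sin φ ^ 6 * P v2 := by positivity
    linarith
  · -- case II
    have hd : ‖v - v1‖ = |Real.sin φ| * ‖w‖ := by
      rw [hv1, sub_sub_cancel, norm_mul, norm_one_sub_aa]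
    have h1 : ‖v‖ ≤ 2 * (|Real.sin φ| * ‖w‖) := by
      have : ‖v‖ ≤ ‖v - v1‖ + ‖v1‖ := by
        have := norm_add_le (v - v1) v1
        simpa using this
      rw [hd] at this
      linarith
    have hen := energy φ v w
    rw [← hv1, ← hv2] at hen
    have h2 : 3 / 4 * ‖v‖ ^ 2 ≤ ‖v2‖ ^ 2 := by
      have : ‖v1‖ ^ 2 ≤ (‖v‖ / 2) ^ 2 := by
        gcongr; linarith
      nlinarith [sq_nonneg ‖v - w‖]
    have h3 : ‖w‖ ≤ ‖v1‖ + ‖v2‖ := by
      rw [← norm_rel φ v w]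
      exact norm_sub_le _ _
    have h4 : ‖w‖ ^ 2 ≤ 2.6 * ‖v2‖ ^ 2 := by
      have h5 : ‖w‖ ≤ ‖v‖ / 2 + ‖v2‖ := by linarith
      have h6 : ‖w‖ ^ 2 ≤ (‖v‖ / 2 + ‖v2‖) ^ 2 := by gcongr
      have h7 : ‖v‖ * ‖v2‖ ≤ 1.2 * ‖v2‖ ^ 2 := by
        have h8 : ‖v‖ ≤ 1.2 * ‖v2‖ := by
          have : ‖v‖ ^ 2 ≤ (1.2 * ‖v2‖) ^ 2 := by nlinarith [sq_nonneg ‖v2‖]
          exact (pow_le_pow_iff_left₀ (norm_nonneg _) (by positivity) two_ne_zero).mp this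
        nlinarith [norm_nonneg v2]
      nlinarith [sq_nonneg ‖v2‖]
    have hB : 1 + ‖w‖ ^ 2 ≤ 2.6 * (1 + ‖v2‖ ^ 2) := by nlinarith
    have hv : 1 + ‖v‖ ^ 2 ≤ 1 + 4 * Real.sin φ ^ 2 * ‖w‖ ^ 2 := by
      have : ‖v‖ ^ 2 ≤ (2 * (|Real.sin φ| * ‖w‖)) ^ 2 := by gcongr
      rw [mul_pow, mul_pow, sq_abs] at this
      nlinarith
    -- cubes
    have hP : P v ≤ 4 * 1 + 256 * Real.sin φ ^ 6 * P w := by
      unfold P
      have h8 : (1 + ‖v‖ ^ 2) ^ 3 ≤ (1 + 4 * Real.sin φ ^ 2 * ‖w‖ ^ 2) ^ 3 := by gcongr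
      have h9 : ∀ x : ℝ, 0 ≤ x → (1 + x) ^ 3 ≤ 4 * 1 + 4 * x ^ 3 := by
        intro x hx
        nlinarith [mul_nonneg hx (sq_nonneg (x - 1)), sq_nonneg (x - 1), mul_nonneg hx hx]
      have h10 := h9 (4 * Real.sin φ ^ 2 * ‖w‖ ^ 2) (by positivity)
      have h11 : (4 * Real.sin φ ^ 2 * ‖w‖ ^ 2) ^ 3 = 64 * Real.sin φ ^ 6 * (‖w‖ ^ 2) ^ 3 := by ring
      have h12 : (‖w‖ ^ 2) ^ 3 ≤ (1 + ‖w‖ ^ 2) ^ 3 := by gcongr; linarith
      have h13 : 64 * Real.sin φ ^ 6 * (‖w‖ ^ 2) ^ 3 ≤ 64 * Real.sin φ ^ 6 * (1 + ‖w‖ ^ 2) ^ 3 := by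
        gcongr
      nlinarith
    have hPw2 : P w ≤ 2.6 ^ 3 * P v2 := by
      unfold P
      rw [← mul_pow]
      gcongr
    have h14 : 4 * 1 ≤ 5000 * (P v2 * P v1) / P w := by
      rw [le_div_iff₀ hPw]
      have h15 : P v2 ≤ P v2 * P v1 := by nlinarith [one_le_P v1]
      nlinarith
    have h16 : 256 * Real.sin φ ^ 6 * P w ≤ 5000 * Real.sin φ ^ 6 * P v2 := by
      calc 256 * Real.sin φ ^ 6 * P w ≤ 256 * Real.sin φ ^ 6 * (2.6 ^ 3 * P v2) := by gcongr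
        _ = (256 * 2.6 ^ 3) * (Real.sin φ ^ 6 * P v2) := by ring
        _ ≤ 5000 * (Real.sin φ ^ 6 * P v2) := by
            have : 0 ≤ Real.sin φ ^ 6 * P v2 := by positivity
            nlinarith
        _ = _ := by ring
    linarith

end BoltzDisp
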