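import Mathlib
import Pool.Agent.MP_08d8de_an.Disp.Geometry

/-!
Integral estimates: weight ratio, dispersion, angular integral.
-/

set_option autoImplicit false

open MeasureTheory Complex
open scoped ENNReal

namespace BoltzDisp

lemma lint_affine {c : ℂ} (hc : c ≠ 0) (v : ℂ) {F : ℂ → ℝ≥0∞} (hF : Measurable F) :
    ∫⁻ w, F (v - c * w) = ENNReal.ofReal ((‖c‖ ^ 2)⁻¹) * ∫⁻ u, F u := by
  have h1 : ∫⁻ w, F (v - c * w) = ∫⁻ u, F (v - u) ∂(Measure.map (fun w : ℂ => c * w) volume) := by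
    rw [lintegral_map (by fun_prop) (by fun_prop)]
  have hdet : LinearMap.det (Algebra.lmul ℝ ℂ c) = ‖c‖ ^ 2 := by
    rw [← Algebra.norm_apply, Algebra.norm_complex_apply, Complex.normSq_eq_norm_sq]
  have hne : LinearMap.det (Algebra.lmul ℝ ℂ c) ≠ 0 := by
    rw [hdet]; exact pow_ne_zero _ (norm_ne_zero_iff.mpr hc)
  have h2 : Measure.map (fun w : ℂ => c * w) volume =
      ENNReal.ofReal ((‖c‖ ^ 2)⁻¹) • (volume : Measure ℂ) := by
    have := Measure.map_linearMap_addHaar_eq_smul_addHaar (volume : Measure ℂ) hne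
    rw [hdet, abs_of_nonneg (by positivity)] at this
    exact this
  rw [h1, h2, lintegral_smul_measure, lintegral_sub_left_eq_self]
  rfl

/-- the basic constant -/
noncomputable def KP : ℝ≥0∞ := ∫⁻ u : ℂ, ENNReal.ofReal ((1 + ‖u‖) ^ 3 / P u)

lemma sq_le_P_aux (u : ℂ) : (1 + ‖u‖) ^ 6 ≤ 8 * P u := by
  unfold P
  have h : (1 + ‖u‖) ^ 2 ≤ 2 * (1 + ‖u‖ ^ 2) := by nlinarith [sq_nonneg (‖u‖ - 1)]
  calc (1 + ‖u‖) ^ 6 = ((1 + ‖u‖) ^ 2) ^ 3 := by ring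
    _ ≤ (2 * (1 + ‖u‖ ^ 2)) ^ 3 := by gcongr
    _ = _ := by ring

lemma KP_lt_top : KP < ∞ := by
  have h1 : (∫⁻ x : ℂ, ENNReal.ofReal ((1 + ‖x‖) ^ (-(3 : ℝ)))) < ∞ :=
    finite_integral_one_add_norm (by rw [Complex.finrank_real_complex]; norm_num)
  have h2 : KP ≤ ∫⁻ x : ℂ, ENNReal.ofReal 8 * ENNReal.ofReal ((1 + ‖x‖) ^ (-(3 : ℝ))) := by
    unfold KP
    refine lintegral_mono fun u => ?_
    rw [← ENNReal.ofReal_mul (by norm_num)]
    apply ENNReal.ofReal_le_ofReal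
    have hpos : 0 < 1 + ‖u‖ := by positivity
    rw [Real.rpow_neg hpos.le, div_le_iff₀ (P_pos u)]
    have e : (1 + ‖u‖) ^ (3 : ℝ) = (1 + ‖u‖) ^ 3 := by
      exact_mod_cast Real.rpow_natCast (1 + ‖u‖) 3
    rw [e]
    have h3 := sq_le_P_aux u
    have h4 : (1 + ‖u‖) ^ 3 = ((1 + ‖u‖) ^ 3)⁻¹ * (1 + ‖u‖) ^ 6 := by
      field_simp
    calc (1 + ‖u‖) ^ 3 = ((1 + ‖u‖) ^ 3)⁻¹ * (1 + ‖u‖) ^ 6 := h4
      _ ≤ ((1 + ‖u‖) ^ 3)⁻¹ * (8 * P u) := by gcongr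
      _ = _ := by ring
  refine h2.trans_lt ?_
  rw [lintegral_const_mul' _ _ ENNReal.ofReal_ne_top]
  exact ENNReal.mul_lt_top ENNReal.ofReal_lt_top h1

lemma lint_le_KP {j : ℕ} (hj : j ≤ 3) :
    ∫⁻ u : ℂ, ENNReal.ofReal ((1 + ‖u‖) ^ j / P u) ≤ KP := by
  unfold KP
  refine lintegral_mono fun u => ENNReal.ofReal_le_ofReal ?_
  have := P_pos u
  gcongr
  · linarith [norm_nonneg u]

/-- weight ratio, gain plus loss -/
noncomputable def RR (φ : ℝ) (v w : ℂ) : ℝ :=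
  P v / (P (v - aa φ * w) * P (v - (1 - aa φ) * w)) + 1 / P (v - w)

lemma RR_nonneg (φ : ℝ) (v w : ℂ) : 0 ≤ RR φ v w := by
  unfold RR
  have := P_pos v
  have := P_pos (v - aa φ * w)
  have := P_pos (v - (1 - aa φ) * w)
  have := P_pos (v - w)
  positivity

lemma measurable_ofReal_div_P (j : ℕ) :
    Measurable fun u : ℂ => ENNReal.ofReal ((1 + ‖u‖) ^ j / P u) := by
  have : Measurable P := continuous_P.measurable
  fun_prop

lemma one_add_norm_le (v u : ℂ) (x : ℝ) (hx : x ≤ ‖v - u‖) :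
    1 + x ≤ (1 + ‖v‖) * (1 + ‖u‖) := by
  have := norm_sub_le v u
  nlinarith [norm_nonneg v, norm_nonneg u, mul_nonneg (norm_nonneg v) (norm_nonneg u)]

lemma RR_pointwise {φ : ℝ} (hφ : |φ| ≤ Real.pi / 4) (v w : ℂ) {j : ℕ} (hj : j ≤ 1) :
    (1 + ‖w‖) ^ j * RR φ v w ≤
      10000 * (1 + ‖v‖) ^ j * ((1 + ‖v - aa φ * w‖) ^ j / P (v - aa φ * w)) +
      5000 * Real.sin φ ^ 2 * (1 + ‖v‖) ^ j *
        ((1 + ‖v - (1 - aa φ) * w‖) ^ j / P (v - (1 - aa φ) * w)) +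
      5000 * ((1 + ‖w‖) ^ j / P w) +
      (1 + ‖v‖) ^ j * ((1 + ‖v - w‖) ^ j / P (v - w)) := by
  have hw := weight_ratio (φ := φ) v w
  set v1 := v - (1 - aa φ) * w with hv1
  set v2 := v - aa φ * w with hv2
  have p1 := P_pos v1
  have p2 := P_pos v2
  have p3 := P_pos w
  have p4 := P_pos (v - w)
  have hcos := cos_sq_ge hφ
  have hn2 : 1 + ‖w‖ ≤ 2 * ((1 + ‖v‖) * (1 + ‖v2‖)) := by
    have e1 : ‖v - v2‖ = |Real.cos φ| * ‖w‖ := by
      rw [hv2, sub_sub_cancel, norm_mul, norm_aa]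
    have h1 : (1 : ℝ) / 2 ≤ |Real.cos φ| := by
      rw [← sq_abs] at hcos
      nlinarith [abs_nonneg (Real.cos φ)]
    have h2 : ‖w‖ ≤ 2 * ‖v - v2‖ := by
      rw [e1]; nlinarith [norm_nonneg w]
    have h3 := norm_sub_le v v2
    nlinarith [norm_nonneg v, norm_nonneg v2, mul_nonneg (norm_nonneg v) (norm_nonneg v2)]
  have hs0 := abs_nonneg (Real.sin φ)
  have hs1 : |Real.sin φ| ≤ 1 := Real.abs_sin_le_one φ
  have hn1 : |Real.sin φ| * (1 + ‖w‖) ≤ (1 + ‖v‖) * (1 + ‖v1‖) := by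
    have e1 : ‖v - v1‖ = |Real.sin φ| * ‖w‖ := by
      rw [hv1, sub_sub_cancel, norm_mul, norm_one_sub_aa]
    have := one_add_norm_le v v1 (|Real.sin φ| * ‖w‖) e1.symm.le
    nlinarith
  have hn4 : 1 + ‖w‖ ≤ (1 + ‖v‖) * (1 + ‖v - w‖) := by
    apply one_add_norm_le
    simp
  have hwn : 0 ≤ 1 + ‖w‖ := by positivity
  -- powers
  have k2 : (1 + ‖w‖) ^ j ≤ 2 * ((1 + ‖v‖) ^ j * (1 + ‖v2‖) ^ j) := by
    rw [← mul_pow]
    rcases Nat.le_one_iff_eq_zero_or_eq_one.mp hj with rfl | rfl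
    · norm_num
    · simpa using hn2
  have k1 : Real.sin φ ^ 6 * (1 + ‖w‖) ^ j ≤ Real.sin φ ^ 2 * ((1 + ‖v‖) ^ j * (1 + ‖v1‖) ^ j) := by
    have e6 : Real.sin φ ^ 6 = |Real.sin φ| ^ 6 := by
      rw [← Even.pow_abs (by decide)]
    have e2 : Real.sin φ ^ 2 = |Real.sin φ| ^ 2 := (sq_abs _).symm
    rw [← mul_pow, e6, e2]
    generalize |Real.sin φ| = σ at *
    have hσ2 : σ ^ 6 ≤ σ ^ 2 := pow_le_pow_of_le_one hs0 hs1 (by norm_num)
    have hσ3 : σ ^ 5 ≤ σ ^ 2 := pow_le_pow_of_le_one hs0 hs1 (by norm_num)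
    rcases Nat.le_one_iff_eq_zero_or_eq_one.mp hj with rfl | rfl
    · simpa using hσ2
    · simp only [pow_one]
      calc σ ^ 6 * (1 + ‖w‖) = σ ^ 5 * (σ * (1 + ‖w‖)) := by ring
        _ ≤ σ ^ 2 * ((1 + ‖v‖) * (1 + ‖v1‖)) := by gcongr
  have k4 : (1 + ‖w‖) ^ j ≤ (1 + ‖v‖) ^ j * (1 + ‖v - w‖) ^ j := by
    rw [← mul_pow]; gcongr
  unfold RR
  rw [mul_add]
  have hpow : 0 ≤ (1 + ‖w‖) ^ j := by positivity
  have m1 : (1 + ‖w‖) ^ j * (P v / (P v2 * P v1)) ≤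
      (1 + ‖w‖) ^ j * (5000 * (1 / P v2 + Real.sin φ ^ 6 / P v1 + 1 / P w)) := by gcongr
  have m2 : (1 + ‖w‖) ^ j * (5000 * (1 / P v2 + Real.sin φ ^ 6 / P v1 + 1 / P w)) =
      5000 * ((1 + ‖w‖) ^ j / P v2) + 5000 * ((Real.sin φ ^ 6 * (1 + ‖w‖) ^ j) / P v1) +
        5000 * ((1 + ‖w‖) ^ j / P w) := by
    field_simp
  have m3 : 5000 * ((1 + ‖w‖) ^ j / P v2) ≤
      5000 * ((2 * ((1 + ‖v‖) ^ j * (1 + ‖v2‖) ^ j)) / P v2) := by gcongr
  have m4 : 5000 * ((Real.sin φ ^ 6 * (1 + ‖w‖) ^ j) / P v1) ≤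
      5000 * ((Real.sin φ ^ 2 * ((1 + ‖v‖) ^ j * (1 + ‖v1‖) ^ j)) / P v1) := by gcongr
  have m5 : (1 + ‖w‖) ^ j * (1 / P (v - w)) ≤
      ((1 + ‖v‖) ^ j * (1 + ‖v - w‖) ^ j) * (1 / P (v - w)) := by gcongr
  have q1 : 5000 * ((2 * ((1 + ‖v‖) ^ j * (1 + ‖v2‖) ^ j)) / P v2) =
    10000 * (1 + ‖v‖) ^ j * ((1 + ‖v2‖) ^ j / P v2) := by ring
  have q2 : 5000 * ((Real.sin φ ^ 2 * ((1 + ‖v‖) ^ j * (1 + ‖v1‖) ^ j)) / P v1) =
    5000 * Real.sin φ ^ 2 * (1 + ‖v‖) ^ j * ((1 + ‖v1‖) ^ j / P v1) := by ring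
  have q3 : ((1 + ‖v‖) ^ j * (1 + ‖v - w‖) ^ j) * (1 / P (v - w)) =
    (1 + ‖v‖) ^ j * ((1 + ‖v - w‖) ^ j / P (v - w)) := by ring
  linarith

lemma lint_RR {φ : ℝ} (hφ : |φ| ≤ Real.pi / 4) (v : ℂ) {j : ℕ} (hj : j ≤ 1) :
    ∫⁻ w, ENNReal.ofReal ((1 + ‖w‖) ^ j * RR φ v w) ≤
      ENNReal.ofReal (31000 * (1 + ‖v‖) ^ j) * KP := by
  have hcos := cos_sq_ge hφ
  have hA : ∀ u : ℂ, 0 ≤ (1 + ‖u‖) ^ j / P u := fun u => by
    have := P_pos u; positivity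
  have hv : 0 ≤ (1 + ‖v‖) ^ j := by positivity
  set G : ℂ → ℝ≥0∞ := fun u => ENNReal.ofReal ((1 + ‖u‖) ^ j / P u) with hG
  have hGm : Measurable G := measurable_ofReal_div_P j
  have hGK : ∫⁻ u, G u ≤ KP := lint_le_KP (by omega)
  have step1 : ∫⁻ w, ENNReal.ofReal ((1 + ‖w‖) ^ j * RR φ v w) ≤
      ∫⁻ w, (ENNReal.ofReal (10000 * (1 + ‖v‖) ^ j) * G (v - aa φ * w) +
        ENNReal.ofReal (5000 * Real.sin φ ^ 2 * (1 + ‖v‖) ^ j) * G (v - (1 - aa φ) * w) +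
        ENNReal.ofReal 5000 * G w + ENNReal.ofReal ((1 + ‖v‖) ^ j) * G (v - w)) := by
    refine lintegral_mono fun w => ?_
    refine (ENNReal.ofReal_le_ofReal (RR_pointwise hφ v w hj)).trans (le_of_eq ?_)
    have h1 := hA (v - aa φ * w)
    have h2 := hA (v - (1 - aa φ) * w)
    have h3 := hA w
    have h4 := hA (v - w)
    simp only [hG]
    rw [ENNReal.ofReal_add (by positivity) (by positivity),
      ENNReal.ofReal_add (by positivity) (by positivity),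
      ENNReal.ofReal_add (by positivity) (by positivity),
      ENNReal.ofReal_mul (by positivity), ENNReal.ofReal_mul (by positivity : (0:ℝ) ≤
        5000 * Real.sin φ ^ 2 * (1 + ‖v‖) ^ j), ENNReal.ofReal_mul (by norm_num : (0:ℝ) ≤ 5000),
      ENNReal.ofReal_mul hv]
  refine step1.trans ?_
  have hm1 : Measurable fun w => G (v - aa φ * w) := hGm.comp (by fun_prop)
  have hm2 : Measurable fun w => G (v - (1 - aa φ) * w) := hGm.comp (by fun_prop)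
  have hm4 : Measurable fun w => G (v - w) := hGm.comp (by fun_prop)
  rw [lintegral_add_left (by fun_prop), lintegral_add_left (by fun_prop),
    lintegral_add_left (by fun_prop), lintegral_const_mul _ hm1, lintegral_const_mul _ hm2,
    lintegral_const_mul _ hGm, lintegral_const_mul _ hm4, lintegral_sub_left_eq_self]
  have hane : aa φ ≠ 0 := by
    rw [← norm_ne_zero_iff, norm_aa]
    intro h
    rw [abs_eq_zero] at h
    rw [h] at hcos; norm_num at hcos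
  have i1 : ∫⁻ w, G (v - aa φ * w) ≤ ENNReal.ofReal 2 * KP := by
    rw [lint_affine hane v hGm, norm_aa, sq_abs]
    gcongr
    rw [inv_le_comm₀ (by linarith) (by norm_num)]
    linarith
  have i2 : ENNReal.ofReal (5000 * Real.sin φ ^ 2 * (1 + ‖v‖) ^ j) * ∫⁻ w, G (v - (1 - aa φ) * w)
      ≤ ENNReal.ofReal (5000 * (1 + ‖v‖) ^ j) * KP := by
    by_cases hs : Real.sin φ = 0
    · rw [hs]; simp
    · have hne : 1 - aa φ ≠ 0 := by
        rw [← norm_ne_zero_iff, norm_one_sub_aa]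
        exact abs_ne_zero.mpr hs
      rw [lint_affine hne v hGm, norm_one_sub_aa, sq_abs, ← mul_assoc,
        ← ENNReal.ofReal_mul (by positivity)]
      have e : 5000 * Real.sin φ ^ 2 * (1 + ‖v‖) ^ j * (Real.sin φ ^ 2)⁻¹ =
          5000 * (1 + ‖v‖) ^ j := by
        field_simp
      rw [e]
      gcongr
  calc ENNReal.ofReal (10000 * (1 + ‖v‖) ^ j) * (∫⁻ w, G (v - aa φ * w)) +
        ENNReal.ofReal (5000 * Real.sin φ ^ 2 * (1 + ‖v‖) ^ j) *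
          (∫⁻ w, G (v - (1 - aa φ) * w)) +
        ENNReal.ofReal 5000 * (∫⁻ u, G u) + ENNReal.ofReal ((1 + ‖v‖) ^ j) * (∫⁻ u, G u)
      ≤ ENNReal.ofReal (10000 * (1 + ‖v‖) ^ j) * (ENNReal.ofReal 2 * KP) +
        ENNReal.ofReal (5000 * (1 + ‖v‖) ^ j) * KP +
        ENNReal.ofReal 5000 * KP + ENNReal.ofReal ((1 + ‖v‖) ^ j) * KP := by
        gcongr
    _ = (ENNReal.ofReal (10000 * (1 + ‖v‖) ^ j * 2 + 5000 * (1 + ‖v‖) ^ j + 5000 +
          (1 + ‖v‖) ^ j)) * KP := by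
        rw [ENNReal.ofReal_add (by positivity) (by positivity),
          ENNReal.ofReal_add (by positivity) (by positivity),
          ENNReal.ofReal_add (by positivity) (by positivity),
          ENNReal.ofReal_mul (by positivity : (0:ℝ) ≤ 10000 * (1 + ‖v‖) ^ j)]
        ring
    _ ≤ ENNReal.ofReal (31000 * (1 + ‖v‖) ^ j) * KP := by
        gcongr
        have : (1 : ℝ) ≤ (1 + ‖v‖) ^ j := one_le_pow₀ (by linarith [norm_nonneg v])
        linarith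

end BoltzDisp
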