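import Mathlib
import Pool.Agent.MP_08d8de_an.Disp.Geometry
import Pool.Agent.MP_08d8de_an.Disp.Integrals
import Pool.Agent.MP_08d8de_an.Disp.Dispersion

/-!
Interface: complexified phase space, weights, the class `Good`, the collision operator in
characteristic variables.

Real phase space: `(y, v) ∈ ℂ × ℂ` with `y = x - t v` (both planes are written as `ℂ`).
Complexified phase space: `Ph = (ℂ × ℂ) × (ℂ × ℂ)`, the real point `(y, v)` being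
`io y v = ((y, conj y), (v, conj v))`.
-/

set_option autoImplicit false

open MeasureTheory Complex Set
open scoped ENNReal ComplexConjugate

namespace BoltzDisp

/-- complexified phase space, with the sup norm -/
abbrev Ph : Type := (ℂ × ℂ) × (ℂ × ℂ)

/-- real points of the complexified phase space -/
noncomputable def io (y v : ℂ) : Ph := ((y, conj y), (v, conj v))

/-- the shift of `(y, v) = (x - s v, v)` corresponding to `v ↦ v - u` at fixed `x`, time `s` -/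
noncomputable def Sh (s : ℝ) (u : ℂ) : Ph := (((s : ℂ) * u, (s : ℂ) * conj u), (-u, -conj u))

/-- the weight -/
noncomputable def om (κ : ℝ) (y v : ℂ) : ℝ :=
  Real.exp (-‖y‖ ^ 2 / 2) / (P v * Real.exp (κ * ‖v‖))

/-- complex neighbourhood of the set of real points -/
def tube (r : ℝ) : Set Ph := {Z | ∃ y v : ℂ, ‖Z - io y v‖ < r}

/-- the space-time domain: at time `t ∈ [-2,1]` the tube of width `3 - t` -/
def Dom : Set (ℝ × Ph) := {p | p.1 ∈ Icc (-2 : ℝ) 1 ∧ p.2 ∈ tube (3 - p.1)}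

/-- The class of functions used in the construction. -/
structure Good (κ N : ℝ) (g : ℝ → Ph → ℂ) : Prop where
  cont : ContinuousOn (fun p : ℝ × Ph => g p.1 p.2) Dom
  hol : ∀ t ∈ Icc (-2 : ℝ) 1, ∀ Z ∈ tube (3 - t), ∀ E : Ph,
    DifferentiableAt ℂ (fun ζ : ℂ => g t (Z + ζ • E)) 0
  bound : ∀ t ∈ Icc (-2 : ℝ) 1, ∀ (y v : ℂ) (Z : Ph), ‖Z - io y v‖ < 3 - t →
    ‖g t Z‖ ≤ N * om κ y v

/-- Parameters and reduced angular kernel (in the half deviation angle `φ`, `|φ| ≤ π/4`). -/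
structure Kern (s γ : ℝ) (k : ℝ → ℝ) (Ck : ℝ) : Prop where
  hs : 0 < s
  hγ : 0 ≤ γ + 2 * s
  hγs : γ + 4 * s < 1
  meas : Measurable k
  hCk : 0 ≤ Ck
  nonneg : ∀ φ, 0 ≤ k φ
  le : ∀ φ, k φ ≤ Ck * |φ| ^ (-1 - 2 * s)

/-- base measure on `(w, φ)` -/
noncomputable def mu : Measure (ℂ × ℝ) :=
  (volume : Measure ℂ).prod (volume.restrict (Icc (-(Real.pi / 4)) (Real.pi / 4)))

/-- `f(v'_*) h(v') - f(v_*) h(v)` in characteristic variables, at the phase point `Z`, `w = v - v_*`,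
`v'_* = v - a w`, `v' = v - (1 - a) w`. -/
noncomputable def Del (s : ℝ) (g h : Ph → ℂ) (Z : Ph) (p : ℂ × ℝ) : ℂ :=
  g (Z + Sh s (aa p.2 * p.1)) * h (Z + Sh s ((1 - aa p.2) * p.1)) - g (Z + Sh s p.1) * h Z

/-- the reduced collision operator in characteristic variables at time `s` -/
noncomputable def QC (γ : ℝ) (k : ℝ → ℝ) (s : ℝ) (g h : Ph → ℂ) (Z : Ph) : ℂ :=
  ∫ p : ℂ × ℝ, ((k p.2 * ‖p.1‖ ^ γ : ℝ) : ℂ) * Del s g h Z p ∂mu

/-- time integral -/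
noncomputable def BC (γ : ℝ) (k : ℝ → ℝ) (g h : ℝ → Ph → ℂ) (t : ℝ) (Z : Ph) : ℂ :=
  ∫ s in (-2 : ℝ)..t, QC γ k s (g s) (h s) Z

/-- time-independent data with the same bounds (radius `5`) -/
structure GoodData (κ N : ℝ) (g : Ph → ℂ) : Prop where
  cont : Continuous g
  hol : ∀ Z E : Ph, DifferentiableAt ℂ (fun ζ : ℂ => g (Z + ζ • E)) 0
  bound : ∀ (y v : ℂ) (Z : Ph), ‖Z - io y v‖ < 5 → ‖g Z‖ ≤ N * om κ y v

/-- The existence statement (to be proved in `Disp/Existence.lean` as a theorem of this shape). -/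
def ExistenceStatement : Prop :=
  ∀ (s γ : ℝ) (k : ℝ → ℝ) (Ck : ℝ), Kern s γ k Ck → ∃ C0 : ℝ, 0 < C0 ∧
    ∀ (κ Nb Nh : ℝ) (gb h0 : Ph → ℂ), 0 ≤ κ → κ ≤ 1 → 0 ≤ Nb → 0 ≤ Nh →
      GoodData κ Nb gb → GoodData κ Nh h0 →
      (∀ τ Z p, Del τ gb gb Z p = 0) →
      (∀ y v, (gb (io y v)).im = 0) → (∀ y v, (h0 (io y v)).im = 0) →
      C0 * (Nb + Nh) ≤ 1 →
      ∃ g : ℝ → Ph → ℂ, Good κ (Nb + 2 * Nh) g ∧
        (∀ t ∈ Icc (-2 : ℝ) 1, ∀ Z ∈ tube (3 - t), g t Z = gb Z + h0 Z + BC γ k g g t Z) ∧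
        (∀ t ∈ Icc (-2 : ℝ) 1, ∀ y v, (g t (io y v)).im = 0) ∧
        (∀ t ∈ Icc (-2 : ℝ) 1, ∀ (y v : ℂ) (Z : Ph), ‖Z - io y v‖ < 3 - t →
          ‖g t Z - (gb Z + h0 Z)‖ ≤ C0 * (Nb + Nh) * Nh * om κ y v)

/-- The positivity statement (to be proved in `Disp/Positivity.lean`). -/
def PositivityStatement : Prop :=
  ∀ (s γ : ℝ) (k : ℝ → ℝ) (Ck : ℝ), Kern s γ k Ck →
    ∀ (κ N : ℝ) (g : ℝ → Ph → ℂ) (g0 : Ph → ℂ), 0 < κ → κ ≤ 1 → 0 ≤ N → Good κ N g →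
      (∀ t ∈ Icc (-2 : ℝ) 1, ∀ Z ∈ tube (3 - t), g t Z = g0 Z + BC γ k g g t Z) →
      (∀ t ∈ Icc (-2 : ℝ) 1, ∀ y v, (g t (io y v)).im = 0) →
      (∀ y v, 0 ≤ (g0 (io y v)).re) →
      ∀ t ∈ Icc (-2 : ℝ) 1, ∀ y v, 0 ≤ (g t (io y v)).re

end BoltzDisp
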