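import Mathlib
import Pool.Agent.MP_08d8de_an.Disp.Space

/-!
Pointwise bound of the collision difference.
-/

set_option autoImplicit false

open MeasureTheory Complex Set Metric
open scoped ENNReal ComplexConjugate

namespace BoltzDisp

lemma Sh_add (s : ℝ) (u u' : ℂ) : Sh s (u + u') = Sh s u + Sh s u' := by
  unfold Sh
  ext <;> simp <;> ring

lemma io_Sh (s : ℝ) (y v u : ℂ) : io (y + s * u) (v - u) = io y v + Sh s u := by
  unfold io Sh
  ext <;> simp [sub_eq_add_neg]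

lemma norm_Sh_le {s : ℝ} (hs : |s| ≤ 2) (u : ℂ) : ‖Sh s u‖ ≤ 2 * ‖u‖ := by
  unfold Sh
  have h1 : ‖(s : ℂ) * u‖ ≤ 2 * ‖u‖ := by
    rw [norm_mul, Complex.norm_real, Real.norm_eq_abs]; gcongr
  have h2 : ‖(s : ℂ) * conj u‖ ≤ 2 * ‖u‖ := by
    rw [norm_mul, Complex.norm_real, Real.norm_eq_abs, Complex.norm_conj]; gcongr
  have h3 : ‖-u‖ ≤ 2 * ‖u‖ := by rw [norm_neg]; linarith [norm_nonneg u]
  have h4 : ‖-conj u‖ ≤ 2 * ‖u‖ := by rw [norm_neg, Complex.norm_conj]; linarith [norm_nonneg u]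
  simp only [Prod.norm_mk, sup_le_iff]
  exact ⟨⟨h1, h2⟩, h3, h4⟩

lemma om_pos (κ : ℝ) (y v : ℂ) : 0 < om κ y v := by
  unfold om
  have := P_pos v
  positivity

lemma om_le_one {κ : ℝ} (hκ : 0 ≤ κ) (y v : ℂ) : om κ y v ≤ 1 := by
  unfold om
  rw [div_le_one (mul_pos (P_pos v) (Real.exp_pos _))]
  have h1 : Real.exp (-‖y‖ ^ 2 / 2) ≤ 1 := by
    apply Real.exp_le_one_iff.mpr
    have := sq_nonneg ‖y‖
    linarith
  have h2 : 1 ≤ Real.exp (κ * ‖v‖) := Real.one_le_exp (by positivity)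
  have h3 := one_le_P v
  nlinarith

lemma sum_norm_ge (φ : ℝ) (v w : ℂ) : ‖v‖ ≤ ‖v - aa φ * w‖ + ‖v - (1 - aa φ) * w‖ := by
  have h := energy φ v w
  have h1 : ‖v‖ ^ 2 ≤ (‖v - aa φ * w‖ + ‖v - (1 - aa φ) * w‖) ^ 2 := by
    nlinarith [sq_nonneg ‖v - w‖, mul_nonneg (norm_nonneg (v - aa φ * w))
      (norm_nonneg (v - (1 - aa φ) * w))]
  exact (pow_le_pow_iff_left₀ (norm_nonneg _) (by positivity) two_ne_zero).mp h1

/-- gain and loss weights -/
lemma gain_loss {κ : ℝ} (hκ : 0 ≤ κ) (s φ : ℝ) (y v w : ℂ) :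
    om κ (y + s * (aa φ * w)) (v - aa φ * w) *
        om κ (y + s * ((1 - aa φ) * w)) (v - (1 - aa φ) * w) +
      om κ (y + s * w) (v - w) * om κ y v ≤
      om κ y v * Real.exp (-‖y + s * w‖ ^ 2 / 2) * RR φ v w := by
  have e1 : ‖y + s * (aa φ * w)‖ ^ 2 + ‖y + s * ((1 - aa φ) * w)‖ ^ 2 =
      ‖y‖ ^ 2 + ‖y + s * w‖ ^ 2 := by
    have := energy φ y (-(s * w))
    have a1 : y - aa φ * -(s * w) = y + s * (aa φ * w) := by ring
    have a2 : y - (1 - aa φ) * -(s * w) = y + s * ((1 - aa φ) * w) := by ring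
    have a3 : y - -(s * w) = y + s * w := by ring
    rw [a1, a2, a3] at this
    exact this
  have hP1 := P_pos (v - aa φ * w)
  have hP2 := P_pos (v - (1 - aa φ) * w)
  have hP3 := P_pos v
  have hP4 := P_pos (v - w)
  have hsum := sum_norm_ge φ v w
  unfold om RR
  set A := Real.exp (-‖y‖ ^ 2 / 2)
  set B := Real.exp (-‖y + s * w‖ ^ 2 / 2)
  have hA : 0 < A := Real.exp_pos _
  have hB : 0 < B := Real.exp_pos _
  have g1 : Real.exp (-‖y + s * (aa φ * w)‖ ^ 2 / 2) *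
      Real.exp (-‖y + s * ((1 - aa φ) * w)‖ ^ 2 / 2) = A * B := by
    rw [← Real.exp_add, ← Real.exp_add]
    congr 1
    linarith
  have g2 : Real.exp (κ * ‖v‖) ≤
      Real.exp (κ * ‖v - aa φ * w‖) * Real.exp (κ * ‖v - (1 - aa φ) * w‖) := by
    rw [← Real.exp_add]
    apply Real.exp_le_exp.mpr
    nlinarith
  have g3 : 1 ≤ Real.exp (κ * ‖v - w‖) := Real.one_le_exp (by positivity)
  have hE : 0 < Real.exp (κ * ‖v‖) := Real.exp_pos _
  have hE1 : 0 < Real.exp (κ * ‖v - aa φ * w‖) := Real.exp_pos _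
  have hE2 : 0 < Real.exp (κ * ‖v - (1 - aa φ) * w‖) := Real.exp_pos _
  have t1 : Real.exp (-‖y + s * (aa φ * w)‖ ^ 2 / 2) /
        (P (v - aa φ * w) * Real.exp (κ * ‖v - aa φ * w‖)) *
      (Real.exp (-‖y + s * ((1 - aa φ) * w)‖ ^ 2 / 2) /
        (P (v - (1 - aa φ) * w) * Real.exp (κ * ‖v - (1 - aa φ) * w‖))) ≤
      A / (P v * Real.exp (κ * ‖v‖)) * B *
        (P v / (P (v - aa φ * w) * P (v - (1 - aa φ) * w))) := by
    rw [div_mul_div_comm, g1]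
    have : A / (P v * Real.exp (κ * ‖v‖)) * B *
        (P v / (P (v - aa φ * w) * P (v - (1 - aa φ) * w))) =
        A * B / (P (v - aa φ * w) * P (v - (1 - aa φ) * w) * Real.exp (κ * ‖v‖)) := by
      field_simp
    rw [this]
    apply div_le_div_of_nonneg_left (by positivity) (by positivity)
    calc P (v - aa φ * w) * P (v - (1 - aa φ) * w) * Real.exp (κ * ‖v‖)
        ≤ P (v - aa φ * w) * P (v - (1 - aa φ) * w) *
          (Real.exp (κ * ‖v - aa φ * w‖) * Real.exp (κ * ‖v - (1 - aa φ) * w‖)) := by gcongr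
      _ = _ := by ring
  have t2 : B / (P (v - w) * Real.exp (κ * ‖v - w‖)) * (A / (P v * Real.exp (κ * ‖v‖))) ≤
      A / (P v * Real.exp (κ * ‖v‖)) * B * (1 / P (v - w)) := by
    have : B / (P (v - w) * Real.exp (κ * ‖v - w‖)) ≤ B * (1 / P (v - w)) := by
      rw [mul_one_div]
      apply div_le_div_of_nonneg_left hB.le hP4
      nlinarith
    calc _ ≤ B * (1 / P (v - w)) * (A / (P v * Real.exp (κ * ‖v‖))) := by gcongr
      _ = _ := by ring
  rw [mul_add]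
  exact add_le_add t1 t2

/-- time slices of `Good` -/
structure GoodS (κ N r : ℝ) (h : Ph → ℂ) : Prop where
  cont : ContinuousOn h (tube r)
  hol : ∀ Z ∈ tube r, ∀ E : Ph, DifferentiableAt ℂ (fun ζ : ℂ => h (Z + ζ • E)) 0
  bound : ∀ (y v : ℂ) (Z : Ph), ‖Z - io y v‖ < r → ‖h Z‖ ≤ N * om κ y v

lemma tube_mono {r r' : ℝ} (h : r ≤ r') : tube r ⊆ tube r' := by
  rintro Z ⟨y, v, hZ⟩
  exact ⟨y, v, hZ.trans_le h⟩

lemma isOpen_tube (r : ℝ) : IsOpen (tube r) := by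
  have : tube r = ⋃ y : ℂ, ⋃ v : ℂ, ball (io y v) r := by
    ext Z
    simp [tube, dist_eq_norm]
  rw [this]
  exact isOpen_iUnion fun y => isOpen_iUnion fun v => isOpen_ball

lemma GoodS.mono {κ N r r' : ℝ} {h : Ph → ℂ} (hh : GoodS κ N r h) (hr : r' ≤ r) :
    GoodS κ N r' h :=
  ⟨hh.cont.mono (tube_mono hr), fun Z hZ E => hh.hol Z (tube_mono hr hZ) E,
    fun y v Z hZ => hh.bound y v Z (hZ.trans_le hr)⟩

lemma Good.slice {κ N : ℝ} {g : ℝ → Ph → ℂ} (hg : Good κ N g) {t : ℝ} (ht : t ∈ Icc (-2 : ℝ) 1) :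
    GoodS κ N (3 - t) (g t) := by
  refine ⟨?_, fun Z hZ E => hg.hol t ht Z hZ E, fun y v Z hZ => hg.bound t ht y v Z hZ⟩
  have h1 : ContinuousOn (fun Z : Ph => ((t, Z) : ℝ × Ph)) (tube (3 - t)) := by fun_prop
  exact hg.cont.comp h1 (fun Z hZ => ⟨ht, hZ⟩)

lemma hol_line {r : ℝ} {h : Ph → ℂ}
    (hol : ∀ Z ∈ tube r, ∀ E : Ph, DifferentiableAt ℂ (fun ζ : ℂ => h (Z + ζ • E)) 0)
    (Z E : Ph) {ζ : ℂ} (hζ : Z + ζ • E ∈ tube r) :
    DifferentiableAt ℂ (fun ζ : ℂ => h (Z + ζ • E)) ζ := by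
  have h1 := hol _ hζ E
  have h2 : (fun η : ℂ => h (Z + η • E)) =
      (fun η : ℂ => h (Z + ζ • E + η • E)) ∘ (fun η => η - ζ) := by
    ext η
    simp only [Function.comp]
    congr 1
    rw [add_assoc, ← add_smul]
    congr 2
    ring
  rw [h2]
  apply DifferentiableAt.comp
  · simpa using h1
  · fun_prop

/-- Schwarz lemma estimate -/
lemma schwarz {κ N r ρ : ℝ} {h : Ph → ℂ} (hh : GoodS κ N r h) (hN : 0 ≤ N) {y v : ℂ} {Z S : Ph}
    (hρ : 0 < ρ) (hZ : ‖Z - io y v‖ < r - ρ) (hS : ‖S‖ < ρ) :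
    ‖h (Z + S) - h Z‖ ≤ 2 * (N * om κ y v) * (‖S‖ / ρ) := by
  rcases eq_or_ne S 0 with rfl | hS0
  · simp
  have hSn : 0 < ‖S‖ := norm_pos_iff.mpr hS0
  set R1 : ℝ := ρ / ‖S‖ with hR1
  have hR1pos : 0 < R1 := by positivity
  have hone : 1 < R1 := by rw [hR1, one_lt_div hSn]; exact hS
  set M := N * om κ y v with hM
  have hM0 : 0 ≤ M := mul_nonneg hN (om_pos κ y v).le
  have hmem : ∀ ζ ∈ ball (0 : ℂ) R1, ‖(Z + ζ • S) - io y v‖ < r := by
    intro ζ hζ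
    rw [mem_ball_zero_iff] at hζ
    have h1 : (Z + ζ • S) - io y v = (Z - io y v) + ζ • S := by abel
    rw [h1]
    have h2 : ‖ζ • S‖ ≤ ρ := by
      rw [norm_smul]
      calc ‖ζ‖ * ‖S‖ ≤ R1 * ‖S‖ := by gcongr
        _ = ρ := by rw [hR1]; field_simp
    linarith [norm_add_le (Z - io y v) (ζ • S)]
  have hd : DifferentiableOn ℂ (fun ζ : ℂ => h (Z + ζ • S)) (ball 0 R1) := by
    intro ζ hζ
    exact (hol_line hh.hol Z S ⟨y, v, hmem ζ hζ⟩).differentiableWithinAt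
  have hb : ∀ ζ ∈ ball (0 : ℂ) R1, ‖h (Z + ζ • S)‖ ≤ M := fun ζ hζ =>
    hh.bound y v _ (hmem ζ hζ)
  have h5 : ‖h (Z + S) - h Z‖ ≤ 2 * M / R1 := by
    have h3 : MapsTo (fun ζ : ℂ => h (Z + ζ • S)) (ball 0 R1)
        (closedBall ((fun ζ : ℂ => h (Z + ζ • S)) 0) (2 * M)) := by
      intro ζ hζ
      rw [mem_closedBall, dist_eq_norm]
      have h4 := hb ζ hζ
      have h5 := hb 0 (by simpa using hR1pos)
      calc _ ≤ ‖h (Z + ζ • S)‖ + ‖h (Z + (0 : ℂ) • S)‖ := norm_sub_le _ _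
        _ ≤ 2 * M := by linarith
    have h4 := Complex.dist_le_div_mul_dist_of_mapsTo_ball hd h3
      (show (1 : ℂ) ∈ ball (0 : ℂ) R1 by simpa using hone)
    simp only [one_smul, zero_smul, add_zero, dist_zero_right, norm_one, mul_one] at h4
    rw [dist_eq_norm] at h4
    exact h4
  calc ‖h (Z + S) - h Z‖ ≤ 2 * M / R1 := h5
    _ = 2 * M * (‖S‖ / ρ) := by rw [hR1]; field_simp

/-- the two displaced weights used in `Del` -/
lemma Del_bound {κ N N' r ρ s α : ℝ} {g h : Ph → ℂ} (hκ : 0 ≤ κ) (hN : 0 ≤ N) (hN' : 0 ≤ N')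
    (hg : GoodS κ N r g) (hh : GoodS κ N' r h) (hs : |s| ≤ 2) (hρ : 0 < ρ)
    (hα0 : 0 < α) (hα1 : α ≤ 1) {y v : ℂ} {Z : Ph} (hZ : ‖Z - io y v‖ < r - ρ) (w : ℂ) (φ : ℝ) :
    ‖Del s g h Z (w, φ)‖ ≤ 2 * (N * N') * (2 * (|φ| * ‖w‖) / ρ) ^ α *
      (om κ y v * Real.exp (-‖y + s * w‖ ^ 2 / 2) * RR φ v w) := by
  set G := om κ y v * Real.exp (-‖y + s * w‖ ^ 2 / 2) * RR φ v w with hG
  have hgl := gain_loss hκ s φ y v w
  rw [← hG] at hgl
  set S1 := Sh s ((1 - aa φ) * w) with hS1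
  set Sa := Sh s (aa φ * w) with hSa
  have hSw : Sh s w = Sa + S1 := by
    rw [hSa, hS1, ← Sh_add]; congr 1; ring
  set X := ‖S1‖ / ρ with hX
  have hX0 : 0 ≤ X := by positivity
  have hXle : X ≤ 2 * (|φ| * ‖w‖) / ρ := by
    rw [hX]
    apply div_le_div_of_nonneg_right _ hρ.le
    refine (norm_Sh_le hs _).trans ?_
    rw [norm_mul, norm_one_sub_aa]
    have : |Real.sin φ| ≤ |φ| := Real.abs_sin_le_abs
    gcongr
  have hXα : X ^ α ≤ (2 * (|φ| * ‖w‖) / ρ) ^ α := Real.rpow_le_rpow hX0 hXle hα0.le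
  -- bounds at the four points
  have i1 : io (y + s * (aa φ * w)) (v - aa φ * w) = io y v + Sa := io_Sh _ _ _ _
  have i2 : io (y + s * ((1 - aa φ) * w)) (v - (1 - aa φ) * w) = io y v + S1 := io_Sh _ _ _ _
  have i3 : io (y + s * w) (v - w) = io y v + (Sa + S1) := by rw [io_Sh, hSw]
  have c1 : (Z + Sa) - io (y + s * (aa φ * w)) (v - aa φ * w) = Z - io y v := by rw [i1]; abel
  have c2 : (Z + S1) - io (y + s * ((1 - aa φ) * w)) (v - (1 - aa φ) * w) = Z - io y v := by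
    rw [i2]; abel
  have c3 : (Z + (Sa + S1)) - io (y + s * w) (v - w) = Z - io y v := by rw [i3]; abel
  have hZr : ‖Z - io y v‖ < r := by linarith
  have b1 := hg.bound _ _ (Z + Sa) (by rw [c1]; exact hZr)
  have b2 := hh.bound _ _ (Z + S1) (by rw [c2]; exact hZr)
  have b3 := hg.bound _ _ (Z + (Sa + S1)) (by rw [c3]; exact hZr)
  have b4 := hh.bound y v Z hZr
  have o1 := om_pos κ (y + s * (aa φ * w)) (v - aa φ * w)
  have o2 := om_pos κ (y + s * ((1 - aa φ) * w)) (v - (1 - aa φ) * w)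
  have o3 := om_pos κ (y + s * w) (v - w)
  have o4 := om_pos κ y v
  set O1 := om κ (y + s * (aa φ * w)) (v - aa φ * w)
  set O2 := om κ (y + s * ((1 - aa φ) * w)) (v - (1 - aa φ) * w)
  set O3 := om κ (y + s * w) (v - w)
  set O4 := om κ y v
  have hG0 : 0 ≤ G := by
    rw [hG]
    have := RR_nonneg φ v w
    positivity
  have hDel : Del s g h Z (w, φ) = g (Z + Sa) * h (Z + S1) - g (Z + (Sa + S1)) * h Z := by
    unfold Del
    rw [hSw]
  rw [hDel]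
  rcases lt_or_ge ‖S1‖ ρ with hlt | hge
  · have hX1 : X ≤ 1 := by rw [hX, div_le_one hρ]; exact hlt.le
    have hXX : X ≤ X ^ α := by
      rcases eq_or_lt_of_le hX0 with h0 | h0
      · rw [← h0, Real.zero_rpow hα0.ne']
      · calc X = X ^ (1 : ℝ) := (Real.rpow_one X).symm
          _ ≤ X ^ α := Real.rpow_le_rpow_of_exponent_ge h0 hX1 hα1
    -- differences
    have d1 : ‖h (Z + S1) - h Z‖ ≤ 2 * (N' * O2) * X := by
      have h1 := schwarz hh hN' (y := y + s * ((1 - aa φ) * w)) (v := v - (1 - aa φ) * w)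
        (Z := Z + S1) (S := -S1) hρ (by rw [c2]; exact hZ) (by rw [norm_neg]; exact hlt)
      rw [norm_neg, add_neg_cancel_right, norm_sub_rev] at h1
      exact h1
    have d2 : ‖g (Z + Sa) - g (Z + (Sa + S1))‖ ≤ 2 * (N * O3) * X := by
      have h1 := schwarz hg hN (y := y + s * w) (v := v - w)
        (Z := Z + (Sa + S1)) (S := -S1) hρ (by rw [c3]; exact hZ) (by rw [norm_neg]; exact hlt)
      rw [norm_neg] at h1
      have h2 : Z + (Sa + S1) + -S1 = Z + Sa := by abel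
      rw [h2] at h1
      exact h1
    have e : g (Z + Sa) * h (Z + S1) - g (Z + (Sa + S1)) * h Z =
        g (Z + Sa) * (h (Z + S1) - h Z) + (g (Z + Sa) - g (Z + (Sa + S1))) * h Z := by ring
    rw [e]
    calc ‖g (Z + Sa) * (h (Z + S1) - h Z) + (g (Z + Sa) - g (Z + (Sa + S1))) * h Z‖
        ≤ ‖g (Z + Sa)‖ * ‖h (Z + S1) - h Z‖ + ‖g (Z + Sa) - g (Z + (Sa + S1))‖ * ‖h Z‖ := by
          refine (norm_add_le _ _).trans ?_
          rw [norm_mul, norm_mul]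
      _ ≤ (N * O1) * (2 * (N' * O2) * X) + (2 * (N * O3) * X) * (N' * O4) := by gcongr
      _ = 2 * (N * N') * X * (O1 * O2 + O3 * O4) := by ring
      _ ≤ 2 * (N * N') * (2 * (|φ| * ‖w‖) / ρ) ^ α * G := by
          have : X ≤ (2 * (|φ| * ‖w‖) / ρ) ^ α := hXX.trans hXα
          gcongr
  · have hX1 : 1 ≤ X := by rw [hX, one_le_div hρ]; exact hge
    have hXX : 1 ≤ X ^ α := Real.one_le_rpow hX1 hα0.le
    calc ‖g (Z + Sa) * h (Z + S1) - g (Z + (Sa + S1)) * h Z‖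
        ≤ ‖g (Z + Sa)‖ * ‖h (Z + S1)‖ + ‖g (Z + (Sa + S1))‖ * ‖h Z‖ := by
          refine (norm_sub_le _ _).trans ?_
          rw [norm_mul, norm_mul]
      _ ≤ (N * O1) * (N' * O2) + (N * O3) * (N' * O4) := by gcongr
      _ = (N * N') * (O1 * O2 + O3 * O4) := by ring
      _ ≤ 2 * (N * N') * (2 * (|φ| * ‖w‖) / ρ) ^ α * G := by
          have h1 : 1 ≤ (2 * (|φ| * ‖w‖) / ρ) ^ α := hXX.trans hXα
          have h2 : 0 ≤ N * N' := mul_nonneg hN hN'
          calc (N * N') * (O1 * O2 + O3 * O4) ≤ (N * N') * G := by gcongr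
            _ = (N * N') * 1 * G := by ring
            _ ≤ 2 * (N * N') * (2 * (|φ| * ‖w‖) / ρ) ^ α * G := by
                have h3 : (N * N') * 1 ≤ 2 * (N * N') * (2 * (|φ| * ‖w‖) / ρ) ^ α := by nlinarith
                gcongr

end BoltzDisp
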