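import Mathlib
import Pool.Agent.MP_08d8de_an.Disp.Delta

/-!
The dispersive bilinear estimate.
-/

set_option autoImplicit false

open MeasureTheory Complex Set Metric
open scoped ENNReal ComplexConjugate

namespace BoltzDisp

/-- the Hölder exponent `α = (1 - γ)/2` -/
noncomputable def al (γ : ℝ) : ℝ := (1 - γ) / 2

section
variable {s γ : ℝ} {k : ℝ → ℝ} {Ck : ℝ}

lemma Kern.s_lt (hk : Kern s γ k Ck) : s < 1 / 2 := by
  have := hk.hγ; have := hk.hγs; linarith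

lemma Kern.γ_gt (hk : Kern s γ k Ck) : -1 < γ := by
  have := hk.hγ; have := hk.s_lt; linarith

lemma Kern.γ_lt (hk : Kern s γ k Ck) : γ < 1 := by
  have := hk.hγs; have := hk.hs; linarith

lemma Kern.al_pos (hk : Kern s γ k Ck) : 0 < al γ := by
  have := hk.γ_lt; unfold al; linarith

lemma Kern.al_lt (hk : Kern s γ k Ck) : al γ < 1 := by
  have := hk.γ_gt; unfold al; linarith

lemma Kern.al_gt (hk : Kern s γ k Ck) : -1 < al γ - 1 - 2 * s := by
  have := hk.hγs; unfold al; linarith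

end

lemma continuous_aa : Continuous aa := by unfold aa; fun_prop

lemma continuous_RR (v : ℂ) : Continuous fun p : ℂ × ℝ => RR p.2 v p.1 := by
  unfold RR
  have hP := continuous_P
  have ha := continuous_aa
  have h1 : Continuous fun p : ℂ × ℝ => P (v - aa p.2 * p.1) := hP.comp (by fun_prop)
  have h2 : Continuous fun p : ℂ × ℝ => P (v - (1 - aa p.2) * p.1) := hP.comp (by fun_prop)
  have h3 : Continuous fun p : ℂ × ℝ => P (v - p.1) := hP.comp (by fun_prop)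
  apply Continuous.add
  · apply Continuous.div continuous_const (h1.mul h2)
    intro p
    exact (mul_pos (P_pos _) (P_pos _)).ne'
  · apply Continuous.div continuous_const h3
    intro p
    exact (P_pos _).ne'

lemma continuous_RR' (φ : ℝ) (v : ℂ) : Continuous fun w : ℂ => RR φ v w := by
  unfold RR
  have hP := continuous_P
  have h1 : Continuous fun w : ℂ => P (v - aa φ * w) := hP.comp (by fun_prop)
  have h2 : Continuous fun w : ℂ => P (v - (1 - aa φ) * w) := hP.comp (by fun_prop)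
  have h3 : Continuous fun w : ℂ => P (v - w) := hP.comp (by fun_prop)
  apply Continuous.add
  · apply Continuous.div continuous_const (h1.mul h2)
    intro p
    exact (mul_pos (P_pos _) (P_pos _)).ne'
  · apply Continuous.div continuous_const h3
    intro p
    exact (P_pos _).ne'

instance : SigmaFinite mu := by unfold mu; infer_instance

lemma mu_ae : ∀ᵐ p : ℂ × ℝ ∂mu, p.1 ≠ 0 ∧ p.2 ≠ 0 ∧ |p.2| ≤ Real.pi / 4 := by
  have h1 : ∀ᵐ w : ℂ ∂(volume : Measure ℂ), w ≠ 0 := by simp [ae_iff]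
  have h2 : ∀ᵐ φ : ℝ ∂(volume.restrict (Icc (-(Real.pi / 4)) (Real.pi / 4))),
      φ ≠ 0 ∧ |φ| ≤ Real.pi / 4 := by
    have h3 : ∀ᵐ φ : ℝ ∂(volume.restrict (Icc (-(Real.pi / 4)) (Real.pi / 4))), φ ≠ 0 := by
      apply ae_restrict_of_ae
      simp [ae_iff]
    filter_upwards [h3, ae_restrict_mem measurableSet_Icc] with φ a b
    exact ⟨a, abs_le.mpr ⟨b.1, b.2⟩⟩
  have h4 := (Measure.quasiMeasurePreserving_fst (μ := (volume : Measure ℂ))
    (ν := volume.restrict (Icc (-(Real.pi / 4)) (Real.pi / 4)))).ae h1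
  have h5 := (Measure.quasiMeasurePreserving_snd (μ := (volume : Measure ℂ))
    (ν := volume.restrict (Icc (-(Real.pi / 4)) (Real.pi / 4)))).ae h2
  unfold mu
  filter_upwards [h4, h5] with p a b
  exact ⟨a, b.1, b.2⟩

/-- the angular constant -/
noncomputable def Cang (p : ℝ) : ℝ≥0∞ :=
  ∫⁻ φ in Icc (-(Real.pi / 4)) (Real.pi / 4), ENNReal.ofReal (|φ| ^ p)

/-- integral of the weight ratio against the angular singularity -/
lemma lint_mu_RR (q : ℝ) (v : ℂ) {j : ℕ} (hj : j ≤ 1) :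
    ∫⁻ p, ENNReal.ofReal (|p.2| ^ q * ((1 + ‖p.1‖) ^ j * RR p.2 v p.1)) ∂mu ≤
      Cang q * (ENNReal.ofReal (31000 * (1 + ‖v‖) ^ j) * KP) := by
  have hm : Measurable fun p : ℂ × ℝ =>
      ENNReal.ofReal (|p.2| ^ q * ((1 + ‖p.1‖) ^ j * RR p.2 v p.1)) := by
    have h1 := (continuous_RR v).measurable
    have h2 : Measurable fun p : ℂ × ℝ => |p.2| ^ q := by fun_prop
    have h3 : Measurable fun p : ℂ × ℝ => (1 + ‖p.1‖) ^ j := by fun_prop
    exact ENNReal.measurable_ofReal.comp (h2.mul (h3.mul h1))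
  unfold mu
  rw [lintegral_prod_symm _ hm.aemeasurable]
  unfold Cang
  rw [← lintegral_mul_const _ (by fun_prop)]
  refine setLIntegral_mono' measurableSet_Icc fun φ hφ => ?_
  have hφ' : |φ| ≤ Real.pi / 4 := abs_le.mpr ⟨hφ.1, hφ.2⟩
  have h1 : ∀ w : ℂ, ENNReal.ofReal (|φ| ^ q * ((1 + ‖w‖) ^ j * RR φ v w)) =
      ENNReal.ofReal (|φ| ^ q) * ENNReal.ofReal ((1 + ‖w‖) ^ j * RR φ v w) := fun w =>
    ENNReal.ofReal_mul (by positivity)
  simp only [h1]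
  rw [lintegral_const_mul]
  · exact mul_le_mul' le_rfl (lint_RR hφ' v hj)
  · have h2 : Continuous fun w : ℂ => RR φ v w := continuous_RR' φ v
    have h3 : Continuous fun w : ℂ => (1 + ‖w‖) ^ j * RR φ v w := by
      exact (by fun_prop : Continuous fun w : ℂ => (1 + ‖w‖) ^ j).mul h2
    exact ENNReal.measurable_ofReal.comp h3.measurable

lemma enorm_le_ofReal {x : ℂ} {b : ℝ} (h : ‖x‖ ≤ b) : ‖x‖ₑ ≤ ENNReal.ofReal b := by
  rw [← ofReal_norm]
  exact ENNReal.ofReal_le_ofReal h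

/-- pointwise bound of the integrand in factorised form -/
lemma integrand_bound {s γ : ℝ} {k : ℝ → ℝ} {Ck : ℝ} (hk : Kern s γ k Ck) {κ N N' r ρ τ : ℝ}
    {g h : Ph → ℂ} (hκ : 0 ≤ κ) (hN : 0 ≤ N) (hN' : 0 ≤ N')
    (hg : GoodS κ N r g) (hh : GoodS κ N' r h) (hτ : |τ| ≤ 2) (hρ : 0 < ρ)
    {y v : ℂ} {Z : Ph} (hZ : ‖Z - io y v‖ < r - ρ) {p : ℂ × ℝ} (hp1 : p.1 ≠ 0) (hp2 : p.2 ≠ 0) :
    ‖((k p.2 * ‖p.1‖ ^ γ : ℝ) : ℂ) * Del τ g h Z p‖ ≤
      (4 * Ck * (N * N') * om κ y v) *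
        (|p.2| ^ (al γ - 1 - 2 * s) * (‖p.1‖ ^ (γ + al γ) * RR p.2 v p.1)) *
        (ρ ^ (-al γ) * Real.exp (-‖y + τ * p.1‖ ^ 2 / 2)) := by
  obtain ⟨w, φ⟩ := p
  simp only at hp1 hp2 ⊢
  have hw : 0 < ‖w‖ := norm_pos_iff.mpr hp1
  have hφ : 0 < |φ| := abs_pos.mpr hp2
  have hD := Del_bound (α := al γ) hκ hN hN' hg hh hτ hρ hk.al_pos hk.al_lt.le hZ w φ
  have hk0 := hk.nonneg φ
  have hk1 := hk.le φ
  have hRR := RR_nonneg φ v w
  have hom := (om_pos κ y v).le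
  have hCk := hk.hCk
  rw [norm_mul, Complex.norm_real, Real.norm_eq_abs, abs_of_nonneg (by positivity)]
  have e1 : (2 * (|φ| * ‖w‖) / ρ) ^ al γ = 2 ^ al γ * (|φ| ^ al γ * ‖w‖ ^ al γ) * ρ ^ (-al γ) := by
    rw [Real.div_rpow (by positivity) hρ.le, Real.mul_rpow (by norm_num) (by positivity),
      Real.mul_rpow hφ.le hw.le, Real.rpow_neg hρ.le, div_eq_mul_inv]
  have e2 : (2 : ℝ) ^ al γ ≤ 2 := by
    calc (2 : ℝ) ^ al γ ≤ 2 ^ (1 : ℝ) := Real.rpow_le_rpow_of_exponent_le (by norm_num) hk.al_lt.le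
      _ = 2 := Real.rpow_one 2
  have e3 : |φ| ^ (-1 - 2 * s) * |φ| ^ al γ = |φ| ^ (al γ - 1 - 2 * s) := by
    rw [← Real.rpow_add hφ]; congr 1; ring
  have e4 : ‖w‖ ^ γ * ‖w‖ ^ al γ = ‖w‖ ^ (γ + al γ) := by
    rw [← Real.rpow_add hw]
  set G := om κ y v * Real.exp (-‖y + τ * w‖ ^ 2 / 2) * RR φ v w with hG
  have hG0 : 0 ≤ G := by positivity
  calc k φ * ‖w‖ ^ γ * ‖Del τ g h Z (w, φ)‖
      ≤ (Ck * |φ| ^ (-1 - 2 * s)) * ‖w‖ ^ γ *
        (2 * (N * N') * (2 ^ al γ * (|φ| ^ al γ * ‖w‖ ^ al γ) * ρ ^ (-al γ)) * G) := by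
        rw [← e1]; gcongr
    _ ≤ (Ck * |φ| ^ (-1 - 2 * s)) * ‖w‖ ^ γ *
        (2 * (N * N') * (2 * (|φ| ^ al γ * ‖w‖ ^ al γ) * ρ ^ (-al γ)) * G) := by
        have : 0 ≤ |φ| ^ al γ * ‖w‖ ^ al γ := by positivity
        have : 0 ≤ ρ ^ (-al γ) := by positivity
        gcongr
    _ = 4 * Ck * (N * N') * (|φ| ^ (-1 - 2 * s) * |φ| ^ al γ) * (‖w‖ ^ γ * ‖w‖ ^ al γ) *
        ρ ^ (-al γ) * G := by ring
    _ = _ := by rw [e3, e4, hG]; ring

/-- constant of the bilinear estimate -/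
noncomputable def CB (s γ Ck : ℝ) : ℝ :=
  4 * Ck * (1 / (1 - al γ) + 3) * (Cang (al γ - 1 - 2 * s)).toReal * 31000 * KP.toReal

lemma CB_nonneg {s γ : ℝ} {k : ℝ → ℝ} {Ck : ℝ} (hk : Kern s γ k Ck) : 0 ≤ CB s γ Ck := by
  unfold CB
  have h1 := hk.hCk
  have h2 : 0 < 1 - al γ := by have := hk.al_lt; linarith
  positivity

/-- **The dispersive bilinear estimate.** -/
theorem bilinear {s γ : ℝ} {k : ℝ → ℝ} {Ck : ℝ} (hk : Kern s γ k Ck) {κ N N' : ℝ}
    {g h : ℝ → Ph → ℂ} (hκ : 0 ≤ κ) (hN : 0 ≤ N) (hN' : 0 ≤ N')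
    (hg : Good κ N g) (hh : Good κ N' h) {t : ℝ} (ht : t ∈ Icc (-2 : ℝ) 1)
    {y v : ℂ} {Z : Ph} (hZ : ‖Z - io y v‖ < 3 - t) :
    ∫⁻ τ in Ioo (-2) t, ∫⁻ p, ‖((k p.2 * ‖p.1‖ ^ γ : ℝ) : ℂ) * Del τ (g τ) (h τ) Z p‖ₑ ∂mu ≤
      ENNReal.ofReal (CB s γ Ck * (N * N') * om κ y v) := by
  set α := al γ with hα
  have hCk := hk.hCk
  have hom := (om_pos κ y v).le
  have hα1 : 0 < 1 - α := by have := hk.al_lt; linarith
  set A : ℝ := 4 * Ck * (N * N') * om κ y v with hA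
  have hA0 : 0 ≤ A := by positivity
  set F : ℂ × ℝ → ℝ := fun p => |p.2| ^ (α - 1 - 2 * s) * (‖p.1‖ ^ (γ + α) * RR p.2 v p.1) with hF
  set E : ℝ → ℂ × ℝ → ℝ := fun τ p => (t - τ) ^ (-α) * Real.exp (-‖y + τ * p.1‖ ^ 2 / 2) with hE
  have hF0 : ∀ p, 0 ≤ F p := fun p => by
    have := RR_nonneg p.2 v p.1
    simp only [hF]; positivity
  have hFm : Measurable F := by
    have h1 := (continuous_RR v).measurable
    have h2 : Measurable fun p : ℂ × ℝ => |p.2| ^ (α - 1 - 2 * s) := by fun_prop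
    have h3 : Measurable fun p : ℂ × ℝ => ‖p.1‖ ^ (γ + α) := by fun_prop
    exact h2.mul (h3.mul h1)
  have hEm : Measurable (Function.uncurry E) := by
    simp only [hE]
    fun_prop
  have step1 : ∫⁻ τ in Ioo (-2) t, ∫⁻ p, ‖((k p.2 * ‖p.1‖ ^ γ : ℝ) : ℂ) *
        Del τ (g τ) (h τ) Z p‖ₑ ∂mu ≤
      ∫⁻ τ in Ioo (-2) t, ∫⁻ p, ENNReal.ofReal (A * F p) * ENNReal.ofReal (E τ p) ∂mu := by
    refine setLIntegral_mono' measurableSet_Ioo fun τ hτ => ?_
    have hτI : τ ∈ Icc (-2 : ℝ) 1 := ⟨hτ.1.le, hτ.2.le.trans ht.2⟩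
    have hτ2 : |τ| ≤ 2 := abs_le.mpr ⟨hτI.1, hτI.2.trans (by norm_num)⟩
    refine lintegral_mono_ae ?_
    filter_upwards [mu_ae] with p hp
    have hρ : 0 < t - τ := sub_pos.mpr hτ.2
    have hb := integrand_bound hk hκ hN hN' (hg.slice hτI) (hh.slice hτI) hτ2 hρ
      (y := y) (v := v) (Z := Z) (by linarith) hp.1 hp.2.1
    refine (enorm_le_ofReal hb).trans (le_of_eq ?_)
    rw [← ENNReal.ofReal_mul (mul_nonneg hA0 (hF0 p))]
  refine step1.trans ?_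
  rw [lintegral_lintegral_swap]
  swap
  · have m1 : Measurable fun q : ℝ × (ℂ × ℝ) => ENNReal.ofReal (A * F q.2) :=
      ENNReal.measurable_ofReal.comp ((hFm.comp measurable_snd).const_mul A)
    have m2 : Measurable fun q : ℝ × (ℂ × ℝ) => ENNReal.ofReal (E q.1 q.2) :=
      ENNReal.measurable_ofReal.comp hEm
    exact (m1.mul m2).aemeasurable
  have step2 : ∫⁻ p, (∫⁻ τ in Ioo (-2) t, ENNReal.ofReal (A * F p) * ENNReal.ofReal (E τ p)) ∂mu ≤
      ∫⁻ p, ENNReal.ofReal (A * (1 / (1 - α) + 3)) *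
        ENNReal.ofReal (|p.2| ^ (α - 1 - 2 * s) * ((1 + ‖p.1‖) ^ 0 * RR p.2 v p.1)) ∂mu := by
    refine lintegral_mono_ae ?_
    filter_upwards [mu_ae] with p hp
    have hEm' : Measurable fun τ => ENNReal.ofReal (E τ p) := by
      simp only [hE]; fun_prop
    rw [lintegral_const_mul _ hEm']
    have hd := dispersion hk.al_pos hk.al_lt y p.1 hp.1 t (Ioo (-2) t)
      (fun x hx => hx.2) measurableSet_Ioo
    calc ENNReal.ofReal (A * F p) * ∫⁻ τ in Ioo (-2) t, ENNReal.ofReal (E τ p)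
        ≤ ENNReal.ofReal (A * F p) * ENNReal.ofReal ((1 / (1 - α) + 3) * ‖p.1‖ ^ (α - 1)) := by
          gcongr
      _ = ENNReal.ofReal (A * (1 / (1 - α) + 3)) *
        ENNReal.ofReal (|p.2| ^ (α - 1 - 2 * s) * ((1 + ‖p.1‖) ^ 0 * RR p.2 v p.1)) := by
          rw [← ENNReal.ofReal_mul (mul_nonneg hA0 (hF0 p)), ← ENNReal.ofReal_mul (by positivity)]
          congr 1
          have hw : 0 < ‖p.1‖ := norm_pos_iff.mpr hp.1
          have e : ‖p.1‖ ^ (γ + α) * ‖p.1‖ ^ (α - 1) = 1 := by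
            rw [← Real.rpow_add hw]
            have : γ + α + (α - 1) = 0 := by rw [hα]; unfold al; ring
            rw [this, Real.rpow_zero]
          simp only [hF, pow_zero, one_mul]
          linear_combination (A * (|p.2| ^ (α - 1 - 2 * s) * RR p.2 v p.1) *
            (1 / (1 - α) + 3)) * e
  refine step2.trans ?_
  rw [lintegral_const_mul]
  swap
  · have h1 := (continuous_RR v).measurable
    have h2 : Measurable fun p : ℂ × ℝ => |p.2| ^ (α - 1 - 2 * s) := by fun_prop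
    have h3 : Measurable fun p : ℂ × ℝ => (1 + ‖p.1‖) ^ 0 := by fun_prop
    exact ENNReal.measurable_ofReal.comp (h2.mul (h3.mul h1))
  have hKP : KP ≠ ∞ := KP_lt_top.ne
  have hCa : Cang (α - 1 - 2 * s) ≠ ∞ := (lint_angle hk.al_gt).ne
  calc ENNReal.ofReal (A * (1 / (1 - α) + 3)) *
        ∫⁻ p, ENNReal.ofReal (|p.2| ^ (α - 1 - 2 * s) * ((1 + ‖p.1‖) ^ 0 * RR p.2 v p.1)) ∂mu
      ≤ ENNReal.ofReal (A * (1 / (1 - α) + 3)) *
        (Cang (α - 1 - 2 * s) * (ENNReal.ofReal (31000 * (1 + ‖v‖) ^ 0) * KP)) := by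
        gcongr
        exact lint_mu_RR _ v (by norm_num)
    _ = ENNReal.ofReal (A * (1 / (1 - α) + 3)) *
        (ENNReal.ofReal (Cang (α - 1 - 2 * s)).toReal *
          (ENNReal.ofReal (31000 * (1 + ‖v‖) ^ 0) * ENNReal.ofReal KP.toReal)) := by
        rw [ENNReal.ofReal_toReal hKP, ENNReal.ofReal_toReal hCa]
    _ = ENNReal.ofReal (CB s γ Ck * (N * N') * om κ y v) := by
        rw [← ENNReal.ofReal_mul (by positivity), ← ENNReal.ofReal_mul (by positivity),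
          ← ENNReal.ofReal_mul (by positivity)]
        congr 1
        unfold CB
        rw [hA, ← hα]
        ring

end BoltzDisp
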