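import Mathlib
import Pool.Agent.MP_08d8de_an.Disp.Bilinear

/-!
Regularity of the collision operator and of its time integral.
-/

set_option autoImplicit false

open MeasureTheory Complex Set Metric Filter Topology
open scoped ENNReal ComplexConjugate

namespace BoltzDisp

/-- differentiation under the integral sign for holomorphic integrands -/
lemma diff_integral {Ω : Type*} [MeasurableSpace Ω] {μ : Measure Ω} {φ : ℂ → Ω → ℂ} {r : ℝ}
    (hr : 0 < r) (hm : ∀ ζ ∈ ball (0 : ℂ) r, AEStronglyMeasurable (φ ζ) μ)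
    (hd : ∀ᵐ p ∂μ, ∀ ζ ∈ ball (0 : ℂ) r, DifferentiableAt ℂ (fun ζ => φ ζ p) ζ)
    {bound : Ω → ℝ} (hb : ∀ᵐ p ∂μ, ∀ ζ ∈ ball (0 : ℂ) r, ‖φ ζ p‖ ≤ bound p)
    (hbi : Integrable bound μ) : DifferentiableAt ℂ (fun ζ => ∫ p, φ ζ p ∂μ) 0 := by
  have hr2 : 0 < r / 2 := by positivity
  have h0 : (0 : ℂ) ∈ ball (0 : ℂ) r := by simpa using hr
  have hint : Integrable (φ 0) μ := by
    refine hbi.mono' (hm 0 h0) ?_
    filter_upwards [hb] with p hp
    exact hp 0 h0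
  -- the sequence of increments
  set u : ℕ → ℂ := fun n => ((r / 2 / (n + 1) : ℝ) : ℂ) with hu
  have hupos : ∀ n : ℕ, 0 < r / 2 / ((n : ℝ) + 1) := fun n => by positivity
  have hun : ∀ n, u n ∈ ball (0 : ℂ) r := by
    intro n
    rw [mem_ball_zero_iff, hu]
    simp only [Complex.norm_real, Real.norm_eq_abs]
    rw [abs_of_pos (hupos n)]
    have : r / 2 / ((n : ℝ) + 1) ≤ r / 2 := div_le_self hr2.le (by linarith [n.cast_nonneg (α := ℝ)])
    linarith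
  have hu0 : Tendsto u atTop (𝓝[≠] 0) := by
    rw [tendsto_nhdsWithin_iff]
    constructor
    · have h1 : Tendsto (fun n : ℕ => r / 2 / ((n : ℝ) + 1)) atTop (𝓝 0) :=
        tendsto_const_nhds.div_atTop (tendsto_natCast_atTop_atTop.atTop_add tendsto_const_nhds)
      have h2 := (Complex.continuous_ofReal.tendsto 0).comp h1
      simpa [hu, Function.comp_def] using h2
    · refine Eventually.of_forall fun n => ?_
      simp only [hu, mem_compl_iff, mem_singleton_iff, Complex.ofReal_eq_zero]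
      exact (hupos n).ne'
  have hF'm : AEStronglyMeasurable (fun p => deriv (fun ζ => φ ζ p) 0) μ := by
    refine aestronglyMeasurable_of_tendsto_ae atTop
      (f := fun n p => (u n)⁻¹ • (φ (u n) p - φ 0 p)) ?_ ?_
    · intro n
      exact ((hm _ (hun n)).sub (hm 0 h0)).const_smul (u n)⁻¹
    · filter_upwards [hd] with p hp
      have h1 := (hp 0 h0).hasDerivAt.tendsto_slope_zero
      simp only [zero_add] at h1
      exact h1.comp hu0
  have hmain := hasDerivAt_integral_of_dominated_loc_of_deriv_le (𝕜 := ℂ) (μ := μ)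
    (F := φ) (x₀ := (0 : ℂ)) (s := ball 0 (r / 2)) (bound := fun p => bound p / (r / 2))
    (F' := fun ζ p => deriv (fun ζ => φ ζ p) ζ) (ball_mem_nhds _ hr2) ?_ hint hF'm ?_ ?_ ?_
  · exact hmain.2.differentiableAt
  · filter_upwards [ball_mem_nhds (0 : ℂ) hr] with ζ hζ
    exact hm ζ hζ
  · filter_upwards [hd, hb] with p hp1 hp2 ζ hζ
    have hsub : closedBall ζ (r / 2) ⊆ ball 0 r := by
      intro x hx
      rw [mem_closedBall] at hx
      rw [mem_ball] at hζ ⊢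
      calc dist x 0 ≤ dist x ζ + dist ζ 0 := dist_triangle _ _ _
        _ < r := by linarith
    apply Complex.norm_deriv_le_of_forall_mem_sphere_norm_le hr2
    · apply DifferentiableOn.diffContOnCl
      intro x hx
      rw [closure_ball _ hr2.ne'] at hx
      exact (hp1 x (hsub hx)).differentiableWithinAt
    · intro x hx
      exact hp2 x (hsub (sphere_subset_closedBall hx))
  · exact hbi.div_const _
  · filter_upwards [hd] with p hp ζ hζ
    exact (hp ζ (ball_subset_ball (by linarith) hζ)).hasDerivAt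

lemma tube_shift {r : ℝ} {Z : Ph} (hZ : Z ∈ tube r) (τ : ℝ) (u : ℂ) : Z + Sh τ u ∈ tube r := by
  obtain ⟨y, v, h⟩ := hZ
  refine ⟨y + τ * u, v - u, ?_⟩
  rw [io_Sh]
  have : Z + Sh τ u - (io y v + Sh τ u) = Z - io y v := by abel
  rw [this]; exact h

lemma continuous_Sh2 : Continuous fun q : ℝ × ℂ => Sh q.1 q.2 := by
  unfold Sh
  fun_prop

lemma continuous_Del {r τ : ℝ} {g h : Ph → ℂ} (hg : ContinuousOn g (tube r))
    (hh : ContinuousOn h (tube r)) {Z : Ph} (hZ : Z ∈ tube r) :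
    Continuous fun p : ℂ × ℝ => Del τ g h Z p := by
  have ha := continuous_aa
  have c0 : ∀ f : ℂ × ℝ → ℂ, Continuous f → Continuous fun p => Z + Sh τ (f p) := by
    intro f hf
    have : Continuous fun p => Sh τ (f p) := continuous_Sh2.comp (by fun_prop : Continuous
      fun p : ℂ × ℝ => (τ, f p))
    fun_prop
  unfold Del
  have c1 : Continuous fun p : ℂ × ℝ => g (Z + Sh τ (aa p.2 * p.1)) :=
    hg.comp_continuous (c0 _ (by fun_prop)) fun p => tube_shift hZ _ _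
  have c2 : Continuous fun p : ℂ × ℝ => h (Z + Sh τ ((1 - aa p.2) * p.1)) :=
    hh.comp_continuous (c0 _ (by fun_prop)) fun p => tube_shift hZ _ _
  have c3 : Continuous fun p : ℂ × ℝ => g (Z + Sh τ p.1) :=
    hg.comp_continuous (c0 _ (by fun_prop)) fun p => tube_shift hZ _ _
  exact (c1.mul c2).sub (c3.mul continuous_const)

/-- local dominating function -/
noncomputable def DD (s γ A δ : ℝ) (v : ℂ) (p : ℂ × ℝ) : ℝ :=
  (A * δ ^ (-al γ)) * (|p.2| ^ (al γ - 1 - 2 * s) * ((1 + ‖p.1‖) ^ 1 * RR p.2 v p.1))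

section
variable {s γ : ℝ} {k : ℝ → ℝ} {Ck : ℝ}

lemma measurable_DD (A δ : ℝ) (v : ℂ) : Measurable (DD s γ A δ v) := by
  unfold DD
  have h1 := (continuous_RR v).measurable
  have h2 : Measurable fun p : ℂ × ℝ => |p.2| ^ (al γ - 1 - 2 * s) := by fun_prop
  have h3 : Measurable fun p : ℂ × ℝ => (1 + ‖p.1‖) ^ 1 := by fun_prop
  exact (h2.mul (h3.mul h1)).const_mul _

lemma DD_nonneg {A δ : ℝ} (hA : 0 ≤ A) (hδ : 0 < δ) (v : ℂ) (p : ℂ × ℝ) : 0 ≤ DD s γ A δ v p := by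
  unfold DD
  have := RR_nonneg p.2 v p.1
  positivity

lemma lint_DD (hk : Kern s γ k Ck) {A δ : ℝ} (hA : 0 ≤ A) (hδ : 0 < δ) (v : ℂ) :
    ∫⁻ p, ENNReal.ofReal (DD s γ A δ v p) ∂mu ≤
      ENNReal.ofReal (A * δ ^ (-al γ) * ((Cang (al γ - 1 - 2 * s)).toReal * (31000 * KP.toReal)) *
        (1 + ‖v‖)) := by
  have hm : Measurable fun p : ℂ × ℝ =>
      ENNReal.ofReal (|p.2| ^ (al γ - 1 - 2 * s) * ((1 + ‖p.1‖) ^ 1 * RR p.2 v p.1)) := by
    have h1 := (continuous_RR v).measurable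
    have h2 : Measurable fun p : ℂ × ℝ => |p.2| ^ (al γ - 1 - 2 * s) := by fun_prop
    have h3 : Measurable fun p : ℂ × ℝ => (1 + ‖p.1‖) ^ 1 := by fun_prop
    exact ENNReal.measurable_ofReal.comp (h2.mul (h3.mul h1))
  have hA' : 0 ≤ A * δ ^ (-al γ) := by positivity
  unfold DD
  simp only [ENNReal.ofReal_mul hA']
  rw [lintegral_const_mul _ hm]
  have hKP : KP ≠ ∞ := KP_lt_top.ne
  have hCa : Cang (al γ - 1 - 2 * s) ≠ ∞ := (lint_angle hk.al_gt).ne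
  refine (mul_le_mul' le_rfl (lint_mu_RR _ v le_rfl)).trans (le_of_eq ?_)
  rw [← ENNReal.ofReal_toReal hCa]
  conv_lhs => rw [← ENNReal.ofReal_toReal hKP]
  rw [← ENNReal.ofReal_mul (by positivity), ← ENNReal.ofReal_mul (by positivity),
    ← ENNReal.ofReal_mul (by positivity), ENNReal.toReal_ofReal (by positivity)]
  congr 1
  ring

lemma integrable_DD (hk : Kern s γ k Ck) {A δ : ℝ} (hA : 0 ≤ A) (hδ : 0 < δ) (v : ℂ) :
    Integrable (DD s γ A δ v) mu := by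
  refine ⟨(measurable_DD A δ v).aestronglyMeasurable, ?_⟩
  rw [hasFiniteIntegral_iff_ofReal (ae_of_all _ (DD_nonneg hA hδ v))]
  exact (lint_DD hk hA hδ v).trans_lt ENNReal.ofReal_lt_top

/-- integrand of `QC` -/
noncomputable def QI (γ : ℝ) (k : ℝ → ℝ) (τ : ℝ) (g h : Ph → ℂ) (Z : Ph) (p : ℂ × ℝ) : ℂ :=
  ((k p.2 * ‖p.1‖ ^ γ : ℝ) : ℂ) * Del τ g h Z p

lemma QC_eq (τ : ℝ) (g h : Ph → ℂ) (Z : Ph) : QC γ k τ g h Z = ∫ p, QI γ k τ g h Z p ∂mu := rfl

lemma measurable_QI (hk : Kern s γ k Ck) {r τ : ℝ} {g h : Ph → ℂ} (hg : ContinuousOn g (tube r))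
    (hh : ContinuousOn h (tube r)) {Z : Ph} (hZ : Z ∈ tube r) :
    Measurable (QI γ k τ g h Z) := by
  unfold QI
  have h1 := (continuous_Del (τ := τ) hg hh hZ).measurable
  have h2 := hk.meas
  have h3 : Measurable fun p : ℂ × ℝ => ((k p.2 * ‖p.1‖ ^ γ : ℝ) : ℂ) := by
    apply Complex.measurable_ofReal.comp
    exact (h2.comp measurable_snd).mul (by fun_prop)
  exact h3.mul h1

lemma QI_le (hk : Kern s γ k Ck) {κ N N' r δ τ : ℝ} {g h : Ph → ℂ} (hκ : 0 ≤ κ)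
    (hN : 0 ≤ N) (hN' : 0 ≤ N') (hg : GoodS κ N r g) (hh : GoodS κ N' r h) (hτ : |τ| ≤ 2)
    (hδ : 0 < δ) {y v : ℂ} {Z : Ph} (hZ : ‖Z - io y v‖ < r - δ) {p : ℂ × ℝ}
    (hp : p.1 ≠ 0 ∧ p.2 ≠ 0 ∧ |p.2| ≤ Real.pi / 4) :
    ‖QI γ k τ g h Z p‖ ≤ DD s γ (4 * Ck * (N * N') * om κ y v) δ v p := by
  have hb := integrand_bound hk hκ hN hN' hg hh hτ hδ hZ hp.1 hp.2.1
  refine hb.trans ?_
  unfold DD
  have hw : 0 < ‖p.1‖ := norm_pos_iff.mpr hp.1
  have hRR := RR_nonneg p.2 v p.1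
  have hom := (om_pos κ y v).le
  have hCk := hk.hCk
  have e1 : Real.exp (-‖y + τ * p.1‖ ^ 2 / 2) ≤ 1 := by
    apply Real.exp_le_one_iff.mpr
    have := sq_nonneg ‖y + τ * p.1‖
    linarith
  have e2 : ‖p.1‖ ^ (γ + al γ) ≤ (1 + ‖p.1‖) ^ 1 := by
    have h1 : 0 ≤ γ + al γ := by have := hk.γ_gt; unfold al; linarith
    have h2 : γ + al γ ≤ 1 := by have := hk.γ_lt; unfold al; linarith
    calc ‖p.1‖ ^ (γ + al γ) ≤ (1 + ‖p.1‖) ^ (γ + al γ) :=
          Real.rpow_le_rpow hw.le (by linarith) h1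
      _ ≤ (1 + ‖p.1‖) ^ (1 : ℝ) := Real.rpow_le_rpow_of_exponent_le (by linarith) h2
      _ = (1 + ‖p.1‖) ^ 1 := by rw [Real.rpow_one, pow_one]
  have hρ : 0 ≤ δ ^ (-al γ) := by positivity
  calc 4 * Ck * (N * N') * om κ y v *
        (|p.2| ^ (al γ - 1 - 2 * s) * (‖p.1‖ ^ (γ + al γ) * RR p.2 v p.1)) *
        (δ ^ (-al γ) * Real.exp (-‖y + τ * p.1‖ ^ 2 / 2))
      ≤ 4 * Ck * (N * N') * om κ y v *
        (|p.2| ^ (al γ - 1 - 2 * s) * ((1 + ‖p.1‖) ^ 1 * RR p.2 v p.1)) *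
        (δ ^ (-al γ) * 1) := by gcongr
    _ = _ := by ring

lemma integrable_QI (hk : Kern s γ k Ck) {κ N N' r τ : ℝ} {g h : Ph → ℂ} (hκ : 0 ≤ κ)
    (hN : 0 ≤ N) (hN' : 0 ≤ N') (hg : GoodS κ N r g) (hh : GoodS κ N' r h) (hτ : |τ| ≤ 2)
    {Z : Ph} (hZ : Z ∈ tube r) : Integrable (QI γ k τ g h Z) mu := by
  obtain ⟨y, v, hyv⟩ := id hZ
  set δ := (r - ‖Z - io y v‖) / 2 with hδ
  have hδ0 : 0 < δ := by linarith
  have hA : 0 ≤ 4 * Ck * (N * N') * om κ y v := by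
    have := hk.hCk; have := (om_pos κ y v).le; positivity
  refine (integrable_DD hk hA hδ0 v).mono'
    (measurable_QI hk hg.cont hh.cont hZ).aestronglyMeasurable ?_
  filter_upwards [mu_ae] with p hp
  exact QI_le hk hκ hN hN' hg hh hτ hδ0 (by linarith) hp

/-- the local constant -/
noncomputable def QB (s γ Ck δ : ℝ) : ℝ :=
  4 * Ck * δ ^ (-al γ) * ((Cang (al γ - 1 - 2 * s)).toReal * (31000 * KP.toReal))

lemma QC_le (hk : Kern s γ k Ck) {κ N N' r δ τ : ℝ} {g h : Ph → ℂ} (hκ : 0 ≤ κ)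
    (hN : 0 ≤ N) (hN' : 0 ≤ N') (hg : GoodS κ N r g) (hh : GoodS κ N' r h) (hτ : |τ| ≤ 2)
    (hδ : 0 < δ) {y v : ℂ} {Z : Ph} (hZ : ‖Z - io y v‖ < r - δ) :
    ‖QC γ k τ g h Z‖ ≤ QB s γ Ck δ * (N * N') * om κ y v * (1 + ‖v‖) := by
  have hom := (om_pos κ y v).le
  have hCk := hk.hCk
  have hA : 0 ≤ 4 * Ck * (N * N') * om κ y v := by positivity
  have h1 : ∫⁻ p, ‖QI γ k τ g h Z p‖ₑ ∂mu ≤
      ENNReal.ofReal (QB s γ Ck δ * (N * N') * om κ y v * (1 + ‖v‖)) := by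
    refine (lintegral_mono_ae (g := fun p => ENNReal.ofReal
      (DD s γ (4 * Ck * (N * N') * om κ y v) δ v p)) ?_).trans ?_
    · filter_upwards [mu_ae] with p hp
      exact enorm_le_ofReal (QI_le hk hκ hN hN' hg hh hτ hδ hZ hp)
    · refine (lint_DD hk hA hδ v).trans (le_of_eq ?_)
      congr 1
      unfold QB
      ring
  rw [QC_eq]
  have h2 := (enorm_integral_le_lintegral_enorm (μ := mu) (QI γ k τ g h Z)).trans h1
  rw [← ofReal_norm] at h2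
  have h3 : 0 ≤ QB s γ Ck δ * (N * N') * om κ y v * (1 + ‖v‖) := by
    unfold QB; positivity
  exact (ENNReal.ofReal_le_ofReal_iff h3).mp h2

lemma continuousOn_Del {κ N N' : ℝ} {g h : ℝ → Ph → ℂ} (hg : Good κ N g) (hh : Good κ N' h)
    (p : ℂ × ℝ) : ContinuousOn (fun q : ℝ × Ph => Del q.1 (g q.1) (h q.1) q.2 p) Dom := by
  have c0 : ∀ u : ℂ, ContinuousOn (fun q : ℝ × Ph => ((q.1, q.2 + Sh q.1 u) : ℝ × Ph)) Dom := by
    intro u
    have : Continuous fun q : ℝ × Ph => Sh q.1 u :=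
      continuous_Sh2.comp (by fun_prop : Continuous fun q : ℝ × Ph => (q.1, u))
    fun_prop
  have m0 : ∀ u : ℂ, MapsTo (fun q : ℝ × Ph => ((q.1, q.2 + Sh q.1 u) : ℝ × Ph)) Dom Dom := by
    intro u q hq
    exact ⟨hq.1, tube_shift hq.2 _ _⟩
  unfold Del
  have c1 := hg.cont.comp (c0 (aa p.2 * p.1)) (m0 _)
  have c2 := hh.cont.comp (c0 ((1 - aa p.2) * p.1)) (m0 _)
  have c3 := hg.cont.comp (c0 p.1) (m0 _)
  exact (c1.mul c2).sub (c3.mul hh.cont)

theorem continuousOn_QC (hk : Kern s γ k Ck) {κ N N' : ℝ} {g h : ℝ → Ph → ℂ} (hκ : 0 ≤ κ)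
    (hN : 0 ≤ N) (hN' : 0 ≤ N') (hg : Good κ N g) (hh : Good κ N' h) :
    ContinuousOn (fun q : ℝ × Ph => QC γ k q.1 (g q.1) (h q.1) q.2) Dom := by
  intro q0 hq0
  obtain ⟨hI0, y, v, hyv⟩ := id hq0
  set δ := (3 - q0.1 - ‖q0.2 - io y v‖) / 2 with hδ
  have hδ0 : 0 < δ := by linarith
  set U : Set (ℝ × Ph) := {q | ‖q.2 - io y v‖ < 3 - q.1 - δ} with hU
  have hUo : IsOpen U := by
    apply isOpen_lt <;> fun_prop
  have hq0U : q0 ∈ U := by simp only [hU, mem_ofPred_eq]; linarith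
  have hA : 0 ≤ 4 * Ck * (N * N') * om κ y v := by
    have := hk.hCk; have := (om_pos κ y v).le; positivity
  have hτ2 : ∀ q ∈ Dom, |q.1| ≤ 2 := fun q hq => abs_le.mpr ⟨hq.1.1, hq.1.2.trans (by norm_num)⟩
  have hcont : ContinuousOn (fun q : ℝ × Ph => QC γ k q.1 (g q.1) (h q.1) q.2) (Dom ∩ U) := by
    refine continuousOn_of_dominated (μ := mu)
      (F := fun (q : ℝ × Ph) p => QI γ k q.1 (g q.1) (h q.1) q.2 p)
      (bound := DD s γ (4 * Ck * (N * N') * om κ y v) δ v) ?_ ?_ (integrable_DD hk hA hδ0 v) ?_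
    · intro q hq
      exact (measurable_QI hk (hg.slice hq.1.1).cont (hh.slice hq.1.1).cont
        hq.1.2).aestronglyMeasurable
    · intro q hq
      filter_upwards [mu_ae] with p hp
      exact QI_le hk hκ hN hN' (hg.slice hq.1.1) (hh.slice hq.1.1) (hτ2 q hq.1) hδ0 hq.2 hp
    · refine ae_of_all _ fun p => ?_
      unfold QI
      exact continuousOn_const.mul ((continuousOn_Del hg hh p).mono inter_subset_left)
  have h1 := hcont q0 ⟨hq0, hq0U⟩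
  exact h1.mono_of_mem_nhdsWithin (inter_mem_nhdsWithin _ (hUo.mem_nhds hq0U))

lemma hol_Del {r τ : ℝ} {g h : Ph → ℂ}
    (hg : ∀ Z ∈ tube r, ∀ E : Ph, DifferentiableAt ℂ (fun ζ : ℂ => g (Z + ζ • E)) 0)
    (hh : ∀ Z ∈ tube r, ∀ E : Ph, DifferentiableAt ℂ (fun ζ : ℂ => h (Z + ζ • E)) 0)
    (Z E : Ph) (p : ℂ × ℝ) {ζ : ℂ} (hζ : Z + ζ • E ∈ tube r) :
    DifferentiableAt ℂ (fun ζ : ℂ => Del τ g h (Z + ζ • E) p) ζ := by
  have key : ∀ f : Ph → ℂ,
      (∀ Z ∈ tube r, ∀ E : Ph, DifferentiableAt ℂ (fun ζ : ℂ => f (Z + ζ • E)) 0) →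
      ∀ u : ℂ, DifferentiableAt ℂ (fun ζ : ℂ => f (Z + ζ • E + Sh τ u)) ζ := by
    intro f hf u
    have e : (fun ζ : ℂ => f (Z + ζ • E + Sh τ u)) = fun ζ : ℂ => f (Z + Sh τ u + ζ • E) := by
      ext η; congr 1; abel
    rw [e]
    apply hol_line hf
    have : Z + Sh τ u + ζ • E = Z + ζ • E + Sh τ u := by abel
    rw [this]
    exact tube_shift hζ _ _
  unfold Del
  exact ((key g hg _).mul (key h hh _)).sub ((key g hg _).mul (hol_line hh Z E hζ))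

theorem hol_QC (hk : Kern s γ k Ck) {κ N N' r τ : ℝ} {g h : Ph → ℂ} (hκ : 0 ≤ κ)
    (hN : 0 ≤ N) (hN' : 0 ≤ N') (hg : GoodS κ N r g) (hh : GoodS κ N' r h) (hτ : |τ| ≤ 2)
    {Z : Ph} (hZ : Z ∈ tube r) (E : Ph) :
    DifferentiableAt ℂ (fun ζ : ℂ => QC γ k τ g h (Z + ζ • E)) 0 := by
  obtain ⟨y, v, hyv⟩ := id hZ
  set δ := (r - ‖Z - io y v‖) / 2 with hδ
  have hδ0 : 0 < δ := by linarith
  set r' := δ / (1 + ‖E‖) with hr'
  have hr'0 : 0 < r' := by positivity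
  have hA : 0 ≤ 4 * Ck * (N * N') * om κ y v := by
    have := hk.hCk; have := (om_pos κ y v).le; positivity
  have hin : ∀ ζ ∈ ball (0 : ℂ) r', ‖(Z + ζ • E) - io y v‖ < r - δ := by
    intro ζ hζ
    rw [mem_ball_zero_iff] at hζ
    have h1 : (Z + ζ • E) - io y v = (Z - io y v) + ζ • E := by abel
    have h2 : ‖ζ • E‖ < δ := by
      rw [norm_smul]
      calc ‖ζ‖ * ‖E‖ ≤ ‖ζ‖ * (1 + ‖E‖) := by gcongr; linarith
        _ < r' * (1 + ‖E‖) := by
            have : 0 < 1 + ‖E‖ := by positivity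
            gcongr
        _ = δ := by rw [hr']; field_simp
    rw [h1]
    linarith [norm_add_le (Z - io y v) (ζ • E)]
  have hin' : ∀ ζ ∈ ball (0 : ℂ) r', Z + ζ • E ∈ tube r := fun ζ hζ =>
    ⟨y, v, by linarith [hin ζ hζ]⟩
  refine diff_integral (μ := mu) (φ := fun ζ p => QI γ k τ g h (Z + ζ • E) p) hr'0 ?_ ?_
    (bound := DD s γ (4 * Ck * (N * N') * om κ y v) δ v) ?_ (integrable_DD hk hA hδ0 v)
  · intro ζ hζ
    exact (measurable_QI hk hg.cont hh.cont (hin' ζ hζ)).aestronglyMeasurable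
  · refine ae_of_all _ fun p ζ hζ => ?_
    unfold QI
    exact (hol_Del hg.hol hh.hol Z E p (hin' ζ hζ)).const_mul _
  · filter_upwards [mu_ae] with p hp ζ hζ
    exact QI_le hk hκ hN hN' hg hh hτ hδ0 (hin ζ hζ) hp

end

end BoltzDisp
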