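import Mathlib
import Pool.Agent.MP_08d8de_an.Disp.QReg

/-!
Regularity of the time integral `BC` and the algebra of `QC`, `BC`.
-/

set_option autoImplicit false

open MeasureTheory Complex Set Metric Filter Topology
open scoped ENNReal ComplexConjugate

namespace BoltzDisp

section
variable {s γ : ℝ} {k : ℝ → ℝ} {Ck : ℝ}

lemma abs_le_two {τ : ℝ} (h : τ ∈ Icc (-2 : ℝ) 1) : |τ| ≤ 2 :=
  abs_le.mpr ⟨h.1, h.2.trans (by norm_num)⟩

/-- for fixed `Z` in the tube at time `t`, the integrand is continuous on `[-2, t]` -/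
lemma QC_time_cont (hk : Kern s γ k Ck) {κ N N' : ℝ} {g h : ℝ → Ph → ℂ} (hκ : 0 ≤ κ)
    (hN : 0 ≤ N) (hN' : 0 ≤ N') (hg : Good κ N g) (hh : Good κ N' h) {t : ℝ}
    (ht : t ∈ Icc (-2 : ℝ) 1) {Z : Ph} (hZ : Z ∈ tube (3 - t)) :
    ContinuousOn (fun τ => QC γ k τ (g τ) (h τ) Z) (Icc (-2) t) := by
  have h1 := continuousOn_QC hk hκ hN hN' hg hh
  refine h1.comp (f := fun τ : ℝ => ((τ, Z) : ℝ × Ph)) (by fun_prop) ?_
  intro τ hτ
  exact ⟨⟨hτ.1, hτ.2.trans ht.2⟩, tube_mono (by linarith [hτ.2]) hZ⟩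

lemma QC_intervalIntegrable (hk : Kern s γ k Ck) {κ N N' : ℝ} {g h : ℝ → Ph → ℂ} (hκ : 0 ≤ κ)
    (hN : 0 ≤ N) (hN' : 0 ≤ N') (hg : Good κ N g) (hh : Good κ N' h) {t : ℝ}
    (ht : t ∈ Icc (-2 : ℝ) 1) {Z : Ph} (hZ : Z ∈ tube (3 - t)) :
    IntervalIntegrable (fun τ => QC γ k τ (g τ) (h τ) Z) volume (-2) t := by
  apply ContinuousOn.intervalIntegrable
  rw [uIcc_of_le ht.1]
  exact QC_time_cont hk hκ hN hN' hg hh ht hZ

lemma QB_nonneg (hk : Kern s γ k Ck) {δ : ℝ} (hδ : 0 < δ) : 0 ≤ QB s γ Ck δ := by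
  unfold QB
  have := hk.hCk
  positivity

lemma BC_hol (hk : Kern s γ k Ck) {κ N N' : ℝ} {g h : ℝ → Ph → ℂ} (hκ : 0 ≤ κ)
    (hN : 0 ≤ N) (hN' : 0 ≤ N') (hg : Good κ N g) (hh : Good κ N' h) {t : ℝ}
    (ht : t ∈ Icc (-2 : ℝ) 1) {Z : Ph} (hZ : Z ∈ tube (3 - t)) (E : Ph) :
    DifferentiableAt ℂ (fun ζ : ℂ => BC γ k g h t (Z + ζ • E)) 0 := by
  obtain ⟨y, v, hyv⟩ := id hZ
  set δ := (3 - t - ‖Z - io y v‖) / 2 with hδ
  have hδ0 : 0 < δ := by linarith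
  set r' := δ / (1 + ‖E‖) with hr'
  have hr'0 : 0 < r' := by positivity
  have hin : ∀ ζ ∈ ball (0 : ℂ) r', ‖(Z + ζ • E) - io y v‖ < 3 - t - δ := by
    intro ζ hζ
    rw [mem_ball_zero_iff] at hζ
    have h1 : (Z + ζ • E) - io y v = (Z - io y v) + ζ • E := by abel
    have h2 : ‖ζ • E‖ < δ := by
      rw [norm_smul]
      calc ‖ζ‖ * ‖E‖ ≤ ‖ζ‖ * (1 + ‖E‖) := by gcongr; linarith
        _ < r' * (1 + ‖E‖) := by
            have : 0 < 1 + ‖E‖ := by positivity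
            gcongr
        _ = δ := by rw [hr']; field_simp
    rw [h1]
    linarith [norm_add_le (Z - io y v) (ζ • E)]
  have hin' : ∀ ζ ∈ ball (0 : ℂ) r', Z + ζ • E ∈ tube (3 - t) := fun ζ hζ =>
    ⟨y, v, by linarith [hin ζ hζ]⟩
  unfold BC
  simp only [intervalIntegral.integral_of_le ht.1]
  have hI : ∀ τ ∈ Ioc (-2) t, τ ∈ Icc (-2 : ℝ) 1 := fun τ hτ => ⟨hτ.1.le, hτ.2.trans ht.2⟩
  refine diff_integral (μ := volume.restrict (Ioc (-2) t))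
    (φ := fun ζ τ => QC γ k τ (g τ) (h τ) (Z + ζ • E)) hr'0 ?_ ?_
    (bound := fun _ => QB s γ Ck δ * (N * N') * om κ y v * (1 + ‖v‖)) ?_ ?_
  · intro ζ hζ
    have := (QC_time_cont hk hκ hN hN' hg hh ht (hin' ζ hζ)).mono (Ioc_subset_Icc_self)
    exact this.aestronglyMeasurable measurableSet_Ioc
  · refine (ae_restrict_iff' measurableSet_Ioc).mpr (ae_of_all _ fun τ hτ ζ hζ => ?_)
    have hs1 := hg.slice (hI τ hτ)
    have hs2 := hh.slice (hI τ hτ)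
    refine hol_line (r := 3 - τ) (fun Z' hZ' E' => hol_QC hk hκ hN hN' hs1 hs2
      (abs_le_two (hI τ hτ)) hZ' E') Z E ?_
    exact tube_mono (by linarith [hτ.2]) (hin' ζ hζ)
  · refine (ae_restrict_iff' measurableSet_Ioc).mpr (ae_of_all _ fun τ hτ ζ hζ => ?_)
    refine QC_le hk hκ hN hN' (hg.slice (hI τ hτ)) (hh.slice (hI τ hτ)) (abs_le_two (hI τ hτ)) hδ0 ?_
    linarith [hin ζ hζ, hτ.2]
  · exact integrable_const _

lemma BC_ind {g h : ℝ → Ph → ℂ} {t : ℝ} (ht : t ∈ Icc (-2 : ℝ) 1) (Z : Ph) :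
    BC γ k g h t Z = ∫ τ in Ioc (-2 : ℝ) 1,
      (Iic t).indicator (fun τ => QC γ k τ (g τ) (h τ) Z) τ := by
  unfold BC
  rw [intervalIntegral.integral_of_le ht.1, setIntegral_indicator measurableSet_Iic]
  congr 2
  ext x
  simp only [mem_Ioc, mem_inter_iff, mem_Iic]
  constructor
  · rintro ⟨a, b⟩; exact ⟨⟨a, b.trans ht.2⟩, b⟩
  · rintro ⟨⟨a, _⟩, b⟩; exact ⟨a, b⟩

lemma BC_cont (hk : Kern s γ k Ck) {κ N N' : ℝ} {g h : ℝ → Ph → ℂ} (hκ : 0 ≤ κ)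
    (hN : 0 ≤ N) (hN' : 0 ≤ N') (hg : Good κ N g) (hh : Good κ N' h) :
    ContinuousOn (fun q : ℝ × Ph => BC γ k g h q.1 q.2) Dom := by
  have hQ := continuousOn_QC hk hκ hN hN' hg hh
  suffices H : ContinuousOn (fun q : ℝ × Ph => ∫ τ in Ioc (-2 : ℝ) 1,
      (Iic q.1).indicator (fun τ => QC γ k τ (g τ) (h τ) q.2) τ) Dom by
    refine H.congr fun q hq => ?_
    exact BC_ind hq.1 q.2
  intro q0 hq0
  obtain ⟨hI0, y, v, hyv⟩ := id hq0
  set δ := (3 - q0.1 - ‖q0.2 - io y v‖) / 2 with hδ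
  have hδ0 : 0 < δ := by linarith
  set U : Set (ℝ × Ph) := {q | ‖q.2 - io y v‖ < 3 - q.1 - δ} with hU
  have hUo : IsOpen U := by
    apply isOpen_lt <;> fun_prop
  have hq0U : q0 ∈ U := by simp only [hU, mem_ofPred_eq]; linarith
  set CC := QB s γ Ck δ * (N * N') * om κ y v * (1 + ‖v‖) with hCC
  have hCC0 : 0 ≤ CC := by
    have := QB_nonneg hk hδ0; have := (om_pos κ y v).le; positivity
  have hI : ∀ τ ∈ Ioc (-2 : ℝ) 1, τ ∈ Icc (-2 : ℝ) 1 := fun τ hτ => ⟨hτ.1.le, hτ.2⟩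
  refine continuousWithinAt_of_dominated (bound := fun _ => CC) ?_ ?_ (integrable_const _) ?_
  · filter_upwards [self_mem_nhdsWithin] with q hq
    have h1 := (QC_time_cont hk hκ hN hN' hg hh hq.1 hq.2).mono
      (Ioc_subset_Icc_self (a := -2) (b := q.1))
    have h2 := h1.aestronglyMeasurable (μ := (volume : Measure ℝ)) measurableSet_Ioc
    rw [aestronglyMeasurable_indicator_iff measurableSet_Iic, Measure.restrict_restrict
      measurableSet_Iic]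
    have : Iic q.1 ∩ Ioc (-2 : ℝ) 1 = Ioc (-2) q.1 := by
      ext x
      simp only [mem_Ioc, mem_inter_iff, mem_Iic]
      constructor
      · rintro ⟨b, a, _⟩; exact ⟨a, b⟩
      · rintro ⟨a, b⟩; exact ⟨b, a, b.trans hq.1.2⟩
    rw [this]
    exact h2
  · filter_upwards [inter_mem_nhdsWithin Dom (hUo.mem_nhds hq0U)] with q hq
    refine (ae_restrict_iff' measurableSet_Ioc).mpr (ae_of_all _ fun τ hτ => ?_)
    by_cases hle : τ ≤ q.1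
    · rw [indicator_of_mem (show τ ∈ Iic q.1 from hle)]
      refine QC_le hk hκ hN hN' (hg.slice (hI τ hτ)) (hh.slice (hI τ hτ))
        (abs_le_two (hI τ hτ)) hδ0 ?_
      have := hq.2
      simp only [hU, mem_ofPred_eq] at this
      linarith
    · rw [indicator_of_notMem (show τ ∉ Iic q.1 from hle), norm_zero]
      exact hCC0
  · have hne : ∀ᵐ τ : ℝ ∂(volume.restrict (Ioc (-2 : ℝ) 1)), τ ≠ q0.1 := by
      apply ae_restrict_of_ae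
      simp [ae_iff]
    filter_upwards [hne, ae_restrict_mem measurableSet_Ioc] with τ hτ hτI
    rcases lt_or_gt_of_ne hτ with hlt | hgt
    · -- τ < t0
      have hin : (τ, q0.2) ∈ Dom := ⟨hI τ hτI, tube_mono (by linarith) hq0.2⟩
      have h1 : ContinuousWithinAt (fun q : ℝ × Ph => QC γ k τ (g τ) (h τ) q.2)
          (Dom ∩ {q | τ < q.1}) q0 := by
        have h2 := hQ (τ, q0.2) hin
        refine h2.comp (f := fun q : ℝ × Ph => ((τ, q.2) : ℝ × Ph)) (x := q0) ?_ ?_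
        · fun_prop
        · intro q hq
          have h3 : τ < q.1 := hq.2
          exact ⟨hI τ hτI, tube_mono (by linarith) hq.1.2⟩
      have hopen : {q : ℝ × Ph | τ < q.1} ∈ 𝓝 q0 :=
        (isOpen_lt continuous_const continuous_fst).mem_nhds hlt
      have h4 : ContinuousWithinAt (fun q : ℝ × Ph => QC γ k τ (g τ) (h τ) q.2) Dom q0 :=
        h1.mono_of_mem_nhdsWithin (inter_mem_nhdsWithin _ hopen)
      refine h4.congr_of_eventuallyEq ?_ ?_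
      · filter_upwards [mem_nhdsWithin_of_mem_nhds hopen] with q hq
        have hq' : τ < q.1 := hq
        rw [indicator_of_mem (show τ ∈ Iic q.1 from hq'.le)]
      · rw [indicator_of_mem (show τ ∈ Iic q0.1 from hlt.le)]
    · -- τ > t0
      have hopen : {q : ℝ × Ph | q.1 < τ} ∈ 𝓝 q0 :=
        (isOpen_lt continuous_fst continuous_const).mem_nhds hgt
      have h4 : ContinuousWithinAt (fun _ : ℝ × Ph => (0 : ℂ)) Dom q0 :=
        continuousWithinAt_const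
      refine h4.congr_of_eventuallyEq ?_ ?_
      · filter_upwards [mem_nhdsWithin_of_mem_nhds hopen] with q hq
        have hq' : q.1 < τ := hq
        rw [indicator_of_notMem (show τ ∉ Iic q.1 from not_le.mpr hq')]
      · rw [indicator_of_notMem (show τ ∉ Iic q0.1 from not_le.mpr hgt)]

lemma BC_bound (hk : Kern s γ k Ck) {κ N N' : ℝ} {g h : ℝ → Ph → ℂ} (hκ : 0 ≤ κ)
    (hN : 0 ≤ N) (hN' : 0 ≤ N') (hg : Good κ N g) (hh : Good κ N' h) {t : ℝ}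
    (ht : t ∈ Icc (-2 : ℝ) 1) {y v : ℂ} {Z : Ph} (hZ : ‖Z - io y v‖ < 3 - t) :
    ‖BC γ k g h t Z‖ ≤ CB s γ Ck * (N * N') * om κ y v := by
  have h1 := bilinear hk hκ hN hN' hg hh ht hZ
  have h2 : ‖BC γ k g h t Z‖ₑ ≤ ∫⁻ τ in Ioo (-2) t, ∫⁻ p,
      ‖((k p.2 * ‖p.1‖ ^ γ : ℝ) : ℂ) * Del τ (g τ) (h τ) Z p‖ₑ ∂mu := by
    unfold BC
    rw [intervalIntegral.integral_of_le ht.1, integral_Ioc_eq_integral_Ioo]
    refine (enorm_integral_le_lintegral_enorm _).trans ?_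
    refine lintegral_mono fun τ => ?_
    unfold QC
    exact enorm_integral_le_lintegral_enorm _
  have h3 := h2.trans h1
  rw [← ofReal_norm] at h3
  have h4 : 0 ≤ CB s γ Ck * (N * N') * om κ y v := by
    have := CB_nonneg hk; have := (om_pos κ y v).le; positivity
  exact (ENNReal.ofReal_le_ofReal_iff h4).mp h3

/-- **`BC` maps `Good × Good` to `Good`.** -/
theorem BC_good (hk : Kern s γ k Ck) {κ N N' : ℝ} {g h : ℝ → Ph → ℂ} (hκ : 0 ≤ κ)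
    (hN : 0 ≤ N) (hN' : 0 ≤ N') (hg : Good κ N g) (hh : Good κ N' h) :
    Good κ (CB s γ Ck * (N * N')) (BC γ k g h) :=
  ⟨BC_cont hk hκ hN hN' hg hh, fun _ ht _ hZ E => BC_hol hk hκ hN hN' hg hh ht hZ E,
    fun _ ht _ _ _ hZ => BC_bound hk hκ hN hN' hg hh ht hZ⟩

/-- time derivative -/
theorem BC_deriv (hk : Kern s γ k Ck) {κ N N' : ℝ} {g h : ℝ → Ph → ℂ} (hκ : 0 ≤ κ)
    (hN : 0 ≤ N) (hN' : 0 ≤ N') (hg : Good κ N g) (hh : Good κ N' h) {t : ℝ}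
    (ht : t ∈ Ioo (-2 : ℝ) 1) {Z : Ph} (hZ : Z ∈ tube (3 - t)) :
    HasDerivAt (fun τ => BC γ k g h τ Z) (QC γ k t (g t) (h t) Z) t := by
  obtain ⟨y, v, hyv⟩ := id hZ
  -- an interval around t on which Z stays in the tube
  obtain ⟨t', ht', htt'⟩ : ∃ t', t' ∈ Icc (-2 : ℝ) 1 ∧ t < t' ∧ Z ∈ tube (3 - t') := by
    refine ⟨min 1 (t + (3 - t - ‖Z - io y v‖) / 2), ⟨?_, min_le_left _ _⟩, ?_, ⟨y, v, ?_⟩⟩
    · apply le_min (by norm_num); linarith [ht.1]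
    · apply lt_min ht.2; linarith
    · have := min_le_right 1 (t + (3 - t - ‖Z - io y v‖) / 2)
      linarith
  have hc := QC_time_cont hk hκ hN hN' hg hh ht' htt'.2
  have hnhds : Icc (-2) t' ∈ 𝓝 t := Icc_mem_nhds ht.1 htt'.1
  unfold BC
  apply intervalIntegral.integral_hasDerivAt_right
  · exact QC_intervalIntegrable hk hκ hN hN' hg hh ⟨ht.1.le, ht.2.le⟩ hZ
  · exact ⟨Icc (-2) t', hnhds, hc.aestronglyMeasurable measurableSet_Icc⟩
  · exact hc.continuousAt hnhds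

/-! ### algebra -/

lemma Del_sub_left (τ : ℝ) (g1 g2 h : Ph → ℂ) (Z : Ph) (p : ℂ × ℝ) :
    Del τ (fun Z => g1 Z - g2 Z) h Z p = Del τ g1 h Z p - Del τ g2 h Z p := by
  unfold Del; ring

lemma Del_sub_right (τ : ℝ) (g h1 h2 : Ph → ℂ) (Z : Ph) (p : ℂ × ℝ) :
    Del τ g (fun Z => h1 Z - h2 Z) Z p = Del τ g h1 Z p - Del τ g h2 Z p := by
  unfold Del; ring

lemma QC_sub_left (hk : Kern s γ k Ck) {κ N1 N2 N' r τ : ℝ} {g1 g2 h : Ph → ℂ} (hκ : 0 ≤ κ)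
    (hN1 : 0 ≤ N1) (hN2 : 0 ≤ N2) (hN' : 0 ≤ N') (hg1 : GoodS κ N1 r g1) (hg2 : GoodS κ N2 r g2)
    (hh : GoodS κ N' r h) (hτ : |τ| ≤ 2) {Z : Ph} (hZ : Z ∈ tube r) :
    QC γ k τ (fun Z => g1 Z - g2 Z) h Z = QC γ k τ g1 h Z - QC γ k τ g2 h Z := by
  have i1 := integrable_QI hk hκ hN1 hN' hg1 hh hτ hZ
  have i2 := integrable_QI hk hκ hN2 hN' hg2 hh hτ hZ
  simp only [QC_eq]
  rw [← integral_sub i1 i2]
  refine integral_congr_ae (ae_of_all _ fun p => ?_)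
  simp only [QI, Del_sub_left]
  ring

lemma QC_sub_right (hk : Kern s γ k Ck) {κ N N1 N2 r τ : ℝ} {g h1 h2 : Ph → ℂ} (hκ : 0 ≤ κ)
    (hN : 0 ≤ N) (hN1 : 0 ≤ N1) (hN2 : 0 ≤ N2) (hg : GoodS κ N r g) (hh1 : GoodS κ N1 r h1)
    (hh2 : GoodS κ N2 r h2) (hτ : |τ| ≤ 2) {Z : Ph} (hZ : Z ∈ tube r) :
    QC γ k τ g (fun Z => h1 Z - h2 Z) Z = QC γ k τ g h1 Z - QC γ k τ g h2 Z := by
  have i1 := integrable_QI hk hκ hN hN1 hg hh1 hτ hZ
  have i2 := integrable_QI hk hκ hN hN2 hg hh2 hτ hZ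
  simp only [QC_eq]
  rw [← integral_sub i1 i2]
  refine integral_congr_ae (ae_of_all _ fun p => ?_)
  simp only [QI, Del_sub_right]
  ring

lemma BC_sub_left (hk : Kern s γ k Ck) {κ N1 N2 N' : ℝ} {g1 g2 h : ℝ → Ph → ℂ} (hκ : 0 ≤ κ)
    (hN1 : 0 ≤ N1) (hN2 : 0 ≤ N2) (hN' : 0 ≤ N') (hg1 : Good κ N1 g1) (hg2 : Good κ N2 g2)
    (hh : Good κ N' h) {t : ℝ} (ht : t ∈ Icc (-2 : ℝ) 1) {Z : Ph} (hZ : Z ∈ tube (3 - t)) :
    BC γ k (fun t Z => g1 t Z - g2 t Z) h t Z = BC γ k g1 h t Z - BC γ k g2 h t Z := by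
  unfold BC
  rw [← intervalIntegral.integral_sub
    (QC_intervalIntegrable hk hκ hN1 hN' hg1 hh ht hZ)
    (QC_intervalIntegrable hk hκ hN2 hN' hg2 hh ht hZ)]
  refine intervalIntegral.integral_congr fun τ hτ => ?_
  rw [uIcc_of_le ht.1] at hτ
  have hτI : τ ∈ Icc (-2 : ℝ) 1 := ⟨hτ.1, hτ.2.trans ht.2⟩
  exact QC_sub_left hk hκ hN1 hN2 hN' (hg1.slice hτI) (hg2.slice hτI) (hh.slice hτI)
    (abs_le_two hτI) (tube_mono (by linarith [hτ.2]) hZ)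

lemma BC_sub_right (hk : Kern s γ k Ck) {κ N N1 N2 : ℝ} {g h1 h2 : ℝ → Ph → ℂ} (hκ : 0 ≤ κ)
    (hN : 0 ≤ N) (hN1 : 0 ≤ N1) (hN2 : 0 ≤ N2) (hg : Good κ N g) (hh1 : Good κ N1 h1)
    (hh2 : Good κ N2 h2) {t : ℝ} (ht : t ∈ Icc (-2 : ℝ) 1) {Z : Ph} (hZ : Z ∈ tube (3 - t)) :
    BC γ k g (fun t Z => h1 t Z - h2 t Z) t Z = BC γ k g h1 t Z - BC γ k g h2 t Z := by
  unfold BC
  rw [← intervalIntegral.integral_sub
    (QC_intervalIntegrable hk hκ hN hN1 hg hh1 ht hZ)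
    (QC_intervalIntegrable hk hκ hN hN2 hg hh2 ht hZ)]
  refine intervalIntegral.integral_congr fun τ hτ => ?_
  rw [uIcc_of_le ht.1] at hτ
  have hτI : τ ∈ Icc (-2 : ℝ) 1 := ⟨hτ.1, hτ.2.trans ht.2⟩
  exact QC_sub_right hk hκ hN hN1 hN2 (hg.slice hτI) (hh1.slice hτI) (hh2.slice hτI)
    (abs_le_two hτI) (tube_mono (by linarith [hτ.2]) hZ)

end

end BoltzDisp
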