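import Mathlib
import Pool.Agent.MP_08d8de_an.Disp.BCReg

/-!
Existence of the solution in characteristic variables by Picard iteration.
-/

set_option autoImplicit false

open MeasureTheory Complex Set Metric Filter Topology
open scoped ENNReal ComplexConjugate

namespace BoltzDisp

section algebra
variable {κ N N' : ℝ} {g h : ℝ → Ph → ℂ}

lemma Good.add (hg : Good κ N g) (hh : Good κ N' h) :
    Good κ (N + N') (fun t Z => g t Z + h t Z) := by
  refine ⟨hg.cont.add hh.cont, fun t ht Z hZ E => (hg.hol t ht Z hZ E).add (hh.hol t ht Z hZ E),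
    fun t ht y v Z hZ => ?_⟩
  rw [add_mul]
  exact (norm_add_le _ _).trans (add_le_add (hg.bound t ht y v Z hZ) (hh.bound t ht y v Z hZ))

lemma Good.sub (hg : Good κ N g) (hh : Good κ N' h) :
    Good κ (N + N') (fun t Z => g t Z - h t Z) := by
  refine ⟨hg.cont.sub hh.cont, fun t ht Z hZ E => (hg.hol t ht Z hZ E).sub (hh.hol t ht Z hZ E),
    fun t ht y v Z hZ => ?_⟩
  rw [add_mul]
  exact (norm_sub_le _ _).trans (add_le_add (hg.bound t ht y v Z hZ) (hh.bound t ht y v Z hZ))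

lemma Good.mono (hg : Good κ N g) (h : N ≤ N') : Good κ N' g :=
  ⟨hg.cont, hg.hol, fun t ht y v Z hZ => (hg.bound t ht y v Z hZ).trans
    (mul_le_mul_of_nonneg_right h (om_pos κ y v).le)⟩

lemma Good.of_bound (hg : Good κ N g)
    (hb : ∀ t ∈ Icc (-2 : ℝ) 1, ∀ (y v : ℂ) (Z : Ph), ‖Z - io y v‖ < 3 - t →
      ‖g t Z‖ ≤ N' * om κ y v) : Good κ N' g := ⟨hg.cont, hg.hol, hb⟩

lemma GoodData.good {g : Ph → ℂ} (hg : GoodData κ N g) : Good κ N (fun _ => g) := by
  refine ⟨?_, fun t _ Z _ E => hg.hol Z E, fun t ht y v Z hZ => hg.bound y v Z ?_⟩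
  · exact (hg.cont.comp continuous_snd).continuousOn
  · linarith [ht.1]

/-- limits of `Good` functions -/
lemma Good.limit {G : ℕ → ℝ → Ph → ℂ} (hG : ∀ n, Good κ N (G n)) {e : ℕ → ℝ}
    (he : Tendsto e atTop (𝓝 0))
    (hc : ∀ n, ∀ t ∈ Icc (-2 : ℝ) 1, ∀ Z ∈ tube (3 - t), ‖g t Z - G n t Z‖ ≤ e n) :
    Good κ N g := by
  have hu : TendstoUniformlyOn (fun n (p : ℝ × Ph) => G n p.1 p.2) (fun p => g p.1 p.2) atTop
      Dom := by
    rw [Metric.tendstoUniformlyOn_iff]
    intro ε hε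
    have h1 : ∀ᶠ n in atTop, e n < ε := he.eventually (gt_mem_nhds hε)
    filter_upwards [h1] with n hn p hp
    rw [dist_eq_norm]
    exact (hc n p.1 hp.1 p.2 hp.2).trans_lt hn
  refine ⟨hu.continuousOn (Frequently.of_forall fun n => (hG n).cont), ?_, ?_⟩
  · intro t ht Z hZ E
    -- an open set of ζ for which Z + ζ E is in the tube
    set U : Set ℂ := {ζ | Z + ζ • E ∈ tube (3 - t)} with hU
    have hUo : IsOpen U := (isOpen_tube (3 - t)).preimage (by fun_prop : Continuous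
      fun ζ : ℂ => Z + ζ • E)
    have h0 : (0 : ℂ) ∈ U := by simpa [hU] using hZ
    have hloc : TendstoLocallyUniformlyOn (fun n (ζ : ℂ) => G n t (Z + ζ • E))
        (fun ζ => g t (Z + ζ • E)) atTop U := by
      apply TendstoUniformlyOn.tendstoLocallyUniformlyOn
      rw [Metric.tendstoUniformlyOn_iff]
      intro ε hε
      have h1 : ∀ᶠ n in atTop, e n < ε := he.eventually (gt_mem_nhds hε)
      filter_upwards [h1] with n hn ζ hζ
      rw [dist_eq_norm]
      exact (hc n t ht _ hζ).trans_lt hn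
    have hd := hloc.differentiableOn (Eventually.of_forall fun n ζ hζ =>
      (hol_line ((hG n).hol t ht) Z E hζ).differentiableWithinAt) hUo
    exact (hd 0 h0).differentiableAt (hUo.mem_nhds h0)
  · intro t ht y v Z hZ
    have hlim : Tendsto (fun n => N * om κ y v + e n) atTop (𝓝 (N * om κ y v + 0)) :=
      tendsto_const_nhds.add he
    rw [add_zero] at hlim
    refine ge_of_tendsto' hlim fun n => ?_
    have h1 := hc n t ht Z ⟨y, v, hZ⟩
    have h2 := (hG n).bound t ht y v Z hZ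
    calc ‖g t Z‖ = ‖G n t Z + (g t Z - G n t Z)‖ := by rw [add_sub_cancel]
      _ ≤ _ := (norm_add_le _ _).trans (add_le_add h2 h1)

end algebra

section
variable {s γ : ℝ} {k : ℝ → ℝ} {Ck : ℝ}

/-- `BC(g₁,g₁) - BC(g₂,g₂)` -/
lemma BC_diff (hk : Kern s γ k Ck) {κ N1 N2 D : ℝ} {g1 g2 : ℝ → Ph → ℂ} (hκ : 0 ≤ κ)
    (hN1 : 0 ≤ N1) (hN2 : 0 ≤ N2) (hD : 0 ≤ D) (hg1 : Good κ N1 g1) (hg2 : Good κ N2 g2)
    (hd : Good κ D (fun t Z => g1 t Z - g2 t Z)) :
    Good κ (CB s γ Ck * (D * (N1 + N2))) (fun t Z => BC γ k g1 g1 t Z - BC γ k g2 g2 t Z) := by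
  have h1 := BC_good hk hκ hN1 hN1 hg1 hg1
  have h2 := BC_good hk hκ hN2 hN2 hg2 hg2
  refine (h1.sub h2).of_bound fun t ht y v Z hZ => ?_
  have e : BC γ k g1 g1 t Z - BC γ k g2 g2 t Z =
      BC γ k (fun t Z => g1 t Z - g2 t Z) g1 t Z +
        BC γ k g2 (fun t Z => g1 t Z - g2 t Z) t Z := by
    rw [BC_sub_left hk hκ hN1 hN2 hN1 hg1 hg2 hg1 ht ⟨y, v, hZ⟩,
      BC_sub_right hk hκ hN2 hN1 hN2 hg2 hg1 hg2 ht ⟨y, v, hZ⟩]
    ring
  rw [e]
  have b1 := BC_bound hk hκ hD hN1 hd hg1 ht hZ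
  have b2 := BC_bound hk hκ hN2 hD hg2 hd ht hZ
  calc _ ≤ _ := (norm_add_le _ _).trans (add_le_add b1 b2)
    _ = _ := by ring

lemma Del_im {τ : ℝ} {g h : Ph → ℂ} (hg : ∀ y v, (g (io y v)).im = 0)
    (hh : ∀ y v, (h (io y v)).im = 0) (y v : ℂ) (p : ℂ × ℝ) :
    (Del τ g h (io y v) p).im = 0 := by
  unfold Del
  simp only [← io_Sh]
  simp [Complex.sub_im, Complex.mul_im, hg, hh]

lemma QC_im {τ : ℝ} {g h : Ph → ℂ} (hg : ∀ y v, (g (io y v)).im = 0)
    (hh : ∀ y v, (h (io y v)).im = 0) (y v : ℂ) : (QC γ k τ g h (io y v)).im = 0 := by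
  rw [← Complex.conj_eq_iff_im, QC_eq, ← integral_conj]
  refine integral_congr_ae (ae_of_all _ fun p => ?_)
  simp only [QI, map_mul, Complex.conj_ofReal]
  rw [Complex.conj_eq_iff_im.mpr (Del_im hg hh y v p)]

lemma BC_im {g h : ℝ → Ph → ℂ} {t : ℝ} (ht : t ∈ Icc (-2 : ℝ) 1)
    (hg : ∀ τ ∈ Icc (-2 : ℝ) 1, ∀ y v, (g τ (io y v)).im = 0)
    (hh : ∀ τ ∈ Icc (-2 : ℝ) 1, ∀ y v, (h τ (io y v)).im = 0) (y v : ℂ) :
    (BC γ k g h t (io y v)).im = 0 := by
  rw [← Complex.conj_eq_iff_im]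
  unfold BC
  rw [intervalIntegral.integral_of_le ht.1, ← integral_conj]
  refine setIntegral_congr_fun measurableSet_Ioc fun τ hτ => ?_
  have hτ' : τ ∈ Icc (-2 : ℝ) 1 := ⟨hτ.1.le, hτ.2.trans ht.2⟩
  exact Complex.conj_eq_iff_im.mpr (QC_im (hg τ hτ') (hh τ hτ') y v)

lemma BC_zero {gb : Ph → ℂ} (h : ∀ τ Z p, Del τ gb gb Z p = 0) (t : ℝ) (Z : Ph) :
    BC γ k (fun _ => gb) (fun _ => gb) t Z = 0 := by
  unfold BC
  have : ∀ τ, QC γ k τ gb gb Z = 0 := by
    intro τ
    unfold QC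
    simp [h]
  simp [this]

/-- Picard iteration -/
noncomputable def GG (γ : ℝ) (k : ℝ → ℝ) (gb h0 : Ph → ℂ) : ℕ → ℝ → Ph → ℂ
  | 0 => fun _ Z => gb Z + h0 Z
  | n + 1 => fun t Z => gb Z + h0 Z + BC γ k (GG γ k gb h0 n) (GG γ k gb h0 n) t Z

theorem existence : ExistenceStatement := by
  intro s γ k Ck hk
  set C := CB s γ Ck with hC
  have hC0 : 0 ≤ C := CB_nonneg hk
  refine ⟨8 * C + 1, by linarith, ?_⟩
  intro κ Nb Nh gb h0 hκ _ hNb hNh hgb hh0 hDel hbr hhr hsm
  set S := Nb + Nh with hS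
  have hS0 : 0 ≤ S := by positivity
  have hsm8 : 8 * (C * S) ≤ 1 := by nlinarith
  set A := Nb + 2 * Nh with hA
  have hA0 : 0 ≤ A := by positivity
  have hAS : A ≤ 2 * S := by simp only [hA, hS]; linarith
  have gb' := hgb.good
  have h0' := hh0.good
  set G := GG γ k gb h0 with hG
  have G0 : ∀ t Z, G 0 t Z = gb Z + h0 Z := fun t Z => rfl
  have Gs : ∀ n t Z, G (n + 1) t Z = gb Z + h0 Z + BC γ k (G n) (G n) t Z := fun n t Z => rfl
  -- the quadratic term is small
  have hquad : ∀ g : ℝ → Ph → ℂ, Good κ A g → Good κ (2 * Nh) (fun t Z => g t Z - gb Z) →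
      Good κ (4 * C * S * Nh) (BC γ k g g) := by
    intro g hg hgd
    have h1 := BC_diff hk hκ hA0 hNb (by positivity : (0:ℝ) ≤ 2 * Nh) hg gb' hgd
    have h2 : (fun t Z => BC γ k g g t Z - BC γ k (fun _ => gb) (fun _ => gb) t Z) =
        BC γ k g g := by
      funext t Z
      rw [BC_zero hDel, sub_zero]
    rw [h2] at h1
    refine h1.mono ?_
    have : A + Nb = 2 * S := by simp only [hA, hS]; ring
    rw [← hC, this]
    apply le_of_eq; ring
  -- uniform bounds
  have hun : ∀ n, Good κ A (G n) ∧ Good κ (2 * Nh) (fun t Z => G n t Z - gb Z) := by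
    intro n
    have hadd : Good κ (2 * Nh) (fun t Z => G n t Z - gb Z) → Good κ A (G n) := by
      intro h
      have h1 := gb'.add h
      simp only [add_sub_cancel] at h1
      exact h1
    induction n with
    | zero =>
      have h1 : Good κ (2 * Nh) (fun t Z => G 0 t Z - gb Z) := by
        have : (fun (t : ℝ) Z => G 0 t Z - gb Z) = fun _ => h0 := by
          funext t Z; rw [G0]; ring
        rw [this]
        exact h0'.mono (by linarith)
      exact ⟨hadd h1, h1⟩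
    | succ n ih =>
      have ih' := ih (fun h => by
        have h1 := gb'.add h
        simp only [add_sub_cancel] at h1
        exact h1)
      have h1 : Good κ (2 * Nh) (fun t Z => G (n + 1) t Z - gb Z) := by
        have h2 := h0'.add (hquad _ ih'.1 ih'.2)
        have : (fun (t : ℝ) Z => G (n + 1) t Z - gb Z) =
            fun t Z => h0 Z + BC γ k (G n) (G n) t Z := by
          funext t Z; rw [Gs]; ring
        rw [this]
        refine h2.mono ?_
        nlinarith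
      exact ⟨hadd h1, h1⟩
  -- differences
  have hdiff : ∀ n, Good κ (Nh * (1 / 2) ^ n) (fun t Z => G (n + 1) t Z - G n t Z) := by
    intro n
    induction n with
    | zero =>
      have : (fun (t : ℝ) Z => G (0 + 1) t Z - G 0 t Z) = BC γ k (G 0) (G 0) := by
        funext t Z; rw [Gs, G0]; ring
      rw [this]
      refine (hquad _ (hun 0).1 (hun 0).2).mono ?_
      simp only [pow_zero, mul_one]
      nlinarith
    | succ n ih =>
      have h1 := BC_diff hk hκ hA0 hA0 (by positivity : (0:ℝ) ≤ Nh * (1/2)^n) (hun (n + 1)).1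
        (hun n).1 ih
      have : (fun (t : ℝ) Z => G (n + 1 + 1) t Z - G (n + 1) t Z) =
          fun t Z => BC γ k (G (n + 1)) (G (n + 1)) t Z - BC γ k (G n) (G n) t Z := by
        funext t Z; rw [Gs, Gs n]; ring
      rw [this]
      refine h1.mono ?_
      rw [← hC, pow_succ]
      have hp : 0 ≤ Nh * (1 / 2 : ℝ) ^ n := by positivity
      have : C * (A + A) ≤ 1 / 2 := by nlinarith
      calc C * (Nh * (1 / 2) ^ n * (A + A)) = (Nh * (1 / 2) ^ n) * (C * (A + A)) := by ring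
        _ ≤ (Nh * (1 / 2) ^ n) * (1 / 2) := by gcongr
        _ = _ := by ring
  -- pointwise bounds for differences
  have hdb : ∀ n, ∀ t ∈ Icc (-2 : ℝ) 1, ∀ Z ∈ tube (3 - t),
      ‖G (n + 1) t Z - G n t Z‖ ≤ Nh * (1 / 2) ^ n := by
    rintro n t ht Z ⟨y, v, hZ⟩
    refine ((hdiff n).bound t ht y v Z hZ).trans ?_
    exact mul_le_of_le_one_right (by positivity) (om_le_one hκ y v)
  have hdb' : ∀ n, ∀ t ∈ Icc (-2 : ℝ) 1, ∀ (y v : ℂ) (Z : Ph), ‖Z - io y v‖ < 3 - t →
      dist (G n t Z) (G (n + 1) t Z) ≤ (2 * (Nh * om κ y v)) / 2 / 2 ^ n := by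
    intro n t ht y v Z hZ
    rw [dist_comm, dist_eq_norm]
    refine ((hdiff n).bound t ht y v Z hZ).trans (le_of_eq ?_)
    rw [one_div, inv_pow]
    field_simp
  -- the limit
  set g : ℝ → Ph → ℂ := fun t Z => limUnder atTop (fun n => G n t Z) with hg
  have hlim : ∀ t ∈ Icc (-2 : ℝ) 1, ∀ Z ∈ tube (3 - t),
      Tendsto (fun n => G n t Z) atTop (𝓝 (g t Z)) := by
    rintro t ht Z ⟨y, v, hZ⟩
    exact (cauchySeq_of_le_geometric_two (hdb' · t ht y v Z hZ)).tendsto_limUnder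
  have hgG : ∀ n, ∀ t ∈ Icc (-2 : ℝ) 1, ∀ (y v : ℂ) (Z : Ph), ‖Z - io y v‖ < 3 - t →
      ‖g t Z - G n t Z‖ ≤ (2 * Nh * (1 / 2) ^ n) * om κ y v := by
    intro n t ht y v Z hZ
    have h1 := dist_le_of_le_geometric_two_of_tendsto (hdb' · t ht y v Z hZ)
      (hlim t ht Z ⟨y, v, hZ⟩) n
    rw [dist_comm, dist_eq_norm] at h1
    refine h1.trans (le_of_eq ?_)
    rw [one_div, inv_pow]
    field_simp
  set e : ℕ → ℝ := fun n => 2 * Nh * (1 / 2) ^ n with he
  have he0 : Tendsto e atTop (𝓝 0) := by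
    have := (tendsto_pow_atTop_nhds_zero_of_lt_one (r := (1/2 : ℝ)) (by norm_num)
      (by norm_num)).const_mul (2 * Nh)
    simpa [he] using this
  have hgG' : ∀ n, ∀ t ∈ Icc (-2 : ℝ) 1, ∀ Z ∈ tube (3 - t), ‖g t Z - G n t Z‖ ≤ e n := by
    rintro n t ht Z ⟨y, v, hZ⟩
    refine (hgG n t ht y v Z hZ).trans ?_
    exact mul_le_of_le_one_right (by positivity) (om_le_one hκ y v)
  have gA : Good κ A g := Good.limit (fun n => (hun n).1) he0 hgG'
  have gd : Good κ (2 * Nh) (fun t Z => g t Z - gb Z) := by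
    refine Good.limit (fun n => (hun n).2) he0 fun n t ht Z hZ => ?_
    have := hgG' n t ht Z hZ
    have e1 : g t Z - gb Z - (G n t Z - gb Z) = g t Z - G n t Z := by ring
    rw [e1]; exact this
  -- the equation
  have heq : ∀ t ∈ Icc (-2 : ℝ) 1, ∀ Z ∈ tube (3 - t), g t Z = gb Z + h0 Z + BC γ k g g t Z := by
    rintro t ht Z ⟨y, v, hZ⟩
    have h1 : Tendsto (fun n => G (n + 1) t Z) atTop (𝓝 (g t Z)) :=
      (hlim t ht Z ⟨y, v, hZ⟩).comp (tendsto_add_atTop_nat 1)
    have h2 : Tendsto (fun n => G (n + 1) t Z) atTop (𝓝 (gb Z + h0 Z + BC γ k g g t Z)) := by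
      have hle : ∀ n, ‖G (n + 1) t Z - (gb Z + h0 Z + BC γ k g g t Z)‖ ≤
          C * (e n * (A + A)) * om κ y v := by
        intro n
        have hdn : Good κ (e n) (fun t Z => G n t Z - g t Z) := by
          refine ((hun n).1.sub gA).of_bound fun t ht y v Z hZ => ?_
          rw [norm_sub_rev]
          exact hgG n t ht y v Z hZ
        have h3 := (BC_diff hk hκ hA0 hA0 (by positivity : 0 ≤ e n) (hun n).1 gA hdn).bound
          t ht y v Z hZ
        have e1 : G (n + 1) t Z - (gb Z + h0 Z + BC γ k g g t Z) =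
            BC γ k (G n) (G n) t Z - BC γ k g g t Z := by rw [Gs]; ring
        rw [e1]
        exact h3
      rw [tendsto_iff_norm_sub_tendsto_zero]
      refine squeeze_zero (fun n => norm_nonneg _) hle ?_
      have := ((he0.mul_const (A + A)).const_mul C).mul_const (om κ y v)
      simpa using this
    exact tendsto_nhds_unique h1 h2
  have hGim : ∀ n, ∀ t ∈ Icc (-2 : ℝ) 1, ∀ y v, (G n t (io y v)).im = 0 := by
    intro n
    induction n with
    | zero =>
      intro t _ y v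
      rw [G0, Complex.add_im, hbr, hhr, add_zero]
    | succ n ih =>
      intro t ht y v
      rw [Gs, Complex.add_im, Complex.add_im, hbr, hhr, BC_im ht ih ih]
      simp
  refine ⟨g, gA, heq, ?_, ?_⟩
  · intro t ht y v
    have hmem : io y v ∈ tube (3 - t) := ⟨y, v, by rw [sub_self, norm_zero]; linarith [ht.2]⟩
    have h1 := hlim t ht _ hmem
    have h2 : Tendsto (fun n => (G n t (io y v)).im) atTop (𝓝 (g t (io y v)).im) :=
      (Complex.continuous_im.tendsto _).comp h1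
    have h3 : (fun n => (G n t (io y v)).im) = fun _ => 0 := funext fun n => hGim n t ht y v
    rw [h3] at h2
    exact (tendsto_nhds_unique h2 tendsto_const_nhds)
  · intro t ht y v Z hZ
    have h1 := (hquad g gA gd).bound t ht y v Z hZ
    rw [heq t ht Z ⟨y, v, hZ⟩]
    have e1 : gb Z + h0 Z + BC γ k g g t Z - (gb Z + h0 Z) = BC γ k g g t Z := by ring
    rw [e1]
    refine h1.trans ?_
    have hom := (om_pos κ y v).le
    gcongr ?_ * _
    have : 0 ≤ S * Nh := by positivity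
    nlinarith

end

end BoltzDisp
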