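import Mathlib
import Pool.Agent.MP_08d8de_an.Disp.BCReg

/-!
Barrier functions for the proof of nonnegativity and the pointwise estimate of the collision
integrand at a touching point.
-/

set_option autoImplicit false

open MeasureTheory Complex Set Metric Filter Topology
open scoped ENNReal ComplexConjugate

namespace BoltzDisp

/-- the barrier profile -/
noncomputable def psi (c : ℝ) (v : ℂ) : ℝ := Real.exp (-(c * ‖v‖)) / P v

lemma psi_pos (c : ℝ) (v : ℂ) : 0 < psi c v := by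
  unfold psi
  have := P_pos v
  positivity

lemma psi_mono {c κ : ℝ} (h : c ≤ κ) (v : ℂ) : psi κ v ≤ psi c v := by
  unfold psi
  have := P_pos v
  have := norm_nonneg v
  gcongr

lemma psi_le {c : ℝ} (hc : 0 ≤ c) (v : ℂ) : psi c v ≤ 1 / P v := by
  unfold psi
  have := P_pos v
  gcongr
  apply Real.exp_le_one_iff.mpr
  have := norm_nonneg v
  nlinarith [mul_nonneg hc this]

lemma om_le_psi (κ : ℝ) (y v : ℂ) : om κ y v ≤ psi κ v := by
  unfold om psi
  have hP := P_pos v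
  rw [Real.exp_neg, ← one_div, div_div, mul_comm (Real.exp (κ * ‖v‖)) (P v)]
  gcongr
  apply Real.exp_le_one_iff.mpr
  have := sq_nonneg ‖y‖
  linarith

lemma P_le_exp (v u : ℂ) : P v ≤ P u * Real.exp (6 * ‖v - u‖) := by
  unfold P
  set d := ‖v - u‖ with hd
  have hd0 : 0 ≤ d := norm_nonneg _
  have h1 : ‖v‖ ≤ ‖u‖ + d := by
    have := norm_add_le u (v - u)
    rwa [add_sub_cancel] at this
  have h2 : 1 + ‖v‖ ^ 2 ≤ (1 + ‖u‖ ^ 2) * Real.exp (2 * d) := by
    have e1 : 1 + 2 * d + (2 * d) ^ 2 / 2 ≤ Real.exp (2 * d) :=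
      Real.quadratic_le_exp_of_nonneg (by positivity)
    have e2 : ‖v‖ ^ 2 ≤ (‖u‖ + d) ^ 2 := by gcongr
    have e3 : (1 + ‖u‖ ^ 2) * (1 + 2 * d + (2 * d) ^ 2 / 2) ≤ (1 + ‖u‖ ^ 2) * Real.exp (2 * d) := by
      gcongr
    refine le_trans ?_ e3
    nlinarith [sq_nonneg (‖u‖ - 1), norm_nonneg u, mul_nonneg hd0 (sq_nonneg (‖u‖ - 1)),
      mul_nonneg (sq_nonneg d) (sq_nonneg ‖u‖), mul_nonneg hd0 (sq_nonneg ‖u‖)]
  calc (1 + ‖v‖ ^ 2) ^ 3 ≤ ((1 + ‖u‖ ^ 2) * Real.exp (2 * d)) ^ 3 := by gcongr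
    _ = (1 + ‖u‖ ^ 2) ^ 3 * Real.exp (6 * d) := by
      rw [mul_pow, ← Real.exp_nat_mul]; congr 2; push_cast; ring

lemma psi_le_exp {c : ℝ} (hc : 0 ≤ c) (hc1 : c ≤ 1) (v u : ℂ) :
    psi c u ≤ psi c v * Real.exp (7 * ‖v - u‖) := by
  unfold psi
  have hP := P_le_exp v u
  have p1 := P_pos v
  have p2 := P_pos u
  rw [div_mul_eq_mul_div, div_le_div_iff₀ p2 p1]
  have h1 : ‖v‖ ≤ ‖u‖ + ‖v - u‖ := by
    have := norm_add_le u (v - u)
    rwa [add_sub_cancel] at this
  have h2 : Real.exp (-(c * ‖u‖)) ≤ Real.exp (-(c * ‖v‖)) * Real.exp ‖v - u‖ := by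
    rw [← Real.exp_add]
    apply Real.exp_le_exp.mpr
    nlinarith [norm_nonneg (v - u), mul_nonneg hc (norm_nonneg (v - u))]
  calc Real.exp (-(c * ‖u‖)) * P v ≤
      (Real.exp (-(c * ‖v‖)) * Real.exp ‖v - u‖) * (P u * Real.exp (6 * ‖v - u‖)) := by gcongr
    _ = Real.exp (-(c * ‖v‖)) * (Real.exp ‖v - u‖ * Real.exp (6 * ‖v - u‖)) * P u := by ring
    _ = _ := by rw [← Real.exp_add]; congr 3; ring

/-- Hölder bound for the barrier -/
lemma psi_holder {c α : ℝ} (hc : 0 ≤ c) (hc1 : c ≤ 1) (hα0 : 0 < α) (hα1 : α ≤ 1) (v u : ℂ) :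
    |psi c u - psi c v| ≤ 7 * Real.exp 7 * ‖v - u‖ ^ α * (psi c v + psi c u) := by
  set d := ‖v - u‖ with hd
  have hd0 : 0 ≤ d := norm_nonneg _
  have p1 := psi_pos c v
  have p2 := psi_pos c u
  have hE : 1 ≤ Real.exp 7 := Real.one_le_exp (by norm_num)
  rcases lt_or_ge d 1 with hlt | hge
  · have hdd : d ≤ d ^ α := by
      rcases eq_or_lt_of_le hd0 with h0 | h0
      · rw [← h0, Real.zero_rpow hα0.ne']
      · calc d = d ^ (1 : ℝ) := (Real.rpow_one d).symm
          _ ≤ d ^ α := Real.rpow_le_rpow_of_exponent_ge h0 hlt.le hα1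
    have e1 := psi_le_exp hc hc1 v u
    have e2 := psi_le_exp hc hc1 u v
    rw [norm_sub_rev u v, ← hd] at e2
    rw [← hd] at e1
    -- exp(7 d) - 1 ≤ 7 d exp 7
    have e3 : Real.exp (7 * d) - 1 ≤ 7 * Real.exp 7 * d := by
      have a1 : 1 - 7 * d ≤ Real.exp (-(7 * d)) := by
        have := Real.add_one_le_exp (-(7 * d)); linarith
      have a2 : Real.exp (7 * d) ≤ Real.exp 7 := Real.exp_le_exp.mpr (by linarith)
      have a3 : Real.exp (7 * d) * Real.exp (-(7 * d)) = 1 := by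
        rw [← Real.exp_add]; simp
      have a4 : 0 < Real.exp (7 * d) := Real.exp_pos _
      have a5 : Real.exp (7 * d) * (1 - 7 * d) ≤ 1 := by
        calc Real.exp (7 * d) * (1 - 7 * d) ≤ Real.exp (7 * d) * Real.exp (-(7 * d)) := by gcongr
          _ = 1 := a3
      have a6 : Real.exp (7 * d) * (7 * d) ≤ Real.exp 7 * (7 * d) := by gcongr
      linarith
    have key : |psi c u - psi c v| ≤ 7 * Real.exp 7 * d * (psi c v + psi c u) := by
      rw [abs_le]
      constructor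
      · have : psi c v - psi c u ≤ psi c u * (Real.exp (7 * d) - 1) := by linarith
        have h3 : psi c u * (Real.exp (7 * d) - 1) ≤ psi c u * (7 * Real.exp 7 * d) := by gcongr
        have h4 : 0 ≤ psi c v * (7 * Real.exp 7 * d) := by positivity
        linarith
      · have : psi c u - psi c v ≤ psi c v * (Real.exp (7 * d) - 1) := by linarith
        have h3 : psi c v * (Real.exp (7 * d) - 1) ≤ psi c v * (7 * Real.exp 7 * d) := by gcongr
        have h4 : 0 ≤ psi c u * (7 * Real.exp 7 * d) := by positivity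
        linarith
    refine key.trans ?_
    gcongr
  · have h1 : 1 ≤ d ^ α := Real.one_le_rpow hge hα0.le
    have h2 : |psi c u - psi c v| ≤ psi c v + psi c u := by
      rw [abs_le]; constructor <;> linarith
    have h3 : 1 ≤ 7 * Real.exp 7 * d ^ α := by
      calc (1 : ℝ) ≤ 7 * 1 * 1 := by norm_num
        _ ≤ 7 * Real.exp 7 * d ^ α := by gcongr
    refine h2.trans ?_
    calc psi c v + psi c u = 1 * (psi c v + psi c u) := by ring
      _ ≤ _ := by gcongr

lemma abs_sin_le_abs_cos {φ : ℝ} (hφ : |φ| ≤ Real.pi / 4) : |Real.sin φ| ≤ |Real.cos φ| := by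
  have h := cos_sq_ge hφ
  apply sq_le_sq.mp
  have := Real.sin_sq_add_cos_sq φ
  linarith

/-- `1 / P(v'_*)` is controlled by the weight ratio -/
lemma P_ratio {φ : ℝ} (hφ : |φ| ≤ Real.pi / 4) (v w : ℂ) :
    1 / P (v - aa φ * w) ≤ 729 * RR φ v w := by
  unfold RR
  set v1 := v - (1 - aa φ) * w with hv1
  set v2 := v - aa φ * w with hv2
  have p1 := P_pos v1
  have p2 := P_pos v2
  have p3 := P_pos v
  have p4 := P_pos (v - w)
  have e2 : ‖v - v2‖ = |Real.cos φ| * ‖w‖ := by rw [hv2, sub_sub_cancel, norm_mul, norm_aa]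
  have e1 : ‖v - v1‖ = |Real.sin φ| * ‖w‖ := by
    rw [hv1, sub_sub_cancel, norm_mul, norm_one_sub_aa]
  have hsc := abs_sin_le_abs_cos hφ
  have h12 : |Real.sin φ| * ‖w‖ ≤ ‖v‖ + ‖v2‖ := by
    calc |Real.sin φ| * ‖w‖ ≤ |Real.cos φ| * ‖w‖ := by gcongr
      _ = ‖v - v2‖ := e2.symm
      _ ≤ _ := norm_sub_le _ _
  have hPP : ∀ a b : ℂ, ‖a‖ ≤ 3 * ‖b‖ → P a ≤ 729 * P b := by
    intro a b hab
    unfold P
    calc (1 + ‖a‖ ^ 2) ^ 3 ≤ (1 + (3 * ‖b‖) ^ 2) ^ 3 := by gcongr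
      _ ≤ (9 * (1 + ‖b‖ ^ 2)) ^ 3 := by
          gcongr
          nlinarith [sq_nonneg ‖b‖]
      _ = 729 * (1 + ‖b‖ ^ 2) ^ 3 := by ring
  have n1 : 0 ≤ P v / (P v2 * P v1) := by positivity
  have n2 : 0 ≤ 1 / P (v - w) := by positivity
  rcases lt_or_ge ‖v2‖ ‖v‖ with h | h
  · have h1 : ‖v1‖ ≤ 3 * ‖v‖ := by
      have := norm_sub_le v (v - v1)
      rw [sub_sub_cancel, e1] at this
      linarith
    have h2 := hPP _ _ h1
    have h3 : 1 / P v2 ≤ 729 * (P v / (P v2 * P v1)) := by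
      rw [div_le_iff₀ p2]
      have : 729 * (P v / (P v2 * P v1)) * P v2 = 729 * P v / P v1 := by field_simp
      rw [this, le_div_iff₀ p1]
      linarith
    linarith
  · have e3 : ‖v2 - (v - w)‖ = |Real.sin φ| * ‖w‖ := by
      have : v2 - (v - w) = (1 - aa φ) * w := by rw [hv2]; ring
      rw [this, norm_mul, norm_one_sub_aa]
    have h1 : ‖v - w‖ ≤ 3 * ‖v2‖ := by
      have := norm_sub_le v2 (v2 - (v - w))
      rw [sub_sub_cancel, e3] at this
      linarith
    have h2 := hPP _ _ h1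
    have h3 : 1 / P v2 ≤ 729 * (1 / P (v - w)) := by
      rw [mul_one_div, div_le_div_iff₀ p2 p4]
      linarith
    linarith

/-- Hölder bound along shifts for real points -/
lemma real_holder {κ N r τ α : ℝ} {G : Ph → ℂ} (hG : GoodS κ N r G) (hN : 0 ≤ N) (hr : 1 < r)
    (hτ : |τ| ≤ 2) (hα0 : 0 < α) (hα1 : α ≤ 1) (y v u : ℂ) {m : ℝ} (hu : ‖u‖ ≤ m) :
    ‖G (io (y + τ * u) (v - u)) - G (io y v)‖ ≤
      4 * N * m ^ α * (om κ y v + om κ (y + τ * u) (v - u)) := by
  have hm0 : 0 ≤ m := (norm_nonneg _).trans hu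
  have o1 := om_pos κ y v
  have o2 := om_pos κ (y + τ * u) (v - u)
  have hS := norm_Sh_le hτ u
  have b1 := hG.bound y v (io y v) (by rw [sub_self, norm_zero]; linarith)
  have b2 := hG.bound (y + τ * u) (v - u) (io (y + τ * u) (v - u))
    (by rw [sub_self, norm_zero]; linarith)
  have e2 : (2 : ℝ) ^ α ≤ 2 := by
    calc (2 : ℝ) ^ α ≤ 2 ^ (1 : ℝ) := Real.rpow_le_rpow_of_exponent_le (by norm_num) hα1
      _ = 2 := Real.rpow_one 2
  have hpow : (‖Sh τ u‖) ^ α ≤ 2 * m ^ α := by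
    calc (‖Sh τ u‖) ^ α ≤ (2 * m) ^ α := Real.rpow_le_rpow (norm_nonneg _) (by linarith) hα0.le
      _ = 2 ^ α * m ^ α := Real.mul_rpow (by norm_num) hm0
      _ ≤ 2 * m ^ α := by gcongr
  rcases lt_or_ge ‖Sh τ u‖ 1 with hlt | hge
  · have hXX : ‖Sh τ u‖ ≤ ‖Sh τ u‖ ^ α := by
      rcases eq_or_lt_of_le (norm_nonneg (Sh τ u)) with h0 | h0
      · rw [← h0, Real.zero_rpow hα0.ne']
      · calc ‖Sh τ u‖ = ‖Sh τ u‖ ^ (1 : ℝ) := (Real.rpow_one _).symm
          _ ≤ ‖Sh τ u‖ ^ α := Real.rpow_le_rpow_of_exponent_ge h0 hlt.le hα1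
    have h1 := schwarz hG hN (y := y) (v := v) (Z := io y v) (S := Sh τ u) one_pos
      (by rw [sub_self, norm_zero]; linarith) hlt
    rw [io_Sh]
    refine h1.trans ?_
    rw [div_one]
    rw [← io_Sh] at *
    calc 2 * (N * om κ y v) * ‖Sh τ u‖ ≤ 2 * (N * om κ y v) * (2 * m ^ α) := by
          gcongr; exact hXX.trans hpow
      _ = 4 * N * m ^ α * om κ y v := by ring
      _ ≤ _ := by gcongr; linarith
  · have h1 : 1 ≤ 2 * m ^ α := (Real.one_le_rpow hge hα0.le).trans hpow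
    calc _ ≤ N * om κ (y + τ * u) (v - u) + N * om κ y v :=
          (norm_sub_le _ _).trans (add_le_add b2 b1)
      _ = N * (om κ y v + om κ (y + τ * u) (v - u)) * 1 := by ring
      _ ≤ N * (om κ y v + om κ (y + τ * u) (v - u)) * (2 * m ^ α) := by gcongr
      _ ≤ N * (om κ y v + om κ (y + τ * u) (v - u)) * (4 * m ^ α) := by
          gcongr; norm_num
      _ = _ := by ring

/-- the constant in the pointwise bound -/
noncomputable def C1 : ℝ := 730 * (7 * Real.exp 7 + 8)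

lemma C1_nonneg : 0 ≤ C1 := by unfold C1; positivity

/-- **Pointwise lower bound at a touching point.** -/
theorem pointwise {κ N c r τ α D : ℝ} {G : Ph → ℂ} (hG : GoodS κ N r G) (hN : 0 ≤ N) (hr : 1 < r)
    (hτ : |τ| ≤ 2) (hα0 : 0 < α) (hα1 : α ≤ 1) (hc0 : 0 ≤ c) (hcκ : c ≤ κ) (hκ : κ ≤ 1)
    (hD : 0 ≤ D) (him : ∀ y v, (G (io y v)).im = 0)
    (hlow : ∀ y v, -(D * psi c v) ≤ (G (io y v)).re) {y v : ℂ}
    (heq : (G (io y v)).re = -(D * psi c v)) (w : ℂ) {φ : ℝ} (hφ : |φ| ≤ Real.pi / 4) :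
    -(D * psi c v * (C1 * N) * ((|φ| * ‖w‖) ^ α * RR φ v w)) ≤ (Del τ G G (io y v) (w, φ)).re := by
  have hκ0 : 0 ≤ κ := hc0.trans hcκ
  set v1 := v - (1 - aa φ) * w with hv1
  set v2 := v - aa φ * w with hv2
  set v3 := v - w with hv3
  set y1 := y + τ * ((1 - aa φ) * w) with hy1
  set y2 := y + τ * (aa φ * w) with hy2
  set y3 := y + τ * w with hy3
  set m := |φ| * ‖w‖ with hm
  have hu : ‖(1 - aa φ) * w‖ ≤ m := by
    rw [norm_mul, norm_one_sub_aa]
    exact mul_le_mul_of_nonneg_right Real.abs_sin_le_abs (norm_nonneg w)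
  have hm0 : 0 ≤ m ^ α := by positivity
  have p0 := P_pos v
  have p1 := P_pos v1
  have p2 := P_pos v2
  have p3 := P_pos v3
  set F := (G (io y v)).re with hF
  set F1 := (G (io y1 v1)).re with hF1
  set F2 := (G (io y2 v2)).re with hF2
  set F3 := (G (io y3 v3)).re with hF3
  have hDel : (Del τ G G (io y v) (w, φ)).re = F2 * F1 - F3 * F := by
    unfold Del
    simp only [← io_Sh]
    rw [Complex.sub_re, Complex.mul_re, Complex.mul_re, him, him, him, him]
    simp only [mul_zero, sub_zero]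
    rfl
  rw [hDel]
  -- bounds
  have bF2 : |F2| ≤ N * psi κ v2 := by
    have := hG.bound y2 v2 (io y2 v2) (by rw [sub_self, norm_zero]; linarith)
    exact (Complex.abs_re_le_norm _).trans (this.trans
      (mul_le_mul_of_nonneg_left (om_le_psi κ y2 v2) hN))
  have d1 : |F1 - F| ≤ 4 * N * m ^ α * (psi κ v + psi κ v1) := by
    have h1 := real_holder hG hN hr hτ hα0 hα1 y v ((1 - aa φ) * w) hu
    have h2 : |F1 - F| ≤ ‖G (io y1 v1) - G (io y v)‖ := by
      rw [hF1, hF, ← Complex.sub_re]; exact Complex.abs_re_le_norm _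
    refine (h2.trans h1).trans ?_
    exact mul_le_mul_of_nonneg_left (add_le_add (om_le_psi κ y v) (om_le_psi κ y1 v1))
      (by positivity)
  have d2 : |F2 - F3| ≤ 4 * N * m ^ α * (psi κ v3 + psi κ v2) := by
    have hu' : ‖-((1 - aa φ) * w)‖ ≤ m := by rw [norm_neg]; exact hu
    have h1 := real_holder hG hN hr hτ hα0 hα1 y3 v3 (-((1 - aa φ) * w)) hu'
    have ey : y3 + τ * -((1 - aa φ) * w) = y2 := by rw [hy3, hy2]; ring
    have ev : v3 - -((1 - aa φ) * w) = v2 := by rw [hv3, hv2]; ring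
    rw [ey, ev] at h1
    have h2 : |F2 - F3| ≤ ‖G (io y2 v2) - G (io y3 v3)‖ := by
      rw [hF2, hF3, ← Complex.sub_re]; exact Complex.abs_re_le_norm _
    refine (h2.trans h1).trans ?_
    exact mul_le_mul_of_nonneg_left (add_le_add (om_le_psi κ y3 v3) (om_le_psi κ y2 v2))
      (by positivity)
  have d3 : |psi c v1 - psi c v| ≤ 7 * Real.exp 7 * m ^ α * (psi c v + psi c v1) := by
    refine (psi_holder hc0 (hcκ.trans hκ) hα0 hα1 v v1).trans ?_
    have q1 := psi_pos c v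
    have q2 := psi_pos c v1
    gcongr
    have : v - v1 = (1 - aa φ) * w := by rw [hv1]; ring
    rw [this]; exact hu
  -- abbreviations of the ratio terms
  set X := P v / (P v2 * P v1) with hX
  set Y := 1 / P v2 with hY
  set Z := 1 / P v3 with hZ
  have hRR : RR φ v w = X + Z := rfl
  have hYR : Y ≤ 729 * (X + Z) := by rw [← hRR]; exact P_ratio hφ v w
  have hX0 : 0 ≤ X := by positivity
  have hY0 : 0 ≤ Y := by positivity
  have hZ0 : 0 ≤ Z := by positivity
  have q := psi_pos c v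
  have q1 := psi_pos c v1
  have q2 := psi_pos c v2
  have k0 := psi_pos κ v
  have k1 := psi_pos κ v1
  have k2 := psi_pos κ v2
  have k3 := psi_pos κ v3
  -- products
  have r1 : psi c v2 * psi c v1 ≤ psi c v * X := by
    have hs := sum_norm_ge φ v w
    have : psi c v2 * psi c v1 = Real.exp (-(c * (‖v2‖ + ‖v1‖))) / (P v2 * P v1) := by
      unfold psi
      rw [div_mul_div_comm, ← Real.exp_add]; congr 2; ring
    rw [this]
    have e : psi c v * X = Real.exp (-(c * ‖v‖)) / (P v2 * P v1) := by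
      unfold psi; rw [hX]; field_simp
    rw [e]
    gcongr
  have r2 : psi c v2 ≤ Y := psi_le hc0 v2
  have r3 : psi κ v2 ≤ Y := psi_le hκ0 v2
  have r4 : psi κ v3 ≤ Z := psi_le hκ0 v3
  have r5 : psi κ v ≤ psi c v := psi_mono hcκ v
  have r6 : psi κ v1 ≤ psi c v1 := psi_mono hcκ v1
  have r7 : psi κ v2 ≤ psi c v2 := psi_mono hcκ v2
  -- three terms
  have T1 : |F2| * |psi c v1 - psi c v| ≤ N * (7 * Real.exp 7 * m ^ α) * (psi c v * (X + Y)) := by
    calc |F2| * |psi c v1 - psi c v| ≤ (N * psi κ v2) *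
          (7 * Real.exp 7 * m ^ α * (psi c v + psi c v1)) := by gcongr
      _ = N * (7 * Real.exp 7 * m ^ α) * (psi κ v2 * psi c v1 + psi κ v2 * psi c v) := by ring
      _ ≤ N * (7 * Real.exp 7 * m ^ α) * (psi c v2 * psi c v1 + Y * psi c v) := by gcongr
      _ ≤ N * (7 * Real.exp 7 * m ^ α) * (psi c v * X + Y * psi c v) := by gcongr
      _ = _ := by ring
  have T2 : psi c v2 * |F1 - F| ≤ 4 * N * m ^ α * (psi c v * (X + Y)) := by
    calc psi c v2 * |F1 - F| ≤ psi c v2 * (4 * N * m ^ α * (psi κ v + psi κ v1)) := by gcongr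
      _ = 4 * N * m ^ α * (psi c v2 * psi κ v1 + psi c v2 * psi κ v) := by ring
      _ ≤ 4 * N * m ^ α * (psi c v2 * psi c v1 + Y * psi c v) := by gcongr
      _ ≤ 4 * N * m ^ α * (psi c v * X + Y * psi c v) := by gcongr
      _ = _ := by ring
  have T3 : psi c v * |F2 - F3| ≤ 4 * N * m ^ α * (psi c v * (Z + Y)) := by
    calc psi c v * |F2 - F3| ≤ psi c v * (4 * N * m ^ α * (psi κ v3 + psi κ v2)) := by gcongr
      _ ≤ psi c v * (4 * N * m ^ α * (Z + Y)) := by gcongr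
      _ = _ := by ring
  -- lower bound of the product
  have L1 : -(D * (|F2| * |psi c v1 - psi c v| + psi c v2 * |F1 - F|)) ≤ F2 * (F1 - F) := by
    have hl1 := hlow y1 v1
    have hl2 := hlow y2 v2
    rw [← hF1] at hl1
    rw [← hF2] at hl2
    rcases le_or_gt 0 F2 with h | h
    · have a1 : -(D * |psi c v1 - psi c v|) ≤ F1 - F := by
        have := le_abs_self (psi c v1 - psi c v)
        have : D * (psi c v1 - psi c v) ≤ D * |psi c v1 - psi c v| := by gcongr
        rw [heq]; linarith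
      have a2 : F2 * (-(D * |psi c v1 - psi c v|)) ≤ F2 * (F1 - F) := by gcongr
      have a3 : 0 ≤ D * (psi c v2 * |F1 - F|) := by positivity
      rw [abs_of_nonneg h]
      linarith
    · have a1 : -F2 ≤ D * psi c v2 := by linarith
      have a2 : (-F2) * (F1 - F) ≤ (-F2) * |F1 - F| := by
        have : 0 ≤ -F2 := by linarith
        gcongr
        exact le_abs_self _
      have a3 : (-F2) * |F1 - F| ≤ (D * psi c v2) * |F1 - F| := by gcongr
      have a4 : 0 ≤ D * (|F2| * |psi c v1 - psi c v|) := by positivity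
      linarith
  have L2 : -(D * (psi c v * |F2 - F3|)) ≤ F * (F2 - F3) := by
    rw [heq]
    have := le_abs_self (F2 - F3)
    have : D * psi c v * (F2 - F3) ≤ D * psi c v * |F2 - F3| := by gcongr
    linarith
  have e0 : F2 * F1 - F3 * F = F2 * (F1 - F) + F * (F2 - F3) := by ring
  rw [e0, hRR]
  have tot : |F2| * |psi c v1 - psi c v| + psi c v2 * |F1 - F| + psi c v * |F2 - F3| ≤
      psi c v * (C1 * N) * (m ^ α * (X + Z)) := by
    have hNm : 0 ≤ N * m ^ α * psi c v := by positivity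
    have hE : 0 < Real.exp 7 := Real.exp_pos _
    have s1 : N * (7 * Real.exp 7 * m ^ α) * (psi c v * (X + Y)) +
        4 * N * m ^ α * (psi c v * (X + Y)) + 4 * N * m ^ α * (psi c v * (Z + Y)) =
        N * m ^ α * psi c v * (7 * Real.exp 7 * (X + Y) + 4 * (X + Y) + 4 * (Z + Y)) := by ring
    have s2 : 7 * Real.exp 7 * (X + Y) + 4 * (X + Y) + 4 * (Z + Y) ≤ C1 * (X + Z) := by
      unfold C1
      have t1 : X + Y ≤ 730 * (X + Z) := by linarith
      have t2 : Z + Y ≤ 730 * (X + Z) := by linarith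
      calc 7 * Real.exp 7 * (X + Y) + 4 * (X + Y) + 4 * (Z + Y)
          ≤ 7 * Real.exp 7 * (730 * (X + Z)) + 4 * (730 * (X + Z)) + 4 * (730 * (X + Z)) := by
            gcongr
        _ = _ := by ring
    calc _ ≤ N * (7 * Real.exp 7 * m ^ α) * (psi c v * (X + Y)) +
        4 * N * m ^ α * (psi c v * (X + Y)) + 4 * N * m ^ α * (psi c v * (Z + Y)) := by
          linarith
      _ = N * m ^ α * psi c v * (7 * Real.exp 7 * (X + Y) + 4 * (X + Y) + 4 * (Z + Y)) := s1
      _ ≤ N * m ^ α * psi c v * (C1 * (X + Z)) := by gcongr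
      _ = _ := by ring
  have tot' : D * (|F2| * |psi c v1 - psi c v| + psi c v2 * |F1 - F| + psi c v * |F2 - F3|) ≤
      D * (psi c v * (C1 * N) * (m ^ α * (X + Z))) := by gcongr
  linarith

end BoltzDisp
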