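import Mathlib
import Pool.Agent.MP_08d8de_an.Disp.PosAlg

/-!
Nonnegativity of the solution: a first-touching argument with an exponentially decaying barrier.
-/

set_option autoImplicit false

open MeasureTheory Complex Set Metric Filter Topology
open scoped ENNReal ComplexConjugate

namespace BoltzDisp

variable {s γ : ℝ} {k : ℝ → ℝ} {Ck : ℝ}

/-- the growth constant of the barrier -/
noncomputable def KK (s γ Ck N : ℝ) : ℝ :=
  C1 * N * Ck * ((Cang (al γ - 1 - 2 * s)).toReal * (31000 * KP.toReal))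

lemma KK_nonneg (hk : Kern s γ k Ck) {N : ℝ} (hN : 0 ≤ N) : 0 ≤ KK s γ Ck N := by
  unfold KK
  have := hk.hCk
  have := C1_nonneg
  positivity

/-- integrated lower bound at a touching point -/
theorem QC_touch (hk : Kern s γ k Ck) {κ N c r τ D : ℝ} {G : Ph → ℂ} (hG : GoodS κ N r G)
    (hN : 0 ≤ N) (hr : 1 < r) (hτ : |τ| ≤ 2) (hc0 : 0 ≤ c) (hcκ : c ≤ κ) (hκ : κ ≤ 1)
    (hD : 0 ≤ D) (him : ∀ y v, (G (io y v)).im = 0)
    (hlow : ∀ y v, -(D * psi c v) ≤ (G (io y v)).re) {y v : ℂ}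
    (heq : (G (io y v)).re = -(D * psi c v)) :
    -(KK s γ Ck N * (1 + ‖v‖) * (D * psi c v)) ≤ (QC γ k τ G G (io y v)).re := by
  have hκ0 : 0 ≤ κ := hc0.trans hcκ
  have hCk := hk.hCk
  have hq := psi_pos c v
  have hC1 := C1_nonneg
  have hZ : io y v ∈ tube r := ⟨y, v, by rw [sub_self, norm_zero]; linarith⟩
  have hint := integrable_QI hk hκ0 hN hN hG hG hτ hZ
  set A := D * psi c v * (C1 * N) * Ck with hA
  have hA0 : 0 ≤ A := by positivity
  have hDD := integrable_DD (s := s) (γ := γ) hk hA0 one_pos v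
  have hre : (QC γ k τ G G (io y v)).re = ∫ p, (QI γ k τ G G (io y v) p).re ∂mu := by
    rw [QC_eq]
    exact (Complex.reCLM.integral_comp_comm hint).symm
  have hpt : ∀ᵐ p ∂mu, -(DD s γ A 1 v p) ≤ (QI γ k τ G G (io y v) p).re := by
    filter_upwards [mu_ae] with p hp
    obtain ⟨w, φ⟩ := p
    obtain ⟨hp1, hp2, hp3⟩ := hp
    simp only at hp1 hp2 hp3
    have hw : 0 < ‖w‖ := norm_pos_iff.mpr hp1
    have hφ : 0 < |φ| := abs_pos.mpr hp2
    have hb := pointwise hG hN hr hτ hk.al_pos hk.al_lt.le hc0 hcκ hκ hD him hlow heq w hp3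
    have hRR := RR_nonneg φ v w
    have hk0 := hk.nonneg φ
    have hk1 := hk.le φ
    have e0 : (QI γ k τ G G (io y v) (w, φ)).re =
        (k φ * ‖w‖ ^ γ) * (Del τ G G (io y v) (w, φ)).re := by
      unfold QI
      rw [Complex.re_ofReal_mul]
    have e2 : ‖w‖ ^ (γ + al γ) ≤ (1 + ‖w‖) ^ 1 := by
      have h1 : 0 ≤ γ + al γ := by have := hk.γ_gt; unfold al; linarith
      have h2 : γ + al γ ≤ 1 := by have := hk.γ_lt; unfold al; linarith
      calc ‖w‖ ^ (γ + al γ) ≤ (1 + ‖w‖) ^ (γ + al γ) :=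
            Real.rpow_le_rpow hw.le (by linarith) h1
        _ ≤ (1 + ‖w‖) ^ (1 : ℝ) := Real.rpow_le_rpow_of_exponent_le (by linarith) h2
        _ = (1 + ‖w‖) ^ 1 := by rw [Real.rpow_one, pow_one]
    have e3 : |φ| ^ (-1 - 2 * s) * |φ| ^ al γ = |φ| ^ (al γ - 1 - 2 * s) := by
      rw [← Real.rpow_add hφ]; congr 1; ring
    have e4 : ‖w‖ ^ γ * ‖w‖ ^ al γ = ‖w‖ ^ (γ + al γ) := by
      rw [← Real.rpow_add hw]
    have e5 : (|φ| * ‖w‖) ^ al γ = |φ| ^ al γ * ‖w‖ ^ al γ := Real.mul_rpow hφ.le hw.le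
    rw [e0]
    have e6 : k φ * ‖w‖ ^ γ * (D * psi c v * (C1 * N) * ((|φ| * ‖w‖) ^ al γ * RR φ v w)) ≤
        DD s γ A 1 v (w, φ) := by
      unfold DD
      simp only [Real.one_rpow, mul_one]
      calc k φ * ‖w‖ ^ γ * (D * psi c v * (C1 * N) * ((|φ| * ‖w‖) ^ al γ * RR φ v w))
          ≤ (Ck * |φ| ^ (-1 - 2 * s)) * ‖w‖ ^ γ *
            (D * psi c v * (C1 * N) * ((|φ| * ‖w‖) ^ al γ * RR φ v w)) := by gcongr
        _ = A * ((|φ| ^ (-1 - 2 * s) * |φ| ^ al γ) * ((‖w‖ ^ γ * ‖w‖ ^ al γ) * RR φ v w)) := by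
            rw [e5, hA]; ring
        _ = A * (|φ| ^ (al γ - 1 - 2 * s) * (‖w‖ ^ (γ + al γ) * RR φ v w)) := by rw [e3, e4]
        _ ≤ A * (|φ| ^ (al γ - 1 - 2 * s) * ((1 + ‖w‖) ^ 1 * RR φ v w)) := by gcongr
    have e7 : (k φ * ‖w‖ ^ γ) * (-(D * psi c v * (C1 * N) * ((|φ| * ‖w‖) ^ al γ * RR φ v w))) ≤
        (k φ * ‖w‖ ^ γ) * (Del τ G G (io y v) (w, φ)).re := by
      gcongr
    linarith
  have hDDle : ∫ p, DD s γ A 1 v p ∂mu ≤
      A * ((Cang (al γ - 1 - 2 * s)).toReal * (31000 * KP.toReal)) * (1 + ‖v‖) := by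
    rw [integral_eq_lintegral_of_nonneg_ae (ae_of_all _ (DD_nonneg hA0 one_pos v))
      hDD.aestronglyMeasurable]
    have h1 := lint_DD hk hA0 one_pos v
    simp only [Real.one_rpow, mul_one] at h1
    refine ENNReal.toReal_le_of_le_ofReal (by positivity) h1
  have h1 : -∫ p, DD s γ A 1 v p ∂mu ≤ ∫ p, (QI γ k τ G G (io y v) p).re ∂mu := by
    rw [← integral_neg]
    exact integral_mono_ae hDD.neg (Complex.reCLM.integrable_comp hint) hpt
  rw [hre]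
  refine le_trans ?_ h1
  rw [neg_le_neg_iff]
  refine hDDle.trans (le_of_eq ?_)
  rw [hA]; unfold KK; ring

/-- the barrier -/
noncomputable def Bar (K κ0 t0 t : ℝ) (v : ℂ) : ℝ :=
  Real.exp (K * (t - t0)) * psi (κ0 - K * (t - t0)) v

lemma Bar_eq (K κ0 t0 t : ℝ) (v : ℂ) :
    Bar K κ0 t0 t v = Real.exp (K * (1 + ‖v‖) * (t - t0) - κ0 * ‖v‖) / P v := by
  unfold Bar psi
  rw [mul_div_assoc', ← Real.exp_add]
  congr 2; ring

lemma Bar_pos (K κ0 t0 t : ℝ) (v : ℂ) : 0 < Bar K κ0 t0 t v :=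
  mul_pos (Real.exp_pos _) (psi_pos _ _)

lemma Bar_deriv (K κ0 t0 t : ℝ) (v : ℂ) :
    HasDerivAt (fun t => Bar K κ0 t0 t v) (K * (1 + ‖v‖) * Bar K κ0 t0 t v) t := by
  have h : (fun t => Bar K κ0 t0 t v) =
      fun t => Real.exp (K * (1 + ‖v‖) * (t - t0) - κ0 * ‖v‖) / P v := by
    funext t; exact Bar_eq _ _ _ _ _
  rw [h, Bar_eq]
  have h1 : HasDerivAt (fun t : ℝ => K * (1 + ‖v‖) * (t - t0) - κ0 * ‖v‖) (K * (1 + ‖v‖)) t := by
    have := (((hasDerivAt_id t).sub_const t0).const_mul (K * (1 + ‖v‖))).sub_const (κ0 * ‖v‖)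
    simpa using this
  have h2 := h1.exp.div_const (P v)
  refine h2.congr_deriv ?_
  ring

lemma Bar_cont (K κ0 t0 : ℝ) : Continuous fun q : ℝ × ℂ × ℂ => Bar K κ0 t0 q.1 q.2.2 := by
  have h : (fun q : ℝ × ℂ × ℂ => Bar K κ0 t0 q.1 q.2.2) =
      fun q => Real.exp (K * (1 + ‖q.2.2‖) * (q.1 - t0) - κ0 * ‖q.2.2‖) / P q.2.2 := by
    funext q; exact Bar_eq _ _ _ _ _
  rw [h]
  apply Continuous.div
  · fun_prop
  · exact continuous_P.comp (by fun_prop)
  · intro q; exact (P_pos _).ne'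

lemma continuous_io : Continuous fun q : ℂ × ℂ => io q.1 q.2 := by
  unfold io
  fun_prop

lemma real_cont {κ N : ℝ} {g : ℝ → Ph → ℂ} (hg : Good κ N g) :
    ContinuousOn (fun q : ℝ × ℂ × ℂ => (g q.1 (io q.2.1 q.2.2)).re)
      (Icc (-2 : ℝ) 1 ×ˢ univ) := by
  have h1 : ContinuousOn (fun q : ℝ × ℂ × ℂ => ((q.1, io q.2.1 q.2.2) : ℝ × Ph))
      (Icc (-2 : ℝ) 1 ×ˢ univ) := by
    apply Continuous.continuousOn
    exact continuous_fst.prodMk (continuous_io.comp continuous_snd)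
  have h2 := hg.cont.comp h1 (fun q hq => by
    refine ⟨hq.1, q.2.1, q.2.2, ?_⟩
    rw [sub_self, norm_zero]
    have := hq.1.2
    simp only
    linarith)
  exact Complex.continuous_re.comp_continuousOn h2

/-- one time step -/
theorem step (hk : Kern s γ k Ck) {κ N : ℝ} {g : ℝ → Ph → ℂ} {g0 : Ph → ℂ} (hκ0 : 0 < κ)
    (hκ1 : κ ≤ 1) (hN : 0 ≤ N) (hg : Good κ N g)
    (heq : ∀ t ∈ Icc (-2 : ℝ) 1, ∀ Z ∈ tube (3 - t), g t Z = g0 Z + BC γ k g g t Z)
    (him : ∀ t ∈ Icc (-2 : ℝ) 1, ∀ y v, (g t (io y v)).im = 0) {t0 T : ℝ}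
    (ht0 : -2 ≤ t0) (hT : T < 1) (hT' : (KK s γ Ck N + 1) * (T - t0) ≤ κ / 2)
    (hpos : ∀ y v, 0 ≤ (g t0 (io y v)).re) :
    ∀ t ∈ Icc t0 T, ∀ y v, 0 ≤ (g t (io y v)).re := by
  set K := KK s γ Ck N + 1 with hK
  have hK0 : 0 < K := by have := KK_nonneg hk hN; linarith
  set κ0 := κ / 2 with hκ0'
  have hκ00 : 0 < κ0 := by positivity
  suffices H : ∀ δ : ℝ, 0 < δ → ∀ t ∈ Icc t0 T, ∀ y v,
      0 < (g t (io y v)).re + δ * Bar K κ0 t0 t v by
    intro t ht y v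
    by_contra hneg
    push Not at hneg
    have hB := Bar_pos K κ0 t0 t v
    have h1 := H (-(g t (io y v)).re / Bar K κ0 t0 t v) (by apply div_pos _ hB; linarith) t ht y v
    rw [div_mul_cancel₀ _ hB.ne'] at h1
    linarith
  intro δ hδ
  by_contra hcon
  push Not at hcon
  obtain ⟨t', ht', y', v', hF'⟩ := hcon
  -- notation
  set F : ℝ × ℂ × ℂ → ℝ := fun q => (g q.1 (io q.2.1 q.2.2)).re + δ * Bar K κ0 t0 q.1 q.2.2 with hF
  have hFc : ContinuousOn F (Icc (-2 : ℝ) 1 ×ˢ univ) :=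
    (real_cont hg).add ((Bar_cont K κ0 t0).continuousOn.const_smul δ)
  set R : ℝ := 1 + N / δ + N / (δ * κ0) with hR
  have hNd : 0 ≤ N / δ := by positivity
  have hNdk : 0 ≤ N / (δ * κ0) := by positivity
  have hbd : ∀ t ∈ Icc t0 T, ∀ y v, F (t, y, v) ≤ 0 → ‖y‖ ≤ R ∧ ‖v‖ ≤ R := by
    intro t ht y v hle
    have htI : t ∈ Icc (-2 : ℝ) 1 := ⟨ht0.trans ht.1, ht.2.trans hT.le⟩
    have h1 : ‖g t (io y v)‖ ≤ N * om κ y v :=
      hg.bound t htI y v _ (by rw [sub_self, norm_zero]; linarith [htI.2])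
    have h2 := (Complex.abs_re_le_norm (g t (io y v))).trans h1
    have h3 : δ * Bar K κ0 t0 t v ≤ N * om κ y v := by
      have := neg_abs_le (g t (io y v)).re
      simp only [hF] at hle
      linarith
    have h4 : psi κ0 v ≤ Bar K κ0 t0 t v := by
      unfold Bar
      have a1 : 0 ≤ K * (t - t0) := mul_nonneg hK0.le (by linarith [ht.1])
      have a2 : 1 ≤ Real.exp (K * (t - t0)) := Real.one_le_exp a1
      have a3 : psi κ0 v ≤ psi (κ0 - K * (t - t0)) v := psi_mono (by linarith) v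
      have a4 := psi_pos κ0 v
      calc psi κ0 v = 1 * psi κ0 v := (one_mul _).symm
        _ ≤ _ := by gcongr
    have h5 : δ * psi κ0 v ≤ N * om κ y v := by
      calc δ * psi κ0 v ≤ δ * Bar K κ0 t0 t v := by gcongr
        _ ≤ _ := h3
    unfold psi om at h5
    have hP := P_pos v
    have h6 : δ * Real.exp (‖y‖ ^ 2 / 2 + κ0 * ‖v‖) ≤ N := by
      have e1 : δ * (Real.exp (-(κ0 * ‖v‖)) / P v) * (P v * Real.exp (κ * ‖v‖) *
          Real.exp (‖y‖ ^ 2 / 2)) ≤ N * (Real.exp (-‖y‖ ^ 2 / 2) / (P v * Real.exp (κ * ‖v‖))) *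
          (P v * Real.exp (κ * ‖v‖) * Real.exp (‖y‖ ^ 2 / 2)) := by
        gcongr
      have e2 : N * (Real.exp (-‖y‖ ^ 2 / 2) / (P v * Real.exp (κ * ‖v‖))) *
          (P v * Real.exp (κ * ‖v‖) * Real.exp (‖y‖ ^ 2 / 2)) = N := by
        have : Real.exp (-‖y‖ ^ 2 / 2) * Real.exp (‖y‖ ^ 2 / 2) = 1 := by
          rw [← Real.exp_add, ← Real.exp_zero]; congr 1; ring
        have hE := Real.exp_pos (κ * ‖v‖)
        calc _ = N * (Real.exp (-‖y‖ ^ 2 / 2) * Real.exp (‖y‖ ^ 2 / 2)) := by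
              field_simp
          _ = N := by rw [this, mul_one]
      have e3 : δ * (Real.exp (-(κ0 * ‖v‖)) / P v) * (P v * Real.exp (κ * ‖v‖) *
          Real.exp (‖y‖ ^ 2 / 2)) = δ * Real.exp (‖y‖ ^ 2 / 2 + κ0 * ‖v‖) := by
        have : Real.exp (‖y‖ ^ 2 / 2 + κ0 * ‖v‖) =
            Real.exp (-(κ0 * ‖v‖)) * (Real.exp (κ * ‖v‖) * Real.exp (‖y‖ ^ 2 / 2)) := by
          rw [← Real.exp_add, ← Real.exp_add]; congr 1; rw [hκ0']; ring
        rw [this]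
        field_simp
      rw [e2, e3] at e1
      exact e1
    have h7 : δ * (‖y‖ ^ 2 / 2 + κ0 * ‖v‖) ≤ N := by
      have := Real.add_one_le_exp (‖y‖ ^ 2 / 2 + κ0 * ‖v‖)
      have : δ * (‖y‖ ^ 2 / 2 + κ0 * ‖v‖) ≤ δ * Real.exp (‖y‖ ^ 2 / 2 + κ0 * ‖v‖) := by
        gcongr; linarith
      linarith
    have h8 : ‖y‖ ^ 2 / 2 + κ0 * ‖v‖ ≤ N / δ := by
      rw [le_div_iff₀ hδ]; linarith
    have h9 : 0 ≤ κ0 * ‖v‖ := by positivity
    have h10 : 0 ≤ ‖y‖ ^ 2 / 2 := by positivity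
    constructor
    · have : ‖y‖ ≤ (1 + ‖y‖ ^ 2) / 2 := by nlinarith [sq_nonneg (‖y‖ - 1)]
      linarith
    · have : ‖v‖ ≤ N / (δ * κ0) := by
        rw [← div_div, le_div_iff₀ hκ00]; linarith
      linarith
  -- the compact set
  set Kc : Set (ℝ × ℂ × ℂ) := Icc t0 T ×ˢ (closedBall (0 : ℂ) R ×ˢ closedBall (0 : ℂ) R) with hKc
  have hKcc : IsCompact Kc :=
    isCompact_Icc.prod ((isCompact_closedBall _ _).prod (isCompact_closedBall _ _))
  have hsub : Kc ⊆ Icc (-2 : ℝ) 1 ×ˢ univ := by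
    intro q hq
    exact ⟨⟨ht0.trans hq.1.1, hq.1.2.trans hT.le⟩, mem_univ _⟩
  have hScl : IsClosed (Kc ∩ F ⁻¹' Iic 0) :=
    (hFc.mono hsub).preimage_isClosed_of_isClosed hKcc.isClosed isClosed_Iic
  have hSc : IsCompact (Kc ∩ F ⁻¹' Iic 0) := hKcc.of_isClosed_subset hScl inter_subset_left
  have hmemS : ∀ t ∈ Icc t0 T, ∀ y v, F (t, y, v) ≤ 0 → (t, y, v) ∈ Kc ∩ F ⁻¹' Iic 0 := by
    intro t ht y v hle
    obtain ⟨hy, hv⟩ := hbd t ht y v hle
    exact ⟨⟨ht, by simpa using hy, by simpa using hv⟩, hle⟩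
  obtain ⟨⟨t1, y1, v1⟩, hq1, hmin⟩ := hSc.exists_isMinOn ⟨_, hmemS t' ht' y' v' hF'⟩
    continuous_fst.continuousOn
  have ht1 : t1 ∈ Icc t0 T := hq1.1.1
  have hF1 : F (t1, y1, v1) ≤ 0 := hq1.2
  have hlt : ∀ t ∈ Icc t0 T, t < t1 → ∀ y v, 0 < F (t, y, v) := by
    intro t ht htt y v
    by_contra hle
    push Not at hle
    have := hmin (hmemS t ht y v hle)
    simp only [mem_ofPred_eq] at this
    linarith
  have ht01 : t0 < t1 := by
    rcases eq_or_lt_of_le ht1.1 with h | h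
    · exfalso
      have h1 := hpos y1 v1
      have h2 := Bar_pos K κ0 t0 t1 v1
      simp only [hF] at hF1
      rw [← h] at hF1 h2
      have : 0 < δ * Bar K κ0 t0 t0 v1 := by positivity
      linarith
    · exact h
  have ht1I : t1 ∈ Ioo (-2 : ℝ) 1 := ⟨by linarith, ht1.2.trans_lt hT⟩
  have ht1Icc : t1 ∈ Icc (-2 : ℝ) 1 := ⟨ht1I.1.le, ht1I.2.le⟩
  have hge : ∀ y v, 0 ≤ F (t1, y, v) := by
    intro y v
    have hc : ContinuousWithinAt (fun t => F (t, y, v)) (Icc (-2 : ℝ) 1) t1 := by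
      have : ContinuousOn (fun t => F (t, y, v)) (Icc (-2 : ℝ) 1) :=
        hFc.comp (by fun_prop) (fun t ht => ⟨ht, mem_univ _⟩)
      exact this t1 ht1Icc
    have hc2 : Tendsto (fun t => F (t, y, v)) (𝓝[Ico t0 t1] t1) (𝓝 (F (t1, y, v))) :=
      hc.mono (fun t ht => ⟨ht0.trans ht.1, (ht.2.le.trans ht1Icc.2)⟩)
    have := right_nhdsWithin_Ico_neBot ht01
    refine ge_of_tendsto hc2 ?_
    filter_upwards [self_mem_nhdsWithin] with t ht
    exact (hlt t ⟨ht.1, ht.2.le.trans ht1.2⟩ ht.2 y v).le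
  have hF1eq : F (t1, y1, v1) = 0 := le_antisymm hF1 (hge y1 v1)
  -- parameters at the touching time
  set D := δ * Real.exp (K * (t1 - t0)) with hD
  set c := κ0 - K * (t1 - t0) with hc
  have hD0 : 0 ≤ D := by positivity
  have hKt : K * (t1 - t0) ≤ κ0 := by
    refine le_trans ?_ hT'
    have : t1 - t0 ≤ T - t0 := by linarith [ht1.2]
    gcongr
  have hKt0 : 0 ≤ K * (t1 - t0) := mul_nonneg hK0.le (by linarith)
  have hc0 : 0 ≤ c := by linarith
  have hcκ : c ≤ κ := by linarith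
  have hDB : ∀ v, D * psi c v = δ * Bar K κ0 t0 t1 v := by
    intro v; unfold Bar; rw [hD, hc]; ring
  have hlow : ∀ y v, -(D * psi c v) ≤ (g t1 (io y v)).re := by
    intro y v
    have := hge y v
    simp only [hF] at this
    rw [hDB]; linarith
  have htouch : (g t1 (io y1 v1)).re = -(D * psi c v1) := by
    simp only [hF] at hF1eq
    rw [hDB]; linarith
  have hQ := QC_touch hk (hg.slice ht1Icc) hN (by linarith [ht1I.2]) (abs_le_two ht1Icc)
    hc0 hcκ hκ1 hD0 (him t1 ht1Icc) hlow htouch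
  rw [hDB] at hQ
  -- the derivative
  have hZ : io y1 v1 ∈ tube (3 - t1) := ⟨y1, v1, by rw [sub_self, norm_zero]; linarith [ht1I.2]⟩
  have hd1 : HasDerivAt (fun τ => g τ (io y1 v1)) (QC γ k t1 (g t1) (g t1) (io y1 v1)) t1 := by
    have h1 := (BC_deriv hk hκ0.le hN hN hg hg ht1I hZ).const_add (g0 (io y1 v1))
    refine h1.congr_of_eventuallyEq ?_
    filter_upwards [Ioo_mem_nhds ht1I.1 ht1I.2] with τ hτ
    exact heq τ ⟨hτ.1.le, hτ.2.le⟩ _ ⟨y1, v1, by rw [sub_self, norm_zero]; linarith [hτ.2]⟩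
  have hd2 : HasDerivAt (fun τ => (g τ (io y1 v1)).re)
      (QC γ k t1 (g t1) (g t1) (io y1 v1)).re t1 :=
    Complex.reCLM.hasFDerivAt.comp_hasDerivAt t1 hd1
  have hd3 : HasDerivAt (fun τ => F (τ, y1, v1))
      ((QC γ k t1 (g t1) (g t1) (io y1 v1)).re + δ * (K * (1 + ‖v1‖) * Bar K κ0 t0 t1 v1)) t1 :=
    hd2.add ((Bar_deriv K κ0 t0 t1 v1).const_mul δ)
  set L := (QC γ k t1 (g t1) (g t1) (io y1 v1)).re + δ * (K * (1 + ‖v1‖) * Bar K κ0 t0 t1 v1)
    with hL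
  have hL0 : 0 < L := by
    have hB := Bar_pos K κ0 t0 t1 v1
    have h1 : 0 < (1 + ‖v1‖) * (δ * Bar K κ0 t0 t1 v1) := by positivity
    have h2 : L ≥ -(KK s γ Ck N * (1 + ‖v1‖) * (δ * Bar K κ0 t0 t1 v1)) +
        δ * (K * (1 + ‖v1‖) * Bar K κ0 t0 t1 v1) := by linarith
    have h3 : -(KK s γ Ck N * (1 + ‖v1‖) * (δ * Bar K κ0 t0 t1 v1)) +
        δ * (K * (1 + ‖v1‖) * Bar K κ0 t0 t1 v1) =
        (1 + ‖v1‖) * (δ * Bar K κ0 t0 t1 v1) := by rw [hK]; ring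
    linarith
  have hslope := hasDerivAt_iff_tendsto_slope.mp hd3
  have hev : ∀ᶠ t in 𝓝[≠] t1, 0 < slope (fun τ => F (τ, y1, v1)) t1 t :=
    hslope.eventually (lt_mem_nhds hL0)
  have hev2 : ∀ᶠ t in 𝓝[Ico t0 t1] t1, 0 < slope (fun τ => F (τ, y1, v1)) t1 t := by
    refine hev.filter_mono (nhdsWithin_mono _ ?_)
    intro t ht
    exact ht.2.ne
  have := right_nhdsWithin_Ico_neBot ht01
  obtain ⟨t, hts, htm⟩ := (hev2.and self_mem_nhdsWithin).exists
  have h1 := hlt t ⟨htm.1, htm.2.le.trans ht1.2⟩ htm.2 y1 v1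
  rw [slope_def_field, hF1eq, sub_zero] at hts
  have h2 : F (t, y1, v1) / (t - t1) < 0 := div_neg_of_pos_of_neg h1 (by linarith [htm.2])
  linarith

/-- **Nonnegativity.** -/
theorem positivity_statement : PositivityStatement := by
  intro s γ k Ck hk κ N g g0 hκ0 hκ1 hN hg heq him hpos
  set K := KK s γ Ck N + 1 with hK
  have hK0 : 0 < K := by have := KK_nonneg hk hN; linarith
  set h : ℝ := κ / (2 * K) with hh
  have hh0 : 0 < h := by positivity
  have hstart : ∀ y v, 0 ≤ (g (-2) (io y v)).re := by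
    intro y v
    rw [heq (-2) ⟨le_rfl, by norm_num⟩ _ ⟨y, v, by rw [sub_self, norm_zero]; norm_num⟩]
    unfold BC
    simpa using hpos y v
  -- positivity on [-2, 1)
  have hind : ∀ n : ℕ, ∀ t ∈ Ico (-2 : ℝ) 1, t ≤ -2 + n * h → ∀ y v, 0 ≤ (g t (io y v)).re := by
    intro n
    induction n with
    | zero =>
      intro t ht hle y v
      have : t = -2 := by
        apply le_antisymm _ ht.1
        simpa using hle
      rw [this]; exact hstart y v
    | succ n ih =>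
      intro t ht hle
      rcases le_or_gt t (-2 + n * h) with h1 | h1
      · exact ih t ht h1
      · -- step from t0 = -2 + n h
        have hnh : 0 ≤ (n : ℝ) * h := by positivity
        have hst := step hk hκ0 hκ1 hN hg heq him (t0 := -2 + n * h) (T := t) (by linarith) ht.2
          (by
            rw [← hK]
            have e1 : t - (-2 + n * h) ≤ h := by push_cast at hle; linarith
            calc K * (t - (-2 + n * h)) ≤ K * h := by gcongr
              _ = κ / 2 := by rw [hh]; field_simp)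
          (ih _ ⟨by linarith, by linarith [ht.2]⟩ le_rfl)
        exact hst t ⟨h1.le, le_rfl⟩
  have hIco : ∀ t ∈ Ico (-2 : ℝ) 1, ∀ y v, 0 ≤ (g t (io y v)).re := by
    intro t ht
    obtain ⟨n, hn⟩ := exists_nat_ge ((t + 2) / h)
    refine hind n t ht ?_
    rw [div_le_iff₀ hh0] at hn
    linarith
  intro t ht y v
  rcases lt_or_eq_of_le ht.2 with h1 | h1
  · exact hIco t ⟨ht.1, h1⟩ y v
  · subst h1
    have hc : ContinuousOn (fun t : ℝ => (g t (io y v)).re) (Icc (-2 : ℝ) 1) :=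
      (real_cont hg).comp (f := fun t : ℝ => ((t, y, v) : ℝ × ℂ × ℂ)) (by fun_prop)
        (fun t ht => ⟨ht, mem_univ _⟩)
    have hc2 : Tendsto (fun t : ℝ => (g t (io y v)).re) (𝓝[Ico (-2 : ℝ) 1] 1)
        (𝓝 (g 1 (io y v)).re) :=
      (hc 1 ht).mono Ico_subset_Icc_self
    have := right_nhdsWithin_Ico_neBot (show (-2 : ℝ) < 1 by norm_num)
    refine ge_of_tendsto hc2 ?_
    filter_upwards [self_mem_nhdsWithin] with t ht
    exact hIco t ht y v

end BoltzDisp
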